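import Mathlib.Analysis.PSeries
import Pool.Agent.Lib.ANT.Mertens

/-!
# The singular series of a tuple and its average

`sing_bounds`: with `m = |S|`, `n p = |image|` one has `n p ≤ m`.  Lower bound: each factor is at least
`(1 - m/p)/(1 - 1/p)^m ≥ 1 - m^2/p^2` (`1/2 ≤ 1 - m/p ≤ (1 - 1/p)^m ≤ 1 - m/p + m^2/(2 p^2)`), and
`∑_{p > w} 1/p^2 ≤ 1/w`.  Upper bound: if `n p = m` the factor is `≤ 1`; otherwise `p ∣ v a - v b` for
some `a ≠ b` in `S` (as `p ∤ W`), so `p ≤ q`, and the factor is `≤ 1/(1 - m/p) ≤ 1 + 2J/p`.  Hence the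
product is at most `∏_{(a,b)} γ (a,b)`, `γ = ∏_{w < p ≤ q, p ∣ v a - v b} (1 + 2J/p) ≥ 1`, which is at
most `(max γ)^(J^2) ≤ 1 + ∑ (γ^(J^2) - 1)`.
`GG_le`: `(1 + x)^n ≤ exp (n x)` and `abs_sum_inv_prime_sub_loglog_le`.
`GG_sum`: with `c p = (1 + 2J/p)^(J^2) - 1 ≤ 4 J^3 / p` (if `2 J^3 ≤ w`),
`GG h = ∑_{∅ ≠ S ⊆ Q} [∀ p ∈ S, p ∣ h] ∏_S c p` (`Finset.prod_one_add`); the condition says `∏ S ∣ h`; if
`∏ S > q` no `b ≠ a` qualifies; so the sum is at most `D (∏_Q (1 + c p * p^(-1/s)) - 1)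
≤ D (exp (4 J^3 ∑_{n > w} n^(-1-1/s)) - 1)`, and the tail of the convergent series tends to `0`.
-/

set_option autoImplicit false

namespace Pool.Agent.Work.MP_89ab3c_nt

open Finset

noncomputable section

/-- majorant for the excess of the singular series caused by the difference `h` -/
def GG (J w q : ℕ) (h : ℤ) : ℝ :=
  (∏ p ∈ (Ioc w q).filter Nat.Prime,
    if (p : ℤ) ∣ h then (1 + 2 * (J : ℝ) / p) ^ (J ^ 2) else 1) - 1

namespace SingAux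

theorem one_le_fac (J p : ℕ) : (1 : ℝ) ≤ 1 + 2 * (J : ℝ) / p :=
  le_add_of_nonneg_right (by positivity)

theorem one_le_ite (J p : ℕ) (c : Prop) [Decidable c] :
    (1 : ℝ) ≤ if c then 1 + 2 * (J : ℝ) / p else 1 := by
  split_ifs
  · exact one_le_fac J p
  · exact le_rfl

theorem fac_pow_le (J p : ℕ) : (1 + 2 * (J : ℝ) / p) ^ (J ^ 2) ≤
    Real.exp (2 * (J : ℝ) ^ 3 * (p : ℝ)⁻¹) := by
  have h : (1 + 2 * (J : ℝ) / p) ^ (J ^ 2) ≤ Real.exp (2 * (J : ℝ) / p) ^ (J ^ 2) :=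
    pow_le_pow_left₀ (by positivity) (by rw [add_comm]; exact Real.add_one_le_exp _) _
  rw [← Real.exp_nat_mul] at h
  refine h.trans (le_of_eq (congrArg _ ?_))
  push_cast
  ring

theorem GG_eq (J w q : ℕ) (h : ℤ) : GG J w q h = (∏ p ∈ (Ioc w q).filter Nat.Prime,
    if (p : ℤ) ∣ h then 1 + 2 * (J : ℝ) / p else 1) ^ (J ^ 2) - 1 := by
  simp only [GG, ← prod_pow, ite_pow, one_pow]

theorem pow_le_quad {x : ℝ} (h0 : 0 ≤ x) (h1 : x ≤ 1) (m : ℕ) :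
    (1 - x) ^ m ≤ 1 - m * x + (m * x) ^ 2 / 2 := by
  induction m with
  | zero => simp
  | succ m ih =>
    rw [pow_succ]
    refine (mul_le_mul_of_nonneg_right ih (sub_nonneg.2 h1)).trans ?_
    push_cast
    nlinarith [mul_nonneg (sq_nonneg (m * x)) h0, sq_nonneg x]

theorem lin_le_pow {x : ℝ} (h1 : x ≤ 1) (m : ℕ) : 1 - m * x ≤ (1 - x) ^ m := by
  have := one_add_mul_le_pow (a := -x) (by linarith) m
  simpa [sub_eq_add_neg] using this

theorem one_sub_sum_le {ι : Type} (s : Finset ι) {a : ι → ℝ} (h0 : ∀ i ∈ s, 0 ≤ a i)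
    (h1 : ∀ i ∈ s, a i ≤ 1) : 1 - ∑ i ∈ s, a i ≤ ∏ i ∈ s, (1 - a i) := by
  induction s using Finset.cons_induction with
  | empty => simp
  | cons i s hi ih =>
    simp only [forall_mem_cons] at h0 h1
    rw [sum_cons, prod_cons]
    have h2 := mul_le_mul_of_nonneg_left (ih h0.2 h1.2) (sub_nonneg.2 h1.1)
    nlinarith [mul_nonneg h0.1 (sum_nonneg h0.2)]

theorem prod_le_sum {ι : Type} (s : Finset ι) {γ : ι → ℝ} (h : ∀ i, 1 ≤ γ i) {N : ℕ}
    (hN : s.card ≤ N) : ∏ i ∈ s, γ i ≤ 1 + ∑ i ∈ s, (γ i ^ N - 1) := by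
  rcases s.eq_empty_or_nonempty with rfl | hs
  · simp
  obtain ⟨i, hi, hm⟩ := exists_max_image s γ hs
  have h1 : ∏ j ∈ s, γ j ≤ γ i ^ N := by
    refine (prod_le_prod (fun j _ => zero_le_one.trans (h j)) hm).trans ?_
    rw [prod_const]
    exact pow_le_pow_right₀ (h i) hN
  have h2 := single_le_sum (f := fun j => γ j ^ N - 1)
    (fun j _ => sub_nonneg.2 (one_le_pow₀ (h j))) hi
  linarith

/-- the three bounds for one factor -/
theorem fac_bounds {J m n p : ℕ} (hn : n ≤ m) (hm : m ≤ J) (hp : 2 * J < p) (hp2 : 2 ≤ p) :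
    1 - (J : ℝ) ^ 2 * ((p : ℝ) ^ 2)⁻¹ ≤ (1 - (n : ℝ) / p) / (1 - (p : ℝ)⁻¹) ^ m ∧
    (1 - (n : ℝ) / p) / (1 - (p : ℝ)⁻¹) ^ m ≤ 1 + 2 * (J : ℝ) / p ∧
    (n = m → (1 - (n : ℝ) / p) / (1 - (p : ℝ)⁻¹) ^ m ≤ 1) := by
  have p2 : (2 : ℝ) ≤ p := by exact_mod_cast hp2
  have hx0 : (0 : ℝ) < (p : ℝ)⁻¹ := by positivity
  have hx1 : (p : ℝ)⁻¹ < 1 := inv_lt_one_of_one_lt₀ (by linarith)
  have hJ : (J : ℝ) * (p : ℝ)⁻¹ ≤ 1 / 2 := by
    rw [← div_eq_mul_inv, div_le_iff₀ (by positivity)]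
    have : (2 * J : ℝ) ≤ p := by exact_mod_cast hp.le
    linarith
  rw [← inv_pow, ← mul_pow, div_eq_mul_inv (n : ℝ), mul_div_assoc, div_eq_mul_inv (J : ℝ)]
  generalize (p : ℝ)⁻¹ = x at hx0 hx1 hJ
  have h0 : 0 < (1 - x) ^ m := pow_pos (sub_pos.2 hx1) m
  have h1 := pow_le_quad hx0.le hx1.le m
  have h2 := lin_le_pow hx1.le m
  have h3 : (n : ℝ) * x ≤ m * x := mul_le_mul_of_nonneg_right (by exact_mod_cast hn) hx0.le
  have h4 : (m : ℝ) * x ≤ J * x := mul_le_mul_of_nonneg_right (by exact_mod_cast hm) hx0.le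
  have h5 : 0 ≤ (n : ℝ) * x := by positivity
  refine ⟨?_, ?_, fun e => ?_⟩
  · rw [le_div_iff₀ h0]
    generalize (1 - x) ^ m = y at h0 h1 h2
    generalize (m : ℝ) * x = u at h1 h2 h3 h4
    have h6 : (1 - (J * x) ^ 2) * y ≤ (1 - u ^ 2) * y :=
      mul_le_mul_of_nonneg_right (by nlinarith) h0.le
    have h7 : (1 - u ^ 2) * y ≤ (1 - u ^ 2) * (1 - u + u ^ 2 / 2) :=
      mul_le_mul_of_nonneg_left h1 (by nlinarith)
    nlinarith [mul_nonneg (sq_nonneg u) (sq_nonneg u),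
      mul_nonneg (sq_nonneg u) (show 0 ≤ 1 / 2 - u by linarith)]
  · rw [div_le_iff₀ h0]
    generalize (J : ℝ) * x = u at hJ h4
    have h6 : (1 + 2 * u) * (1 - u) ≤ (1 + 2 * u) * (1 - x) ^ m :=
      mul_le_mul_of_nonneg_left (by linarith) (by linarith)
    nlinarith [mul_nonneg (show 0 ≤ u by linarith) (show 0 ≤ 1 / 2 - u by linarith)]
  · rw [div_le_one h0, e]
    exact h2

theorem prod_sub_one (Q : Finset ℕ) (f : ℕ → ℝ) :
    ∏ p ∈ Q, (1 + f p) - 1 = ∑ T ∈ Q.powerset.erase ∅, ∏ p ∈ T, f p := by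
  rw [prod_one_add, ← add_sum_erase _ _ (empty_mem_powerset Q), prod_empty, add_sub_cancel_left]

theorem abs_sub_lt {a b q : ℕ} (ha : a < q) (hb : b < q) (h : a ≠ b) {d : ℕ}
    (hd : (d : ℤ) ∣ (a : ℤ) - b) : d < q := by
  have := Int.natAbs_le_of_dvd_ne_zero hd (by omega)
  omega

end SingAux

open SingAux

theorem GG_nonneg (J w q : ℕ) (h : ℤ) : 0 ≤ GG J w q h := by
  rw [GG_eq]
  exact sub_nonneg.2 (one_le_pow₀ (one_le_prod fun p _ => one_le_ite J p _))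

theorem GG_le (J w : ℕ) {q : ℕ} (hq : 2 ≤ q) (h : ℤ) :
    GG J w q h ≤ Real.exp (2 * (J : ℝ) ^ 3 * (Real.log (Real.log q) + 72)) := by
  have h1 : ∑ p ∈ (Ioc w q).filter Nat.Prime, (p : ℝ)⁻¹ ≤ Real.log (Real.log q) + 72 := by
    have h2 := (abs_le.1 (Pool.Agent.Lib.ANT.abs_sum_inv_prime_sub_loglog_le q hq)).2
    have h3 : ∑ p ∈ (Ioc w q).filter Nat.Prime, (p : ℝ)⁻¹ ≤
        ∑ p ∈ (Ioc 0 q).filter Nat.Prime, (p : ℝ)⁻¹ :=
      sum_le_sum_of_subset_of_nonneg (filter_subset_filter _ (Ioc_subset_Ioc_left w.zero_le))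
        fun _ _ _ => by positivity
    linarith
  refine le_trans ?_ (Real.exp_le_exp.2 (mul_le_mul_of_nonneg_left h1 (by positivity)))
  rw [mul_sum, Real.exp_sum]
  refine (sub_le_self _ zero_le_one).trans (prod_le_prod (fun p _ => ?_) fun p _ => ?_)
  · split_ifs <;> positivity
  · split_ifs
    · exact fac_pow_le J p
    · exact Real.one_le_exp (by positivity)

theorem sing_bounds {X : Type} [DecidableEq X] {J w q W : ℕ} (hw1 : 1 ≤ w) (hw : 2 * J ≤ w)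
    (P : Finset ℕ) (hP : ∀ p ∈ P, p.Prime ∧ w < p ∧ ¬ p ∣ W) (v : X → ℕ)
    (hv : Function.Injective v) (hq : ∀ x, v x < q) (S : Finset X) (hS : S.card ≤ J) :
    1 - (J : ℝ) ^ 2 / w ≤ ∏ p ∈ P, (1 - ((S.image fun x => W * v x % p).card : ℝ) / p)
        / (1 - (p : ℝ)⁻¹) ^ S.card ∧
      ∏ p ∈ P, (1 - ((S.image fun x => W * v x % p).card : ℝ) / p) / (1 - (p : ℝ)⁻¹) ^ S.card
        ≤ 1 + ∑ e ∈ S.offDiag, GG J w q ((v e.1 : ℤ) - v e.2) := by
  have hb := fun p (hp : p ∈ P) => fac_bounds (J := J) (p := p)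
    (card_image_le (s := S) (f := fun x => W * v x % p)) hS (hw.trans_lt (hP p hp).2.1)
    (hP p hp).1.two_le
  have h1 : ∀ p ∈ P, (J : ℝ) ^ 2 * ((p : ℝ) ^ 2)⁻¹ ≤ 1 := fun p hp => by
    have h0 : (0 : ℝ) < p := by exact_mod_cast (hP p hp).1.pos
    rw [← div_eq_mul_inv, div_le_one (by positivity)]
    refine pow_le_pow_left₀ (by positivity) ?_ 2
    have := (hP p hp).2.1
    exact_mod_cast (by omega : J ≤ p)
  constructor
  · refine le_trans ?_ ((one_sub_sum_le P (fun p _ => by positivity) h1).trans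
      (prod_le_prod (fun p hp => sub_nonneg.2 (h1 p hp)) fun p hp => (hb p hp).1))
    rw [← mul_sum, div_eq_mul_inv]
    refine sub_le_sub_left (mul_le_mul_of_nonneg_left ?_ (by positivity)) _
    have h2 := sum_Ioc_inv_sq_le_sub (α := ℝ) (k := w) (n := max w (P.sup id)) (by omega)
      (le_max_left _ _)
    refine (sum_le_sum_of_subset_of_nonneg (fun p hp => mem_Ioc.2 ⟨(hP p hp).2.1,
      le_max_of_le_right (le_sup (f := id) hp)⟩) fun _ _ _ => by positivity).trans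
      (h2.trans (sub_le_self _ (by positivity)))
  simp only [GG_eq]
  refine le_trans ?_ (prod_le_sum S.offDiag (fun e => one_le_prod fun p _ => one_le_ite J p _) ?_)
  swap
  · rw [offDiag_card, sq]
    exact (Nat.sub_le _ _).trans (Nat.mul_le_mul hS hS)
  rw [prod_comm]
  set Q := (Ioc w q).filter Nat.Prime with hQ
  have hG : ∀ p : ℕ, (1 : ℝ) ≤ ∏ e ∈ S.offDiag,
      if (p : ℤ) ∣ (v e.1 : ℤ) - v e.2 then 1 + 2 * (J : ℝ) / p else 1 :=
    fun p => one_le_prod fun e _ => one_le_ite J p _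
  refine le_trans ?_ (prod_le_prod_of_subset_of_one_le (inter_subset_right (s₁ := P))
    (fun p _ => zero_le_one.trans (hG p)) fun p _ _ => hG p)
  rw [← prod_ite_mem]
  refine prod_le_prod (fun p hp => (sub_nonneg.2 (h1 p hp)).trans (hb p hp).1) fun p hp => ?_
  by_cases hi : Set.InjOn (fun x => W * v x % p) S
  · refine ((hb p hp).2.2 (card_image_of_injOn hi)).trans ?_
    split_ifs
    · exact hG p
    · exact le_rfl
  simp only [Set.InjOn, not_forall, mem_coe] at hi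
  obtain ⟨a, ha, b, hb', hab, hne⟩ := hi
  have hd : (p : ℤ) ∣ (v a : ℤ) - v b := by
    have h2 : (p : ℤ) ∣ (W : ℤ) * ((v a : ℤ) - v b) := by
      have := (Nat.modEq_iff_dvd.1 (show W * v b ≡ W * v a [MOD p] from hab.symm))
      push_cast at this
      rwa [mul_sub]
    refine ((Nat.prime_iff_prime_int.1 (hP p hp).1).dvd_or_dvd h2).resolve_left fun h => ?_
    exact (hP p hp).2.2 (Int.natCast_dvd_natCast.1 h)
  have hpq := abs_sub_lt (hq a) (hq b) (hv.ne hne) hd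
  rw [if_pos (mem_filter.2 ⟨mem_Ioc.2 ⟨(hP p hp).2.1, hpq.le⟩, (hP p hp).1⟩)]
  refine (hb p hp).2.1.trans (le_trans ?_ (prod_le_prod_of_subset_of_one_le
    (singleton_subset_iff.2 (mem_offDiag.2 (⟨ha, hb', hne⟩ : (a, b).1 ∈ S ∧ (a, b).2 ∈ S ∧ _)))
    (fun e _ => zero_le_one.trans (one_le_ite J p _)) fun e _ _ => one_le_ite J p _))
  rw [prod_singleton, if_pos hd]

theorem GG_sum (J s : ℕ) (hs : 1 ≤ s) {θ : ℝ} (hθ : 0 < θ) : ∃ w₀ : ℕ, ∀ w : ℕ, w₀ ≤ w →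
    ∀ (q : ℕ) (X : Type) [Fintype X] [DecidableEq X] (v : X → ℕ), Function.Injective v →
      (∀ x, v x < q) → ∀ (κ : X → ℝ) (a : X) (D : ℝ), (∀ b, 0 ≤ κ b) → 0 ≤ D →
      (∀ d : ℕ, 1 ≤ d → d ≤ q → ∑ b ∈ univ.filter fun b => (d : ℤ) ∣ (v a : ℤ) - v b, κ b
        ≤ D * (d : ℝ) ^ (-(1 / (s : ℝ)))) →
      ∑ b ∈ univ.erase a, κ b * GG J w q ((v a : ℤ) - v b) ≤ D * θ := by
  have hs' : (0 : ℝ) < 1 / (s : ℝ) := by
    have : (0 : ℝ) < s := by exact_mod_cast hs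
    positivity
  have hsum : Summable fun n : ℕ => 4 * (J : ℝ) ^ 3 * (n : ℝ) ^ (-1 + -(1 / (s : ℝ))) :=
    (Real.summable_nat_rpow.2 (by linarith)).mul_left _
  obtain ⟨U, hU⟩ := summable_iff_vanishing_norm.1 hsum (Real.log (1 + θ))
    (Real.log_pos (by linarith))
  refine ⟨max (2 * J ^ 3) (U.sup id), fun w hw q X _ _ v hv hq κ a D hκ hD h => ?_⟩
  set Q := (Ioc w q).filter Nat.Prime with hQ
  have mQ : ∀ p ∈ Q, w < p ∧ p.Prime := fun p hp =>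
    ⟨(mem_Ioc.1 (mem_filter.1 hp).1).1, (mem_filter.1 hp).2⟩
  obtain ⟨c, hc⟩ : ∃ c : ℕ → ℝ, ∀ p, c p = (1 + 2 * (J : ℝ) / p) ^ (J ^ 2) - 1 := ⟨_, fun _ => rfl⟩
  have c0 : ∀ p, 0 ≤ c p := fun p => by rw [hc]; exact sub_nonneg.2 (one_le_pow₀ (one_le_fac J p))
  have c1 : ∀ p ∈ Q, c p ≤ 4 * (J : ℝ) ^ 3 * (p : ℝ)⁻¹ := fun p hp => by
    have h0 : (0 : ℝ) < p := by exact_mod_cast (mQ p hp).2.pos
    have h1 : (2 * J ^ 3 : ℝ) ≤ p := by
      exact_mod_cast ((le_max_left _ _).trans hw).trans (mQ p hp).1.le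
    have h2 : 0 ≤ 2 * (J : ℝ) ^ 3 * (p : ℝ)⁻¹ := by positivity
    have h3 := Real.abs_exp_sub_one_le (x := 2 * (J : ℝ) ^ 3 * (p : ℝ)⁻¹)
      (by rw [abs_of_nonneg h2, ← div_eq_mul_inv, div_le_one h0]; exact h1)
    rw [abs_of_nonneg h2] at h3
    have h4 := fac_pow_le J p
    rw [hc]
    linarith [(abs_le.1 h3).2]
  have e1 : ∀ k : ℤ, GG J w q k =
      ∑ T ∈ Q.powerset.erase ∅, ∏ p ∈ T, if (p : ℤ) ∣ k then c p else 0 := fun k => by
    rw [← prod_sub_one, GG]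
    refine congrArg (· - 1) (prod_congr rfl fun p _ => ?_)
    split_ifs
    · rw [hc, add_sub_cancel]
    · rw [add_zero]
  have e2 : ∀ T ∈ Q.powerset.erase ∅,
      ∑ b ∈ univ.erase a, κ b * ∏ p ∈ T, (if (p : ℤ) ∣ (v a : ℤ) - v b then c p else 0) ≤
        D * ∏ p ∈ T, c p * (p : ℝ) ^ (-(1 / (s : ℝ))) := fun T hT => by
    have hTQ := mem_powerset.1 (mem_of_mem_erase hT)
    have hC : 0 ≤ ∏ p ∈ T, c p := prod_nonneg fun p _ => c0 p
    have h1 : ∀ b, κ b * ∏ p ∈ T, (if (p : ℤ) ∣ (v a : ℤ) - v b then c p else 0) ≤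
        if ((∏ p ∈ T, p : ℕ) : ℤ) ∣ (v a : ℤ) - v b then κ b * ∏ p ∈ T, c p else 0 := fun b => by
      rw [prod_ite_zero]
      by_cases h2 : ∀ p ∈ T, (p : ℤ) ∣ (v a : ℤ) - v b
      · rw [if_pos h2, if_pos]
        rw [Int.natCast_dvd]
        exact prod_primes_dvd _ (fun p hp => (mQ p (hTQ hp)).2.prime) fun p hp =>
          Int.natCast_dvd.1 (h2 p hp)
      · rw [if_neg h2, mul_zero]
        split_ifs
        · exact mul_nonneg (hκ b) hC
        · exact le_rfl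
    refine (sum_le_sum fun b _ => h1 b).trans ?_
    rw [prod_mul_distrib, Real.finsetProd_rpow _ _ fun _ _ => Nat.cast_nonneg _, ← Nat.cast_prod]
    by_cases hd : ∏ p ∈ T, p ≤ q
    · have h2 := h _ (prod_pos fun p hp => (mQ p (hTQ hp)).2.pos) hd
      rw [← sum_filter, ← sum_mul, mul_comm (∏ p ∈ T, c p), ← mul_assoc]
      refine mul_le_mul_of_nonneg_right (le_trans ?_ h2) hC
      exact sum_le_sum_of_subset_of_nonneg (filter_subset_filter _ (erase_subset _ _))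
        fun b _ _ => hκ b
    · rw [sum_eq_zero fun b hb => if_neg fun h2 =>
        hd (abs_sub_lt (hq a) (hq b) (hv.ne (ne_of_mem_erase hb).symm) h2).le]
      positivity
  simp only [e1, mul_sum]
  rw [sum_comm]
  refine (sum_le_sum e2).trans ?_
  rw [← mul_sum, ← prod_sub_one]
  refine mul_le_mul_of_nonneg_left ?_ hD
  have h1 := Real.prod_one_add_le_exp_sum Q (f := fun p => c p * (p : ℝ) ^ (-(1 / (s : ℝ))))
    fun p => mul_nonneg (c0 p) (by positivity)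
  have h2 := hU Q (disjoint_left.2 fun p hp hp' => by
    have h3 := (mQ p hp).1
    have h4 : p ≤ U.sup id := le_sup (f := id) hp'
    have h5 := (le_max_right _ _).trans hw
    omega)
  have h3 : ∑ p ∈ Q, c p * (p : ℝ) ^ (-(1 / (s : ℝ))) ≤ Real.log (1 + θ) := by
    refine le_trans (sum_le_sum fun p hp => ?_) ((le_abs_self _).trans h2.le)
    have h0 : (0 : ℝ) < p := by exact_mod_cast (mQ p hp).2.pos
    rw [Real.rpow_add h0, Real.rpow_neg_one, ← mul_assoc]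
    exact mul_le_mul_of_nonneg_right (c1 p hp) (by positivity)
  have h4 := Real.exp_le_exp.2 h3
  rw [Real.exp_log (by linarith)] at h4
  linarith

end

end Pool.Agent.Work.MP_89ab3c_nt
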