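import Mathlib
import Pool.Agent.Lib.ANT.SieveClasses

-- merged part: Pool.Agent.Work.MP_89ab3c_nt.Point
section
-- merged part: Pool.Agent.Work.MP_89ab3c_nt.Four
section
/-!
# Quadratic forms against traces; the Bohr set

`quad_pow_le_trace`: put `S = diagonal √ν`, `B = S K S` (symmetric), `u = √ν φ`, `a n = u ⬝ B^n u`.
Cauchy-Schwarz gives `a n ^ 2 ≤ a 0 * a (2n)`, so `|a 1|^(2^r) ≤ a 0^(2^r - 1) a (2^r)`, and
`a (2n) = |B^n u|^2 ≤ (∑ entries of B^n squared) * a 0 = trace (B^(2n)) * a 0`;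
`trace (B^J) = trace ((K * diagonal ν)^J)` because `(S K S)^(n+1) = S (K S S)^n K S`.

`exists_bohr`: characters `ψ : AddChar (ZMod q) ℂ` are eigenvectors of circulant matrices and
`∑ ψ, ψ x = if x = 0 then q else 0` (`AddChar.sum_apply_eq_ite`), so for a circulant matrix the trace
of the `n`-th power is the sum of the `n`-th powers of the eigenvalues.  `circulant μ` has real
eigenvalues `λ ψ`, `|λ| ≤ 1`, `∑ λ^(2n) = trace ≤ C1`, so `Γ = {η ≤ |λ|}` has at most `C1 / η^(2n)`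
elements.  Pigeonhole the `H` elements with `val < H` by the cells `(⌊2 Re ψ b / η⌋, ⌊2 Im ψ b / η⌋)`,
`ψ ∈ Γ`.  `avg B0` is circulant with eigenvalue `p` = mean of `ψ` over `B0`, its transpose has the
conjugate; `0 ≤ 1 - |p|^2 ≤ 1`, and `1 - |p|^2 ≤` mean of `|ψ b - ψ b'| ≤ η` on `Γ`.  The eigenvalues
`λ (1 - |p|^2)` are at most `min η |λ|` in absolute value.
-/

set_option autoImplicit false

namespace Pool.Agent.Work.MP_89ab3c_nt

open Finset Matrix

noncomputable section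

namespace FourAux

variable {X : Type} [Fintype X] [DecidableEq X]

omit [DecidableEq X] in
theorem cs (u w : X → ℝ) : (u ⬝ᵥ w) ^ 2 ≤ (u ⬝ᵥ u) * (w ⬝ᵥ w) := by
  simpa only [dotProduct, sq] using sum_mul_sq_le_sq_mul_sq univ u w

omit [DecidableEq X] in
theorem self_nonneg (u : X → ℝ) : 0 ≤ u ⬝ᵥ u := sum_nonneg fun _ _ => mul_self_nonneg _

theorem double {B : Matrix X X ℝ} (hB : B.IsSymm) (u : X → ℝ) (n : ℕ) :
    (B ^ n *ᵥ u) ⬝ᵥ (B ^ n *ᵥ u) = u ⬝ᵥ (B ^ (n * 2) *ᵥ u) := by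
  rw [mul_two, pow_add, ← mulVec_mulVec, dotProduct_mulVec u, ← mulVec_transpose, (hB.pow n).eq]

theorem trace_double {B : Matrix X X ℝ} (hB : B.IsSymm) (n : ℕ) :
    (B ^ (n * 2)).trace = ∑ x, (B ^ n) x ⬝ᵥ (B ^ n) x := by
  rw [mul_two, pow_add]
  refine sum_congr rfl fun x _ => sum_congr rfl fun y _ => ?_
  exact congrArg ((B ^ n) x y * ·) ((hB.pow n).apply x y)

theorem iter {B : Matrix X X ℝ} (hB : B.IsSymm) (u : X → ℝ) (r : ℕ) :
    |u ⬝ᵥ (B *ᵥ u)| ^ 2 ^ r ≤ (u ⬝ᵥ u) ^ (2 ^ r - 1) * |u ⬝ᵥ (B ^ 2 ^ r *ᵥ u)| := by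
  induction r with
  | zero => simp
  | succ r ih =>
    obtain ⟨m, hm⟩ : ∃ m, 2 ^ r = m + 1 := ⟨2 ^ r - 1, by have := Nat.one_le_two_pow (n := r); omega⟩
    have h0 := self_nonneg u
    have h1 := cs u (B ^ 2 ^ r *ᵥ u)
    rw [double hB] at h1
    rw [pow_succ 2 r, pow_mul]
    rw [hm] at ih h1 ⊢
    rw [Nat.add_sub_cancel] at ih
    calc (|u ⬝ᵥ (B *ᵥ u)| ^ (m + 1)) ^ 2
        ≤ ((u ⬝ᵥ u) ^ m * |u ⬝ᵥ (B ^ (m + 1) *ᵥ u)|) ^ 2 := by gcongr
      _ = ((u ⬝ᵥ u) ^ m) ^ 2 * (u ⬝ᵥ (B ^ (m + 1) *ᵥ u)) ^ 2 := by rw [mul_pow, sq_abs]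
      _ ≤ ((u ⬝ᵥ u) ^ m) ^ 2 * ((u ⬝ᵥ u) * |u ⬝ᵥ (B ^ ((m + 1) * 2) *ᵥ u)|) := by
        refine mul_le_mul_of_nonneg_left (h1.trans ?_) (sq_nonneg _)
        exact mul_le_mul_of_nonneg_left (le_abs_self _) h0
      _ = _ := by
        rw [show (m + 1) * 2 - 1 = m * 2 + 1 by omega]
        ring

end FourAux

theorem quad_pow_le_trace {X : Type} [Fintype X] [DecidableEq X] (K : Matrix X X ℝ)
    (hK : K.IsSymm) (ν φ : X → ℝ) (hν : ∀ x, 0 ≤ ν x) {r : ℕ} (hr : 1 ≤ r) :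
    0 ≤ ((K * diagonal ν) ^ 2 ^ r).trace ∧
      |∑ x, ∑ y, ν x * φ x * K x y * (ν y * φ y)| ^ 2 ^ r
        ≤ (∑ x, ν x * φ x ^ 2) ^ 2 ^ r * ((K * diagonal ν) ^ 2 ^ r).trace := by
  obtain ⟨r, rfl⟩ : ∃ r', r = r' + 1 := ⟨r - 1, by omega⟩
  obtain ⟨m, hm⟩ : ∃ m, 2 ^ (r + 1) = m + 1 :=
    ⟨2 ^ (r + 1) - 1, by have := Nat.one_le_two_pow (n := r + 1); omega⟩
  set S : Matrix X X ℝ := diagonal fun x => √(ν x) with hS
  set u : X → ℝ := fun x => √(ν x) * φ x with hu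
  have hs : ∀ x, √(ν x) * √(ν x) = ν x := fun x => Real.mul_self_sqrt (hν x)
  have hB : (S * (K * S)).IsSymm := by
    rw [IsSymm, transpose_mul, transpose_mul, hK.eq, hS, diagonal_transpose, Matrix.mul_assoc]
  have hSS : K * S * S = K * diagonal ν := by
    rw [Matrix.mul_assoc, hS, diagonal_mul_diagonal]
    simp only [hs]
  have htr : ((K * diagonal ν) ^ 2 ^ (r + 1)).trace = ((S * (K * S)) ^ 2 ^ (r + 1)).trace := by
    rw [hm, pow_succ (S * (K * S)), ← Matrix.mul_assoc, mul_pow_mul, Matrix.mul_assoc,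
      trace_mul_comm, Matrix.mul_assoc, ← pow_succ, hSS]
  have h0 : ∑ x, ν x * φ x ^ 2 = u ⬝ᵥ u := sum_congr rfl fun x _ => by
    simp only [hu]
    linear_combination (-φ x ^ 2) * hs x
  have h1 : ∑ x, ∑ y, ν x * φ x * K x y * (ν y * φ y) = u ⬝ᵥ ((S * (K * S)) *ᵥ u) := by
    refine sum_congr rfl fun x _ => ?_
    simp only [mulVec, dotProduct, mul_sum, hS, diagonal_mul, mul_diagonal, hu]
    refine sum_congr rfl fun y _ => ?_
    linear_combination (-φ x * K x y * φ y * ν y) * hs x -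
      (φ x * K x y * φ y * √(ν x) * √(ν x)) * hs y
  have h2 := FourAux.trace_double hB (2 ^ r)
  have h3 := FourAux.double hB u (2 ^ r)
  rw [← pow_succ] at h2 h3
  rw [htr, h0, h1, h2]
  refine ⟨sum_nonneg fun _ _ => FourAux.self_nonneg _, (FourAux.iter hB u (r + 1)).trans ?_⟩
  rw [← h3, abs_of_nonneg (FourAux.self_nonneg _), hm, Nat.add_sub_cancel, pow_succ, mul_assoc]
  refine mul_le_mul_of_nonneg_left ?_ (pow_nonneg (FourAux.self_nonneg u) _)
  rw [mul_sum]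
  refine sum_le_sum fun x _ => ?_
  rw [mul_comm (u ⬝ᵥ u), ← sq]
  exact FourAux.cs _ _

/-- the averaging operator `f ↦ (x ↦ mean of f (x + b) over b ∈ B0)` -/
def avg {q : ℕ} (B0 : Finset (ZMod q)) : Matrix (ZMod q) (ZMod q) ℝ :=
  circulant fun u => if -u ∈ B0 then (B0.card : ℝ)⁻¹ else 0

namespace FourAux

open ComplexConjugate

variable {G : Type} [Fintype G] [DecidableEq G] [AddCommGroup G]

/-- the characters are eigenvectors of `M` with eigenvalues `lam` -/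
def Eig (M : Matrix G G ℝ) (lam : AddChar G ℂ → ℂ) : Prop :=
  ∀ (ψ : AddChar G ℂ) a, ∑ b, (M a b : ℂ) * ψ b = lam ψ * ψ a

variable {M N : Matrix G G ℝ} {l m : AddChar G ℂ → ℂ}

omit [DecidableEq G] in
theorem Eig.mul (h : Eig M l) (h' : Eig N m) : Eig (M * N) fun ψ => l ψ * m ψ := fun ψ a => by
  simp only [mul_apply, Complex.ofReal_sum, Complex.ofReal_mul, sum_mul]
  rw [sum_comm]
  simp only [mul_assoc, ← mul_sum, h' ψ]
  simp only [mul_left_comm _ (m ψ), ← mul_sum, h ψ]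

omit [DecidableEq G] in
theorem Eig.sub (h : Eig M l) (h' : Eig N m) : Eig (M - N) fun ψ => l ψ - m ψ := fun ψ a => by
  simp only [Matrix.sub_apply, Complex.ofReal_sub, sub_mul, sum_sub_distrib, h ψ, h' ψ]

theorem Eig.pow (h : Eig M l) (n : ℕ) : Eig (M ^ n) fun ψ => l ψ ^ n := by
  induction n with
  | zero =>
    intro ψ a
    simp [one_apply, apply_ite Complex.ofReal]
  | succ n ih => simpa only [pow_succ] using ih.mul h

theorem Eig.trace (h : Eig M l) : (M.trace : ℂ) = ∑ ψ, l ψ := by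
  have hc : (Fintype.card G : ℂ) ≠ 0 := Nat.cast_ne_zero.2 Fintype.card_ne_zero
  have key : ∀ a, (Fintype.card G : ℂ) * M a a = ∑ ψ, l ψ := fun a => by
    have h1 : ∀ ψ : AddChar G ℂ, l ψ = ∑ b, (M a b : ℂ) * ψ (b - a) := fun ψ => by
      have h2 : ψ a * ψ (-a) = 1 := by rw [← AddChar.map_add_eq_mul, add_neg_cancel, ψ.map_zero_eq_one]
      simp only [sub_eq_add_neg, AddChar.map_add_eq_mul, ← mul_assoc, ← sum_mul, h ψ a]
      rw [mul_assoc, h2, mul_one]
    simp only [h1]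
    rw [sum_comm]
    simp only [← mul_sum, AddChar.sum_apply_eq_ite, sub_eq_zero, mul_ite, mul_zero]
    rw [sum_ite_eq', if_pos (mem_univ _), mul_comm]
  refine mul_left_cancel₀ hc ?_
  rw [Matrix.trace, Complex.ofReal_sum, mul_sum]
  simp only [diag_apply, key, sum_const, card_univ, nsmul_eq_mul]

omit [DecidableEq G] in
theorem eig_circ (f : G → ℝ) : Eig (circulant f) fun ψ => ∑ x, (f x : ℂ) * ψ (-x) := fun ψ a => by
  rw [sum_mul, ← (Equiv.subLeft a).sum_comp]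
  refine sum_congr rfl fun x _ => ?_
  rw [circulant_apply, Equiv.subLeft_apply, sub_sub_cancel, sub_eq_add_neg, AddChar.map_add_eq_mul]
  ring

theorem pigeon {α β : Type} [DecidableEq β] (s : Finset α) (Γ : Finset β) (F : β → α → ℝ)
    (hF : ∀ i a, |F i a| ≤ 1) {δ : ℝ} (hδ : 0 < δ) : ∃ B ⊆ s,
      (s.card : ℝ) ≤ ((2 * ⌈1 / δ⌉₊ + 1 : ℕ) : ℝ) ^ Γ.card * B.card ∧
        ∀ i ∈ Γ, ∀ a ∈ B, ∀ a' ∈ B, |F i a - F i a'| ≤ δ := by
  classical
  set M : ℕ := ⌈1 / δ⌉₊ with hM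
  have hN : (0 : ℝ) < ((2 * M + 1 : ℕ) : ℝ) ^ Γ.card := by positivity
  have hc : (Fintype.piFinset fun _ : Γ => Icc (-(M : ℤ)) M).card = (2 * M + 1) ^ Γ.card := by
    rw [Fintype.card_piFinset, prod_const, Int.card_Icc, card_univ, Fintype.card_coe]
    congr 1
    omega
  obtain ⟨y, -, hy⟩ := exists_le_card_fiber_of_nsmul_le_card_of_maps_to (s := s)
    (t := Fintype.piFinset fun _ : Γ => Icc (-(M : ℤ)) M) (f := fun a (i : Γ) => ⌊F i a / δ⌋)
    (b := (s.card : ℝ) / ((2 * M + 1 : ℕ) : ℝ) ^ Γ.card) (fun a _ => by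
      refine Fintype.mem_piFinset.2 fun i => mem_Icc.2 ?_
      have h1 : |F i a / δ| ≤ M := by
        rw [abs_div, abs_of_pos hδ]
        exact (div_le_div_of_nonneg_right (hF i a) hδ.le).trans (Nat.le_ceil _)
      rw [abs_le] at h1
      exact ⟨Int.le_floor.2 (by push_cast; exact h1.1),
        by exact_mod_cast (Int.floor_le _).trans h1.2⟩)
    (card_pos.1 (by rw [hc]; positivity))
    (by rw [hc, nsmul_eq_mul, Nat.cast_pow, mul_div_cancel₀ _ hN.ne'])
  refine ⟨_, filter_subset _ _, by rwa [div_le_iff₀' hN] at hy, fun i hi a ha a' ha' => ?_⟩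
  have h1 := congrFun ((mem_filter.1 ha).2.trans (mem_filter.1 ha').2.symm) ⟨i, hi⟩
  have h2 := Int.abs_sub_lt_one_of_floor_eq_floor h1
  rw [← sub_div, abs_div, abs_of_pos hδ, div_lt_one hδ] at h2
  exact h2.le

theorem eig_avg {q : ℕ} [NeZero q] (B0 : Finset (ZMod q)) :
    Eig (avg B0) (fun ψ => (B0.card : ℂ)⁻¹ * ∑ b ∈ B0, ψ b) ∧
      Eig (avg B0)ᵀ fun ψ => conj ((B0.card : ℂ)⁻¹ * ∑ b ∈ B0, ψ b) := by
  constructor
  · rw [avg]
    convert eig_circ (fun u : ZMod q => if -u ∈ B0 then (B0.card : ℝ)⁻¹ else 0) using 2 with ψ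
    rw [← Equiv.sum_comp (Equiv.neg (ZMod q))]
    simp [apply_ite Complex.ofReal, mul_sum]
  · rw [avg, transpose_circulant]
    convert eig_circ (fun u : ZMod q => if - -u ∈ B0 then (B0.card : ℝ)⁻¹ else 0) using 2 with ψ
    simp [apply_ite Complex.ofReal, mul_sum, AddChar.map_neg_eq_conj]

theorem mean_near {α : Type} {B : Finset α} {b₀ : α} (hb : b₀ ∈ B) (f : α → ℂ) (z : ℂ) {δ : ℝ}
    (h : ∀ b ∈ B, ‖f b - z‖ ≤ δ) : ‖(B.card : ℂ)⁻¹ * ∑ b ∈ B, f b - z‖ ≤ δ := by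
  have hc : (0 : ℝ) < B.card := Nat.cast_pos.2 (card_pos.2 ⟨_, hb⟩)
  have hc' : (B.card : ℂ) ≠ 0 := by exact_mod_cast hc.ne'
  have e : (B.card : ℂ)⁻¹ * ∑ b ∈ B, f b - z = (B.card : ℂ)⁻¹ * ∑ b ∈ B, (f b - z) := by
    rw [sum_sub_distrib, sum_const, nsmul_eq_mul, mul_sub, inv_mul_cancel_left₀ hc']
  rw [e, norm_mul, norm_inv, Complex.norm_natCast, inv_mul_le_iff₀ hc]
  refine (norm_sum_le _ _).trans ?_
  simpa using sum_le_card_nsmul B _ δ h

end FourAux

theorem exists_bohr (n : ℕ) (C1 η : ℝ) (hη : 0 < η) : ∃ ρ : ℝ, 0 < ρ ∧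
    ∀ (q : ℕ) [NeZero q] (μ : ZMod q → ℝ) (H : ℕ), 0 < H → H ≤ q → (∀ x, 0 ≤ μ x) →
      ∑ x, μ x = 1 → (∀ x, μ (-x) = μ x) → (∀ a b, (circulant μ ^ (2 * n)) a b ≤ C1 / q) →
      ∃ B0 : Finset (ZMod q), (∀ b ∈ B0, b.val < H) ∧ ρ * H ≤ B0.card ∧ ∀ J : ℕ, 2 * n + 2 ≤ J →
        ((circulant μ - (avg B0)ᵀ * circulant μ * avg B0) ^ J).trace ≤ η ^ 2 * C1 := by
  classical
  have hδ : 0 < η / 4 := by positivity
  set N : ℝ := ((2 * ⌈1 / (η / 4)⌉₊ + 1 : ℕ) : ℝ) with hN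
  have hN1 : 1 ≤ N := by
    rw [hN]
    exact_mod_cast Nat.le_add_left 1 _
  set g : ℕ := ⌊C1 / η ^ (2 * n)⌋₊ with hg
  refine ⟨(N ^ g * N ^ g)⁻¹, by positivity, fun q _ μ H hH hHq h0 h1 hs hC => ?_⟩
  have hq : (0 : ℝ) < q := Nat.cast_pos.2 (NeZero.pos q)
  obtain ⟨l, hl, hl1⟩ : ∃ l : AddChar (ZMod q) ℂ → ℝ,
      FourAux.Eig (circulant μ) (fun ψ => l ψ) ∧ ∀ ψ, |l ψ| ≤ 1 := by
    refine ⟨fun ψ => (∑ x, (μ x : ℂ) * ψ (-x)).re, ?_, fun ψ => ?_⟩
    · convert FourAux.eig_circ μ using 2 with ψ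
      refine Complex.conj_eq_iff_re.1 ?_
      rw [map_sum, ← Equiv.sum_comp (Equiv.neg (ZMod q))]
      refine sum_congr rfl fun x _ => ?_
      simp [hs, AddChar.map_neg_eq_conj]
    · refine (Complex.abs_re_le_norm _).trans ((norm_sum_le _ _).trans ?_)
      rw [← h1]
      refine sum_le_sum fun x _ => ?_
      rw [norm_mul, AddChar.norm_apply, mul_one, Complex.norm_real, Real.norm_of_nonneg (h0 x)]
  have hsum : ∑ ψ, |l ψ| ^ (2 * n) ≤ C1 := by
    have h2 : (circulant μ ^ (2 * n)).trace = ∑ ψ, l ψ ^ (2 * n) := by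
      exact_mod_cast (hl.pow (2 * n)).trace
    simp only [(even_two_mul n).pow_abs]
    rw [← h2]
    refine (sum_le_card_nsmul univ _ _ fun a _ => hC a a).trans ?_
    rw [card_univ, ZMod.card, nsmul_eq_mul, mul_div_cancel₀ _ hq.ne']
  set Γ := univ.filter fun ψ => η ≤ |l ψ| with hΓ
  have hΓg : Γ.card ≤ g := by
    refine Nat.le_floor ((le_div_iff₀ (by positivity)).2 (le_trans ?_ hsum))
    rw [← nsmul_eq_mul]
    refine (card_nsmul_le_sum Γ (fun ψ => |l ψ| ^ (2 * n)) _ fun ψ hψ => ?_).trans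
      (sum_le_sum_of_subset_of_nonneg (subset_univ _) fun _ _ _ => by positivity)
    exact pow_le_pow_left₀ hη.le (mem_filter.1 hψ).2 _
  obtain ⟨B1, hB1, c1, e1⟩ := FourAux.pigeon (univ.filter fun b : ZMod q => b.val < H) Γ
    (fun ψ b => (ψ b).re) (fun ψ b => (Complex.abs_re_le_norm _).trans (ψ.norm_apply b).le) hδ
  obtain ⟨B0, hB0, c0, e0⟩ := FourAux.pigeon B1 Γ
    (fun ψ b => (ψ b).im) (fun ψ b => (Complex.abs_im_le_norm _).trans (ψ.norm_apply b).le) hδ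
  have hcard : H ≤ (univ.filter fun b : ZMod q => b.val < H).card := by
    have hv : ∀ i ∈ range H, (i : ZMod q).val = i := fun i hi =>
      ZMod.val_cast_of_lt ((mem_range.1 hi).trans_le hHq)
    conv_lhs => rw [← card_range H]
    refine card_le_card_of_injOn (fun i : ℕ => (i : ZMod q)) (fun i hi => ?_) fun i hi j hj e => ?_
    · simp only [coe_filter, mem_univ, true_and, Set.mem_ofPred_eq]
      rw [hv i hi]
      exact mem_range.1 hi
    · rw [← hv i hi, ← hv j hj]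
      exact congrArg ZMod.val e
  have hpow : N ^ Γ.card ≤ N ^ g := pow_le_pow_right₀ hN1 hΓg
  have hlow : (H : ℝ) ≤ N ^ g * N ^ g * B0.card := by
    clear * - H N g q B0 Γ B1 hcard η hN c1 hpow c0 hη
    rw [← hN] at c1 c0
    calc (H : ℝ) ≤ N ^ Γ.card * B1.card := (Nat.cast_le.2 hcard).trans c1
      _ ≤ N ^ g * (N ^ g * B0.card) := by
        refine mul_le_mul hpow (c0.trans ?_) (by positivity) (by positivity)
        gcongr
      _ = _ := by ring
  obtain ⟨b₀, hb₀⟩ : B0.Nonempty := by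
    rw [nonempty_iff_ne_empty]
    rintro rfl
    have : (0 : ℝ) < H := Nat.cast_pos.2 hH
    simp at hlow
    omega
  refine ⟨B0, fun b hb => (mem_filter.1 (hB1 (hB0 hb))).2,
    (inv_mul_le_iff₀ (by positivity)).2 hlow, fun J hJ => ?_⟩
  obtain ⟨p1, p2⟩ := FourAux.eig_avg B0
  set p : AddChar (ZMod q) ℂ → ℂ := fun ψ => (B0.card : ℂ)⁻¹ * ∑ b ∈ B0, ψ b with hp
  have htr : ((circulant μ - (avg B0)ᵀ * circulant μ * avg B0) ^ J).trace =
      ∑ ψ, (l ψ * (1 - ‖p ψ‖ ^ 2)) ^ J := by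
    have h2 := ((hl.sub ((p2.mul hl).mul p1)).pow J).trace
    apply Complex.ofReal_injective
    rw [h2, Complex.ofReal_sum]
    refine sum_congr rfl fun ψ _ => ?_
    push_cast
    rw [← Complex.conj_mul' (p ψ)]
    congr 1
    simp only [hp]
    ring
  rw [htr]
  refine le_trans (sum_le_sum fun ψ _ => ?_) ((mul_sum _ _ _).symm.trans_le
    (mul_le_mul_of_nonneg_left hsum (sq_nonneg η)))
  have hp1 : ‖p ψ‖ ≤ 1 := by
    have h2 := FourAux.mean_near hb₀ ψ 0 (δ := 1) fun b _ => by simp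
    rwa [sub_zero] at h2
  have hp0 := norm_nonneg (p ψ)
  have ha := abs_nonneg (l ψ)
  have hb := hl1 ψ
  have hw : 0 ≤ 1 - ‖p ψ‖ ^ 2 := by linarith only [hp1, hp0, mul_nonneg_of_nonpos_of_nonpos (Mathlib.Tactic.Linarith.sub_nonpos_of_le hp1) (Mathlib.Tactic.Linarith.sub_nonpos_of_le hp0)]
  have t1 : |l ψ * (1 - ‖p ψ‖ ^ 2)| ≤ |l ψ| := by
    rw [abs_mul, abs_of_nonneg hw]
    linarith only [ha, sq_nonneg ‖p ψ‖, mul_nonneg_of_nonpos_of_nonpos (Mathlib.Tactic.Linarith.sub_nonpos_of_le (sq_nonneg ‖p ψ‖)) (Mathlib.Tactic.Linarith.sub_nonpos_of_le ha)]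
  have t2 : |l ψ * (1 - ‖p ψ‖ ^ 2)| ≤ η := by
    clear * - l ψ p η q Γ b₀ B0 hb₀ e1 hB0 e0 hw hp1 hb t1
    by_cases hψ : ψ ∈ Γ
    · have h2 : ‖p ψ - ψ b₀‖ ≤ η / 2 := FourAux.mean_near hb₀ ψ _ fun b hb => by
        have h3 := e1 ψ hψ b (hB0 hb) b₀ (hB0 hb₀)
        have h4 := e0 ψ hψ b hb b₀ hb₀
        refine (Complex.norm_le_abs_re_add_abs_im _).trans ?_
        rw [Complex.sub_re, Complex.sub_im]
        linarith only [h3, h4]
      have h3 := norm_sub_norm_le (ψ b₀) (p ψ)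
      rw [norm_sub_rev, ψ.norm_apply] at h3
      rw [abs_mul, abs_of_nonneg hw]
      linarith only [h2, h3, hp1, hb, hw, mul_nonneg_of_nonpos_of_nonpos (Mathlib.Tactic.Linarith.sub_nonpos_of_le hp1) (Mathlib.Tactic.Linarith.sub_nonpos_of_le hp1), mul_nonneg_of_nonpos_of_nonpos (Mathlib.Tactic.Linarith.sub_nonpos_of_le hb) (Mathlib.Tactic.Linarith.sub_nonpos_of_le hw)]
    · exact t1.trans (not_le.1 fun h => hψ (mem_filter.2 ⟨mem_univ _, h⟩)).le
  calc (l ψ * (1 - ‖p ψ‖ ^ 2)) ^ J ≤ |l ψ * (1 - ‖p ψ‖ ^ 2)| ^ J := by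
        rw [← abs_pow]
        exact le_abs_self _
    _ ≤ |l ψ * (1 - ‖p ψ‖ ^ 2)| ^ (2 + 2 * n) :=
        pow_le_pow_of_le_one (abs_nonneg _) (t1.trans hb) (by omega)
    _ ≤ η ^ 2 * |l ψ| ^ (2 * n) := by
        clear * - l ψ p n η t2 t1 hη
        rw [pow_add]
        gcongr

end

end Pool.Agent.Work.MP_89ab3c_nt
end

-- merged part: Pool.Agent.Work.MP_89ab3c_nt.Kern
section
/-!
# The kernels attached to a set `T ⊆ [1, M]` on `ZMod (2 M)`
-/

set_option autoImplicit false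

namespace Pool.Agent.Work.MP_89ab3c_nt

open Finset Matrix Pool.Agent.Lib.ANT

noncomputable section

section Sub

variable {X : Type} [Fintype X]

/-- nonnegative entries, row sums at most `r` -/
def Sub (A : Matrix X X ℝ) (r : ℝ) : Prop := (∀ a b, 0 ≤ A a b) ∧ ∀ a, ∑ b, A a b ≤ r

lemma Sub.mass {A N : Matrix X X ℝ} {r c : ℝ} (hA : Sub A r) (hc : 0 ≤ c) (Y : Finset X)
    (hN : ∀ u, ∑ b ∈ Y, N u b ≤ c) (a : X) : ∑ b ∈ Y, (A * N) a b ≤ r * c := by
  simp only [mul_apply]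
  rw [sum_comm]
  calc _ ≤ ∑ u, A a u * c := sum_le_sum fun u _ => by
        rw [← mul_sum]; exact mul_le_mul_of_nonneg_left (hN u) (hA.1 a u)
    _ ≤ _ := by rw [← sum_mul]; exact mul_le_mul_of_nonneg_right (hA.2 a) hc

lemma Sub.entry {A N : Matrix X X ℝ} {r c : ℝ} (hA : Sub A r) (hc : 0 ≤ c)
    (hN : ∀ u b, N u b ≤ c) (a b : X) : (A * N) a b ≤ r * c := by
  simpa using hA.mass hc {b} (N := N) (by simpa using fun u => hN u b) a

lemma Sub.mul {A B : Matrix X X ℝ} {r r' : ℝ} (hA : Sub A r) (hB : Sub B r') (h : 0 ≤ r') :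
    Sub (A * B) (r * r') :=
  ⟨fun a b => by rw [mul_apply]; exact sum_nonneg fun u _ => mul_nonneg (hA.1 _ _) (hB.1 _ _),
    fun a => hA.mass h univ hB.2 a⟩

variable [DecidableEq X]

lemma sub_one : Sub (1 : Matrix X X ℝ) 1 :=
  ⟨fun a b => by rw [one_apply]; split_ifs <;> norm_num, fun a => by simp [one_apply]⟩

lemma Sub.pow {A : Matrix X X ℝ} {r : ℝ} (hA : Sub A r) (h : 0 ≤ r) (n : ℕ) :
    Sub (A ^ n) (r ^ n) := by
  induction n with
  | zero => simpa using sub_one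
  | succ n ih => rw [pow_succ, pow_succ]; exact ih.mul hA h

omit [DecidableEq X] in
lemma Sub.add {A B : Matrix X X ℝ} {r r' : ℝ} (hA : Sub A r) (hB : Sub B r') :
    Sub (A + B) (r + r') :=
  ⟨fun a b => add_nonneg (hA.1 a b) (hB.1 a b), fun a => by
    simp only [Matrix.add_apply, sum_add_distrib]; exact add_le_add (hA.2 a) (hB.2 a)⟩

lemma half_pow_le {A B : Matrix X X ℝ} {c : ℝ} {s : ℕ} (hA : Sub A 1) (hB : Sub B 1)
    (hAB : Commute A B) (hc : 0 ≤ c) (h1 : ∀ a b, (A ^ s) a b ≤ c) (h2 : ∀ a b, (B ^ s) a b ≤ c)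
    (a b : X) : (((1 / 2 : ℝ) • (A + B)) ^ (2 * s)) a b ≤ c := by
  have key : ∀ n i j : ℕ, i + j + n = 2 * s →
      (A ^ i * B ^ j * ((1 / 2 : ℝ) • (A + B)) ^ n) a b ≤ c := by
    intro n
    induction n with
    | zero =>
      intro i j h
      rw [pow_zero, mul_one]
      rcases le_total s i with hi | hi
      · obtain ⟨i', rfl⟩ := Nat.exists_eq_add_of_le' hi
        rw [pow_add, mul_assoc, (hAB.pow_pow s j).eq, ← mul_assoc]
        simpa using ((hA.pow zero_le_one i').mul (hB.pow zero_le_one j) (by simp)).entry hc h1 a b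
      · obtain ⟨j', rfl⟩ := Nat.exists_eq_add_of_le' (show s ≤ j by omega)
        rw [pow_add, ← mul_assoc]
        simpa using ((hA.pow zero_le_one i).mul (hB.pow zero_le_one j') (by simp)).entry hc h2 a b
    | succ n ih =>
      intro i j h
      have e : A ^ i * B ^ j * ((1 / 2 : ℝ) • (A + B)) ^ (n + 1)
          = (1 / 2 : ℝ) • (A ^ (i + 1) * B ^ j * ((1 / 2 : ℝ) • (A + B)) ^ n
            + A ^ i * B ^ (j + 1) * ((1 / 2 : ℝ) • (A + B)) ^ n) := by
        rw [pow_succ' _ n, ← mul_assoc, mul_smul_comm, smul_mul_assoc, mul_add, add_mul, pow_succ A,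
          pow_succ B, mul_assoc (A ^ i) (B ^ j) A, ← (hAB.pow_right j).eq]
        simp only [mul_assoc]
      rw [e, Matrix.smul_apply, Matrix.add_apply, smul_eq_mul]
      linarith only [ih, h, ih (i + 1) j (by omega), ih i (j + 1) (by omega)]
  simpa using key (2 * s) 0 0 (by omega)

end Sub

lemma sum_pi_succ {β : Type*} [AddCommMonoid β] (T : Finset ℕ) (n : ℕ)
    (Φ : (Fin (n + 1) → ℕ) → β) :
    ∑ x ∈ Fintype.piFinset fun _ : Fin (n + 1) => T, Φ x
      = ∑ t ∈ T, ∑ x ∈ Fintype.piFinset fun _ : Fin n => T, Φ (Fin.cons t x) := by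
  rw [← sum_product']
  symm
  refine sum_nbij' (fun p => Fin.cons p.1 p.2) (fun x => (x 0, Fin.tail x)) ?_ ?_ ?_ ?_ ?_
  · intro p hp
    simp only [mem_product, Fintype.mem_piFinset] at hp ⊢
    intro i
    refine Fin.cases ?_ (fun j => ?_) i
    · simpa using hp.1
    · simpa using hp.2 j
  · intro x hx
    simp only [mem_product, Fintype.mem_piFinset] at hx ⊢
    exact ⟨hx 0, fun j => hx j.succ⟩
  · intro p _; simp
  · intro x _; simp
  · intro p _; rfl

/-- the restriction hypothesis -/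
def Rst (s M : ℕ) (C : ℝ) (T : Finset ℕ) : Prop :=
  ∀ n : ℕ, (((Fintype.piFinset fun _ : Fin s => T).filter fun x => ∑ i, x i = n).card : ℝ) * M
    ≤ C * (T.card : ℝ) ^ s

lemma card_class_le {s M : ℕ} {C : ℝ} {T : Finset ℕ} (hs : 1 ≤ s) (hM : 1 ≤ M) (hC : 0 ≤ C)
    (hT : T ⊆ Icc 1 M) (h : Rst s M C T) {D : ℕ} (hD : 0 < D) (r : ℕ) :
    (((Fintype.piFinset fun _ : Fin s => T).filter fun x => ∑ i, x i ≡ r [MOD D]).card : ℝ)
      ≤ (s * M / D + 1) * (C * (T.card : ℝ) ^ s / M) := by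
  have hM0 : (0 : ℝ) < M := by exact_mod_cast hM
  set S := (Ioc 0 (0 + s * M)).filter fun n => n ≡ r [MOD D] with hS
  have h1 : (S.card : ℝ) ≤ s * M / D + 1 := by
    have := abs_card_modEq_sub_le 0 (s * M) D r hD
    rw [abs_le] at this
    push_cast at this
    linarith only [this, this.2]
  rw [card_eq_sum_card_fiberwise (f := fun x => ∑ i, x i) (t := S)]
  · push_cast
    calc _ ≤ ∑ n ∈ S, C * (T.card : ℝ) ^ s / M := sum_le_sum fun n _ => by
          rw [le_div_iff₀ hM0]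
          refine le_trans (mul_le_mul_of_nonneg_right ?_ hM0.le) (h n)
          exact_mod_cast card_le_card (monotone_filter_left _ (filter_subset _ _))
      _ ≤ _ := by
          rw [sum_const, nsmul_eq_mul]
          exact mul_le_mul_of_nonneg_right h1 (by positivity)
  · intro x hx
    simp only [coe_filter, Fintype.mem_piFinset, Set.mem_ofPred_eq, hS, mem_Ioc] at hx ⊢
    refine ⟨⟨?_, ?_⟩, hx.2⟩
    · have := single_le_sum (f := x) (fun i _ => Nat.zero_le _) (mem_univ (⟨0, hs⟩ : Fin s))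
      have := (mem_Icc.1 (hT (hx.1 ⟨0, hs⟩))).1
      omega
    · have := sum_le_card_nsmul univ x M fun i _ => (mem_Icc.1 (hT (hx.1 i))).2
      simpa using this

lemma card_dvd_le {s M : ℕ} {C : ℝ} {T : Finset ℕ} (hs : 1 ≤ s) (hM : 1 ≤ M) (hC : 1 ≤ C)
    (hT : T ⊆ Icc 1 M) (h : Rst s M C T) {D : ℕ} (hD : 1 ≤ D) (hDM : D ≤ 2 * M) (c : ℤ) :
    ((T.filter fun t : ℕ => (D : ℤ) ∣ c + t).card : ℝ)
      ≤ (s + 2) * C * (D : ℝ) ^ (-(1 / (s : ℝ))) * T.card := by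
  have hM0 : (0 : ℝ) < M := by exact_mod_cast hM
  have hD0 : (0 : ℝ) < D := by exact_mod_cast hD
  have hs0 : (0 : ℝ) < s := by exact_mod_cast hs
  rcases (T.filter fun t : ℕ => (D : ℤ) ∣ c + t).eq_empty_or_nonempty with h0 | ⟨t₀, ht₀⟩
  · rw [h0, card_empty, Nat.cast_zero]; positivity
  refine le_of_pow_le_pow_left₀ (n := s) (by omega) (by positivity) ?_
  have h1 : ((T.filter fun t : ℕ => (D : ℤ) ∣ c + t).card : ℝ) ^ s ≤
      (((Fintype.piFinset fun _ : Fin s => T).filter fun x => ∑ i, x i ≡ s * t₀ [MOD D]).card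
        : ℝ) := by
    have e : (T.filter fun t : ℕ => (D : ℤ) ∣ c + t).card ^ s = (Fintype.piFinset fun _ : Fin s =>
        T.filter fun t : ℕ => (D : ℤ) ∣ c + t).card := by simp
    rw [← Nat.cast_pow, e]
    refine Nat.cast_le.2 (card_le_card fun x hx => ?_)
    simp only [Fintype.mem_piFinset, mem_filter] at hx ⊢
    refine ⟨fun i => (hx i).1, ?_⟩
    rw [Nat.modEq_iff_dvd]
    have e2 : ((s * t₀ : ℕ) : ℤ) - ((∑ i, x i : ℕ) : ℤ) = ∑ i, ((c + t₀) - (c + x i)) := by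
      push_cast
      simp only [add_sub_add_left_eq_sub, sum_sub_distrib, sum_const, card_univ, Fintype.card_fin,
        nsmul_eq_mul]
    rw [e2]
    exact dvd_sum fun i _ => dvd_sub (mem_filter.1 ht₀).2 (hx i).2
  refine h1.trans ((card_class_le hs hM (by linarith only [hC]) hT h hD _).trans ?_)
  rw [mul_pow, mul_pow, ← Real.rpow_natCast (_ ^ (-(1 / (s : ℝ)))), ← Real.rpow_mul hD0.le,
    show -(1 / (s : ℝ)) * s = -1 by field_simp, Real.rpow_neg_one]
  have h2 : ((s : ℝ) + 2) * C ≤ ((s + 2) * C) ^ s := le_self_pow₀ (by linarith only [hC, hs0, mul_nonneg_of_nonpos_of_nonpos (Mathlib.Tactic.Linarith.sub_nonpos_of_le (Mathlib.Tactic.Linarith.natCast_nonneg ℝ s)) (Mathlib.Tactic.Linarith.sub_nonpos_of_le hC)]) (by omega)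
  have h3 : ((s : ℝ) * M / D + 1) / M ≤ (s + 2) * (D : ℝ)⁻¹ := by
    have : (D : ℝ) ≤ 2 * M := by exact_mod_cast hDM
    rw [div_le_iff₀ hM0]
    field_simp
    linarith only [this]
  calc _ = ((s : ℝ) * M / D + 1) / M * C * (T.card : ℝ) ^ s := by ring
    _ ≤ (s + 2) * (D : ℝ)⁻¹ * C * (T.card : ℝ) ^ s := by gcongr
    _ = (s + 2) * C * (D : ℝ)⁻¹ * (T.card : ℝ) ^ s := by ring
    _ ≤ _ := by gcongr

variable {q : ℕ}

/-- uniform measure on `T` modulo `q` -/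
def fw (T : Finset ℕ) (x : ZMod q) : ℝ := (T.card : ℝ)⁻¹ * ∑ t ∈ T, if (t : ZMod q) = x then 1 else 0

/-- its symmetrisation -/
def mu (T : Finset ℕ) (x : ZMod q) : ℝ := 1 / 2 * (fw T x + fw T (-x))

lemma fw_nonneg (T : Finset ℕ) (x : ZMod q) : 0 ≤ fw T x :=
  mul_nonneg (by positivity) (sum_nonneg fun t _ => by split_ifs <;> norm_num)

lemma mu_nonneg (T : Finset ℕ) (x : ZMod q) : 0 ≤ mu T x :=
  mul_nonneg (by norm_num) (add_nonneg (fw_nonneg _ _) (fw_nonneg _ _))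

lemma mu_neg (T : Finset ℕ) (x : ZMod q) : mu T (-x) = mu T x := by
  simp [mu, add_comm]

lemma circ_mu (T : Finset ℕ) : circulant (mu T : ZMod q → ℝ)
    = (1 / 2 : ℝ) • (circulant (fw T) + (circulant (fw T))ᵀ) := by
  ext a b
  simp [circulant_apply, mu]

variable [NeZero q]

lemma sum_fw_mul (T : Finset ℕ) (Φ : ZMod q → ℝ) :
    ∑ x, fw T x * Φ x = (T.card : ℝ)⁻¹ * ∑ t ∈ T, Φ t := by
  simp only [fw, mul_assoc, ← mul_sum, sum_mul]
  rw [sum_comm]
  simp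

lemma sum_fw {T : Finset ℕ} (hT : T.Nonempty) : ∑ x : ZMod q, fw T x = 1 := by
  have := sum_fw_mul (q := q) T fun _ => 1
  have h0 : (T.card : ℝ) ≠ 0 := by exact_mod_cast hT.card_pos.ne'
  simpa [h0] using this

lemma sum_mu {T : Finset ℕ} (hT : T.Nonempty) : ∑ x : ZMod q, mu T x = 1 := by
  simp only [mu, ← mul_sum, sum_add_distrib]
  have := (Equiv.sum_comp (Equiv.neg (ZMod q)) (fw T)).trans (sum_fw hT)
  simp only [Equiv.neg_apply] at this
  rw [sum_fw hT, this]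
  norm_num

lemma sub_circ {v : ZMod q → ℝ} (h0 : ∀ x, 0 ≤ v x) (h1 : ∑ x, v x ≤ 1) :
    Sub (circulant v) 1 ∧ Sub (circulant v)ᵀ 1 :=
  ⟨⟨fun _ _ => h0 _, fun a => ((Equiv.subLeft a).sum_comp v).le.trans h1⟩,
    ⟨fun _ _ => h0 _, fun a => ((Equiv.subRight a).sum_comp v).le.trans h1⟩⟩

lemma fw_pow (T : Finset ℕ) (n : ℕ) (a b : ZMod q) :
    (circulant (fw T) ^ n) a b = (T.card : ℝ)⁻¹ ^ n *
      ∑ x ∈ Fintype.piFinset fun _ : Fin n => T,
        if ((∑ i, x i : ℕ) : ZMod q) = a - b then 1 else 0 := by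
  induction n generalizing a b with
  | zero => simp [one_apply, eq_comm, sub_eq_zero]
  | succ n ih =>
    rw [pow_succ', mul_apply, sum_pi_succ]
    simp only [ih, circulant_apply]
    rw [← (Equiv.subLeft a).sum_comp]
    simp only [Equiv.subLeft_apply, sub_sub_cancel]
    rw [sum_fw_mul, ← mul_sum, ← mul_assoc, ← pow_succ']
    refine congrArg _ (sum_congr rfl fun t _ => sum_congr rfl fun x _ => ?_)
    simp only [Fin.sum_univ_succ, Fin.cons_zero, Fin.cons_succ, Nat.cast_add]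
    refine if_congr ?_ rfl rfl
    constructor <;> intro h <;> linear_combination h

lemma mu_pow_le {s M : ℕ} {C : ℝ} {T : Finset ℕ} (hq : q = 2 * M) (hs : 1 ≤ s) (hC : 0 ≤ C)
    (hT : T ⊆ Icc 1 M) (hne : T.Nonempty) (h : Rst s M C T) (a b : ZMod q) :
    (circulant (mu T) ^ (2 * s)) a b ≤ 2 * (s + 1) * C / q := by
  have hq0 := NeZero.pos q
  have hM : 1 ≤ M := by omega
  have hM0 : (0 : ℝ) < M := by exact_mod_cast hM
  have hd : (0 : ℝ) < T.card := by exact_mod_cast hne.card_pos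
  have hF := sub_circ (q := q) (fw_nonneg T) (sum_fw hne).le
  have key : ∀ a b : ZMod q, (circulant (fw T) ^ s) a b ≤ 2 * (s + 1) * C / q := by
    intro a b
    rw [fw_pow, sum_boole]
    have h1 := card_class_le hs hM hC hT h hq0 (a - b).val
    have e : ((Fintype.piFinset fun _ : Fin s => T).filter fun x =>
        ((∑ i, x i : ℕ) : ZMod q) = a - b) = (Fintype.piFinset fun _ : Fin s => T).filter
          fun x => ∑ i, x i ≡ (a - b).val [MOD q] := by
      refine filter_congr fun x _ => ?_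
      rw [← ZMod.natCast_eq_natCast_iff, ZMod.natCast_zmod_val]
    rw [e]
    refine (mul_le_mul_of_nonneg_left h1 (by positivity)).trans ?_
    have e2 : (q : ℝ) = 2 * M := by exact_mod_cast hq
    rw [e2, inv_pow]
    have : (0 : ℝ) ≤ s := by positivity
    field_simp
    linarith only [hC, mul_nonneg_of_nonpos_of_nonpos (Mathlib.Tactic.Linarith.sub_nonpos_of_le (Mathlib.Tactic.Linarith.natCast_nonneg ℝ s)) (Mathlib.Tactic.Linarith.sub_nonpos_of_le hC)]
  rw [circ_mu]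
  refine half_pow_le hF.1 hF.2 ?_ (by positivity) key (fun a b => ?_) a b
  · rw [transpose_circulant]; exact circulant_mul_comm _ _
  · rw [← transpose_pow, transpose_apply]; exact key b a

omit [NeZero q] in
lemma mu_le {M : ℕ} {T : Finset ℕ} (hq : q = 2 * M) (hT : T ⊆ Icc 1 M) (x : ZMod q) :
    mu T x ≤ (T.card : ℝ)⁻¹ := by
  have key : ∀ x : ZMod q, fw T x ≤ (T.card : ℝ)⁻¹ := by
    intro x
    refine mul_le_of_le_one_right (by positivity) ?_
    rw [sum_boole]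
    refine Nat.cast_le_one.2 (card_le_one.2 fun a ha b hb => ?_)
    rw [mem_filter] at ha hb
    have h1 := mem_Icc.1 (hT ha.1)
    have h2 := mem_Icc.1 (hT hb.1)
    have := (ZMod.natCast_eq_natCast_iff' a b q).1 (ha.2.trans hb.2.symm)
    rwa [Nat.mod_eq_of_lt (by omega), Nat.mod_eq_of_lt (by omega)] at this
  unfold mu
  linarith only [key, key x, key (-x)]

lemma mu_mass {s M : ℕ} {C : ℝ} {T : Finset ℕ} (hq : q = 2 * M) (hs : 1 ≤ s) (hC : 1 ≤ C)
    (hT : T ⊆ Icc 1 M) (hne : T.Nonempty) (h : Rst s M C T) {D : ℕ} (hD : 1 ≤ D) (hDq : D ≤ q)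
    (a u : ZMod q) :
    ∑ b ∈ univ.filter fun b : ZMod q => (D : ℤ) ∣ (a.val : ℤ) - b.val, circulant (mu T) u b
      ≤ 2 * (s + 2) * C * (D : ℝ) ^ (-(1 / (s : ℝ))) := by
  have hq0 := NeZero.pos q
  have hM : 1 ≤ M := by omega
  have hd : (0 : ℝ) < T.card := by exact_mod_cast hne.card_pos
  set β : ℝ := (s + 2) * C * (D : ℝ) ^ (-(1 / (s : ℝ))) with hβ
  have key : ∀ (g : ZMod q → ZMod q) (c₁ c₂ : ℤ), (∀ t ∈ T, (D : ℤ) ∣ (a.val : ℤ) - (g t).val →
      (D : ℤ) ∣ c₁ + t ∨ (D : ℤ) ∣ c₂ + t) →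
      ∑ x, fw T x * (if (D : ℤ) ∣ (a.val : ℤ) - (g x).val then 1 else 0) ≤ 2 * β := by
    intro g c₁ c₂ hg
    rw [sum_fw_mul, sum_boole, inv_mul_le_iff₀ hd]
    have h1 := card_dvd_le hs hM hC hT h hD (hq ▸ hDq) c₁
    have h2 := card_dvd_le hs hM hC hT h hD (hq ▸ hDq) c₂
    have h3 : (T.filter fun t : ℕ => (D : ℤ) ∣ (a.val : ℤ) - (g t).val).card ≤
        (T.filter fun t : ℕ => (D : ℤ) ∣ c₁ + t).card
          + (T.filter fun t : ℕ => (D : ℤ) ∣ c₂ + t).card := by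
      refine le_trans (card_le_card fun t ht => ?_) (card_union_le _ _)
      rw [mem_filter] at ht
      rcases hg t ht.1 ht.2 with h | h <;> simp [ht.1, h]
    have h4 : ((T.filter fun t : ℕ => (D : ℤ) ∣ (a.val : ℤ) - (g t).val).card : ℝ) ≤ _ :=
      Nat.cast_le.2 h3
    push_cast at h4
    linarith only [h1, h2, h4]
  have val_add : ∀ (x : ZMod q) (t : ℕ), t ≤ M →
      ((x + t).val : ℤ) = x.val + t ∨ ((x + t).val : ℤ) = x.val + t - q := by
    intro x t ht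
    have hx := ZMod.val_lt x
    rw [ZMod.val_add, ZMod.val_cast_of_lt (show t < q by omega)]
    rcases lt_or_ge (x.val + t) q with h | h
    · left; rw [Nat.mod_eq_of_lt h]; push_cast; rfl
    · right; rw [Nat.mod_eq_sub_mod h, Nat.mod_eq_of_lt (by omega)]; omega
  have k1 := key (fun x => u - x) (a.val - u.val) (a.val - u.val - q) fun t ht hdv => by
    have h1 := val_add (u - t) t (mem_Icc.1 (hT ht)).2
    rw [sub_add_cancel] at h1
    rcases h1 with h1 | h1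
    · left; convert hdv using 1; omega
    · right; convert hdv using 1; omega
  have k2 := key (fun x => u + x) (u.val - a.val) (u.val - a.val - q) fun t ht hdv => by
    rcases val_add u t (mem_Icc.1 (hT ht)).2 with h1 | h1 <;> rw [h1] at hdv
    · left; exact (dvd_neg.2 hdv).trans (dvd_of_eq (by ring))
    · right; exact (dvd_neg.2 hdv).trans (dvd_of_eq (by ring))
  rw [← (Equiv.subLeft u).sum_comp] at k1
  rw [← (Equiv.subRight u).sum_comp] at k2
  simp only [Equiv.subLeft_apply, Equiv.subRight_apply, sub_sub_cancel, add_sub_cancel] at k1 k2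
  rw [sum_filter]
  calc _ = 1 / 2 * (∑ b, fw T (u - b) * (if (D : ℤ) ∣ (a.val : ℤ) - b.val then 1 else 0)
        + ∑ b, fw T (b - u) * (if (D : ℤ) ∣ (a.val : ℤ) - b.val then 1 else 0)) := by
        rw [← sum_add_distrib, mul_sum]
        refine sum_congr rfl fun b _ => ?_
        rw [circulant_apply, mu, neg_sub]
        split_ifs <;> ring
    _ ≤ _ := by linarith

end

end Pool.Agent.Work.MP_89ab3c_nt
end

-- merged part: Pool.Agent.Work.MP_89ab3c_nt.Point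
section
/-!
# The inequality for one window
-/

set_option autoImplicit false

namespace Pool.Agent.Work.MP_89ab3c_nt

open Finset Matrix

noncomputable section

/-- the supersaturation hypothesis -/
def Sat (M : ℕ) (δ c : ℝ) (T : Finset ℕ) : Prop :=
  ∀ E : Finset ℕ, E ⊆ range M → δ * M ≤ E.card →
    c * M * T.card ≤ (((E ×ˢ T).filter fun e => e.1 + e.2 ∈ E).card : ℝ)

variable {q : ℕ} [NeZero q]

lemma sum_zmod (F : ZMod q → ℝ) : ∑ x, F x = ∑ e ∈ range q, F e := by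
  refine sum_nbij' (fun x => x.val) (fun e => (e : ZMod q)) ?_ ?_ ?_ ?_ ?_
  · intro x _; simpa using ZMod.val_lt x
  · intro e _; simp
  · intro x _; simp
  · intro e he; exact ZMod.val_cast_of_lt (by simpa using he)
  · intro x _; simp

lemma avg_mulVec (B : Finset (ZMod q)) (f : ZMod q → ℝ) (x : ZMod q) :
    (avg B *ᵥ f) x = (B.card : ℝ)⁻¹ * ∑ b ∈ B, f (x + b) := by
  simp only [mulVec, dotProduct, avg, circulant_apply, neg_sub]
  rw [← Equiv.sum_comp (Equiv.addLeft x)]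
  simp [ite_mul, mul_sum]

lemma sub_avg (B : Finset (ZMod q)) : Sub (avg B) 1 ∧ Sub (avg B)ᵀ 1 := by
  refine sub_circ (fun x => by split_ifs <;> positivity) ?_
  rw [← Equiv.sum_comp (Equiv.neg (ZMod q))]
  simp only [Equiv.neg_apply, neg_neg, sum_ite_mem, univ_inter, sum_const, nsmul_eq_mul]
  exact mul_inv_le_one

omit [NeZero q] in
lemma avg_le (B : Finset (ZMod q)) (a b : ZMod q) : avg B a b ≤ (B.card : ℝ)⁻¹ := by
  simp only [avg, circulant_apply]
  split_ifs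
  · exact le_rfl
  · positivity

lemma sum_avg {B : Finset (ZMod q)} (hB : B.Nonempty) (f : ZMod q → ℝ) :
    ∑ x, (avg B *ᵥ f) x = ∑ x, f x := by
  have h0 : (B.card : ℝ) ≠ 0 := by exact_mod_cast hB.card_pos.ne'
  simp only [avg_mulVec, ← mul_sum]
  have e : ∀ b : ZMod q, ∑ x, f (x + b) = ∑ x, f x := fun b => Equiv.sum_comp (Equiv.addRight b) f
  rw [sum_comm, sum_congr rfl fun b _ => e b, sum_const, nsmul_eq_mul, inv_mul_cancel_left₀ h0]

lemma quad_mu (T : Finset ℕ) (g : ZMod q → ℝ) :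
    g ⬝ᵥ circulant (mu T) *ᵥ g = (T.card : ℝ)⁻¹ * ∑ x, ∑ t ∈ T, g x * g (x + t) := by
  have h1 : ∑ x, ∑ y, g x * (fw T (y - x) * g y) = (T.card : ℝ)⁻¹ * ∑ x, ∑ t ∈ T, g x * g (x + t) := by
    rw [mul_sum]
    refine sum_congr rfl fun x _ => ?_
    rw [← Equiv.sum_comp (Equiv.addLeft x), ← sum_fw_mul T fun u => g x * g (x + u)]
    refine sum_congr rfl fun y _ => ?_
    simp only [Equiv.coe_addLeft, add_sub_cancel_left]; ring
  have h2 : ∑ x, ∑ y, g x * (fw T (x - y) * g y) = ∑ x, ∑ y, g x * (fw T (y - x) * g y) := by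
    rw [sum_comm]
    exact sum_congr rfl fun x _ => sum_congr rfl fun y _ => by ring
  calc _ = 1 / 2 * (∑ x, ∑ y, g x * (fw T (x - y) * g y)
        + ∑ x, ∑ y, g x * (fw T (y - x) * g y)) := by
        simp only [mulVec, dotProduct, circulant_apply, mu, neg_sub, ← sum_add_distrib, mul_sum]
        exact sum_congr rfl fun x _ => sum_congr rfl fun y _ => by ring
    _ = _ := by rw [h2, h1]; ring

/-- the kernel with its structured part removed -/
def Kp (T : Finset ℕ) (B : Finset (ZMod q)) : Matrix (ZMod q) (ZMod q) ℝ :=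
  circulant (mu T) - (avg B)ᵀ * circulant (mu T) * avg B

lemma symm_conj (T : Finset ℕ) (B : Finset (ZMod q)) :
    ((avg B)ᵀ * circulant (mu T) * avg B).IsSymm := by
  have h : (circulant (mu T : ZMod q → ℝ)).IsSymm := circulant_isSymm_iff.2 (mu_neg T)
  unfold IsSymm at h ⊢
  rw [transpose_mul, transpose_mul, transpose_transpose, h, mul_assoc]

lemma symm_Kp (T : Finset ℕ) (B : Finset (ZMod q)) : (Kp T B).IsSymm :=
  (circulant_isSymm_iff.2 (mu_neg T)).sub (symm_conj T B)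

theorem point {M r : ℕ} (hq : q = 2 * M) (hr : 1 ≤ r) {T : Finset ℕ} (hT : T ⊆ Icc 1 M)
    (hne : T.Nonempty) {a k c : ℝ} (ha : 0 < a) (hk : 0 < k) (hc : 0 < c)
    (hS : Sat M (a ^ 2 / (4 * k ^ 2)) c T) {B : Finset (ZMod q)} (hB : B.Nonempty)
    (hBv : ∀ b ∈ B, b.val < M / 2) (ν : ZMod q → ℝ) (hν : ∀ x, 0 ≤ ν x) (φ : ZMod q → Prop)
    [DecidablePred φ] (h1 : ∀ x, φ x → M / 2 ≤ x.val ∧ x.val < M)
    (h2 : ∀ x y, φ x → φ y → ∀ t ∈ T, y.val ≠ x.val + t) :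
    ∑ x with φ x, ν x ≤ a * M + (∑ x, (avg B *ᵥ ν) x ^ 2) / k
      + k * M * ((Kp T B * diagonal ν) ^ 2 ^ r).trace / (a ^ 2 * c / (4 * k)) ^ 2 ^ r := by
  have hq0 := NeZero.pos q
  have hM0 : (0 : ℝ) < M := by exact_mod_cast (show 0 < M by omega)
  have hd : (0 : ℝ) < T.card := by exact_mod_cast hne.card_pos
  obtain ⟨ht0, ht⟩ := quad_pow_le_trace (Kp T B) (symm_Kp T B) ν (fun x => if φ x then 1 else 0) hν hr
  set τ := ((Kp T B * diagonal ν) ^ 2 ^ r).trace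
  set f : ZMod q → ℝ := fun x => ν x * if φ x then 1 else 0 with hf
  set Φ := ∑ x with φ x, ν x with hΦ
  set H := ∑ x, (avg B *ᵥ ν) x ^ 2 with hH
  set g := avg B *ᵥ f with hg
  have hΦ1 : ∑ x, f x = Φ := by simp [hf, hΦ, sum_filter]
  have hΦ2 : ∑ x, ν x * (if φ x then 1 else 0 : ℝ) ^ 2 = Φ := by simp [hΦ, sum_filter]
  have hf0 : ∀ x, 0 ≤ f x := fun x => mul_nonneg (hν x) (by split_ifs <;> norm_num)
  have hfν : ∀ x, f x ≤ ν x := fun x => mul_le_of_le_one_right (hν x) (by split_ifs <;> norm_num)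
  have hfφ : ∀ x, f x ≠ 0 → φ x := fun x h => by
    by_contra h'; exact h (by simp [hf, h'])
  have hg0 : ∀ x, 0 ≤ g x := fun x => by
    rw [hg, avg_mulVec]; exact mul_nonneg (by positivity) (sum_nonneg fun b _ => hf0 _)
  have hgH : ∑ e ∈ range M, g e ^ 2 ≤ H := by
    rw [hH, sum_zmod]
    refine le_trans (sum_le_sum fun e _ => pow_le_pow_left₀ (hg0 _) ?_ 2)
      (sum_le_sum_of_subset_of_nonneg (range_mono (by omega)) fun _ _ _ => sq_nonneg _)
    rw [hg, avg_mulVec, avg_mulVec]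
    exact mul_le_mul_of_nonneg_left (sum_le_sum fun b _ => hfν _) (by positivity)
  have hgs : ∑ e ∈ range M, g e = Φ := by
    rw [← hΦ1, ← sum_avg hB, sum_zmod]
    refine sum_subset (range_mono (by omega)) fun e he he' => ?_
    rw [mem_range] at he he'
    rw [hg, avg_mulVec, sum_eq_zero, mul_zero]
    intro b hb
    by_contra h
    have h3 := h1 _ (hfφ _ h)
    have h4 := hBv b hb
    rw [ZMod.val_add, ZMod.val_cast_of_lt he] at h3
    rcases lt_or_ge (e + b.val) q with h5 | h5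
    · rw [Nat.mod_eq_of_lt h5] at h3; omega
    · rw [Nat.mod_eq_sub_mod h5, Nat.mod_eq_of_lt (by omega)] at h3; omega
  have hH0 : 0 ≤ H := sum_nonneg fun _ _ => sq_nonneg _
  have hτ0 : 0 < (a ^ 2 * c / (4 * k)) ^ 2 ^ r := by positivity
  have p1 : 0 ≤ H / k := by clear * - H k q B ν hk; positivity
  have p2 : 0 ≤ k * M * τ / (a ^ 2 * c / (4 * k)) ^ 2 ^ r := by positivity
  rcases le_or_gt Φ (a * M) with hc1 | hc1
  · linarith only [p1, p2, hc1]
  have hΦ0 : 0 < Φ := lt_trans (by positivity) hc1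
  have cs : Φ ^ 2 ≤ M * H := by
    have := sq_sum_le_card_mul_sum_sq (s := range M) (f := fun e : ℕ => g e)
    rw [hgs, card_range] at this
    exact this.trans (mul_le_mul_of_nonneg_left hgH hM0.le)
  rcases le_or_gt (k ^ 2 * M) H with hc2 | hc2
  · have : Φ ≤ H / k := by
      rw [le_div_iff₀ hk]
      refine le_of_pow_le_pow_left₀ two_ne_zero hH0 ?_
      linarith only [cs, hc2, hH0, mul_le_mul_of_nonneg_right cs (sq_nonneg k), mul_le_mul_of_nonneg_right hc2 hH0, sq_nonneg k]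
    have : 0 ≤ a * M := by positivity
    linarith
  have hΦk : Φ ≤ k * M := by
    refine le_of_pow_le_pow_left₀ two_ne_zero (by positivity) ?_
    linarith only [cs, hc2, hM0, mul_le_mul_of_nonneg_left hc2.le hM0.le]
  set E := (range M).filter fun e : ℕ => a / 2 ≤ g e with hE
  have hE1 : a * M / 2 ≤ ∑ e ∈ E, g e := by
    have h3 := sum_filter_add_sum_filter_not (range M) (fun e : ℕ => a / 2 ≤ g e) fun e : ℕ => g e
    have h4 : ∑ e ∈ (range M).filter fun e : ℕ => ¬ a / 2 ≤ g e, g e ≤ M * (a / 2) := by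
      refine (sum_le_card_nsmul _ _ (a / 2) fun e he => (not_le.1 (mem_filter.1 he).2).le).trans ?_
      rw [nsmul_eq_mul]
      refine mul_le_mul_of_nonneg_right ?_ (by positivity)
      exact_mod_cast (card_filter_le _ _).trans_eq (card_range M)
    linarith only [hgs, hc1, h3, h4]
  have hE2 : a ^ 2 / (4 * k ^ 2) * M ≤ E.card := by
    clear * - E g q k M a H hgH hc2 ha hM0 hE1 hk f
    have h3 := sq_sum_le_card_mul_sum_sq (s := E) (f := fun e : ℕ => g e)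
    have h4 : ∑ e ∈ E, g e ^ 2 ≤ k ^ 2 * M :=
      (sum_le_sum_of_subset_of_nonneg (filter_subset _ _) fun _ _ _ => sq_nonneg _).trans
        (hgH.trans hc2.le)
    have h5 : (a * M / 2) ^ 2 ≤ E.card * (k ^ 2 * M) :=
      (pow_le_pow_left₀ (by positivity) hE1 2).trans (h3.trans
        (mul_le_mul_of_nonneg_left h4 (by positivity)))
    rw [div_mul_eq_mul_div, div_le_iff₀ (by positivity)]
    refine le_of_mul_le_mul_right ?_ hM0
    linarith only [h5]
  have hQg : a ^ 2 * c / 4 * M ≤ g ⬝ᵥ circulant (mu T) *ᵥ g := by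
    clear * - a c M q g T hd E hS hE2 ha hE hg0 r hq B ν φ
    rw [quad_mu, le_inv_mul_iff₀ hd, sum_zmod, ← sum_product']
    have h3 := hS E (filter_subset _ _) hE2
    calc _ = (a / 2) ^ 2 * (c * M * T.card) := by ring
      _ ≤ ∑ e ∈ (E ×ˢ T).filter fun e => e.1 + e.2 ∈ E, (a / 2) ^ 2 := by
          rw [sum_const, nsmul_eq_mul, mul_comm]; gcongr
      _ ≤ ∑ e ∈ (E ×ˢ T).filter fun e => e.1 + e.2 ∈ E, g e.1 * g ((e.1 : ZMod q) + e.2) := by
          refine sum_le_sum fun e he => ?_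
          simp only [hE, mem_filter, mem_product, Nat.cast_add] at he
          rw [sq]
          exact mul_le_mul he.1.1.2 he.2.2 (by positivity) (hg0 _)
      _ ≤ _ := by
          refine sum_le_sum_of_subset_of_nonneg (fun e he => ?_)
            fun _ _ _ => mul_nonneg (hg0 _) (hg0 _)
          simp only [hE, mem_filter, mem_product, mem_range] at he ⊢
          exact ⟨by omega, he.1.2⟩
  have hQf : f ⬝ᵥ circulant (mu T) *ᵥ f = 0 := by
    rw [quad_mu, sum_eq_zero, mul_zero]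
    intro x _
    refine sum_eq_zero fun t ht => ?_
    by_contra h
    rw [mul_eq_zero, not_or] at h
    have h3 := h1 _ (hfφ _ h.1)
    have h4 := mem_Icc.1 (hT ht)
    refine h2 _ _ (hfφ _ h.1) (hfφ _ h.2) t ht ?_
    rw [ZMod.val_add, ZMod.val_cast_of_lt (show t < q by omega), Nat.mod_eq_of_lt (by omega)]
  have hQ : ∑ x, ∑ y, ν x * (if φ x then 1 else 0) * Kp T B x y * (ν y * if φ y then 1 else 0)
      = -(g ⬝ᵥ circulant (mu T) *ᵥ g) := by
    calc _ = f ⬝ᵥ Kp T B *ᵥ f := by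
          simp only [mulVec, dotProduct, mul_sum, hf, mul_assoc]
      _ = _ := by
          rw [Kp, sub_mulVec, dotProduct_sub, hQf, zero_sub, ← mulVec_mulVec, ← mulVec_mulVec,
            dotProduct_mulVec f, vecMul_transpose]
  rw [hQ, hΦ2, abs_neg] at ht
  have h6 : (a ^ 2 * c / (4 * k)) ^ 2 ^ r ≤ τ := by
    clear * - a c M r k τ q g T ha hc hM0 hQg Φ ht hΦ0 hΦk ht0 hk
    have h7 : (a ^ 2 * c / 4 * M) ^ 2 ^ r ≤ (k * M) ^ 2 ^ r * τ :=
      (pow_le_pow_left₀ (by positivity) (hQg.trans (le_abs_self _)) _).trans (ht.trans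
        (mul_le_mul_of_nonneg_right (pow_le_pow_left₀ hΦ0.le hΦk _) ht0))
    refine le_of_mul_le_mul_left (le_trans (le_of_eq ?_) h7) (a := (k * M) ^ 2 ^ r) (by positivity)
    rw [← mul_pow]; congr 1; field_simp
  have h8 : k * M ≤ k * M * τ / (a ^ 2 * c / (4 * k)) ^ 2 ^ r := by
    rw [le_div_iff₀ hτ0]; gcongr
  have : 0 ≤ a * M := by positivity
  linarith only [p1, hΦk, h8, this]

end

end Pool.Agent.Work.MP_89ab3c_nt
end
end

-- merged part: Pool.Agent.Work.MP_89ab3c_nt.Trans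
section
-- merged part: Pool.Agent.Work.MP_89ab3c_nt.Walk
section
/-!
# Closed walks: the trace method with correlated vertex weights

`WL X n` = lists of length `n`; `Pth K u l v` = weight of the path `u, l, v`; `Op K u l` = weight of
the open path `u, l`; `cyc K l` = weight of the closed walk `l`; `dfc l` = length minus number of values.

Plan.  Basic lemmas (induction on lists): `sum_WL_succ`, `sum_WL_add` (sum over `l1 ++ l2`),
`Pth K u (l1 ++ w :: l2) v = Pth K u l1 w * Pth K w l2 v`, `cyc (a ++ b) = cyc (b ++ a)`,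
`∑ l ∈ WL n, Pth K u l v = (K ^ (n+1)) u v`, `|Pth K' ..| ≤ Pth K ..`, `Pth K u l v ≤ Op K u l * a'`,
`∑ blk ∈ WL k, Pth K u (l ++ blk) v ≤ Op K u l * c` if `K ^ (k+1) ≤ c` entrywise,
`dfc l + l.toFinset.card = l.length` (so `dfc` is invariant under permutations, `dfc l = 0 ↔ Nodup`),
open walks: with `τ = 1 / a'`, `∑ y, ∑ l ∈ WL n, Op K y l * τ ^ dfc (y :: l) ≤ card X * (2 + J) ^ n`
for `n ≤ J` (new head `y`: column sum `≤ 2`; `y` in the tail: at most `n` values, each `≤ a' * τ = 1`),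
`∑ l ∈ WL n with a ∈ l, Φ l ≤ ∑ i ∈ range n, ∑ l1 ∈ WL i, ∑ l2 ∈ WL (n-1-i), Φ (l1 ++ a :: l2)` (`Φ ≥ 0`).
`trace_bound`: write `cor = 1 + (cor - 1)`.  Pair terms: for `a ≠ b` the walks through `a` and `b` weigh
at most `J * ∑ i < J-1, (K^(i+1)) a b * (K^(J-1-i)) b a` (rotate `a` to the head); one exponent is
`≥ k`.  Terms with `dfc ≥ K0`: `Λ^dfc ≤ (a' Λ)^K0 τ^dfc`, close with one edge `≤ a'`.  Terms with
`1 ≤ dfc < K0`: the number of entries of `l` whose value has count `≥ 2` is `≤ 2 dfc l < 2 K0`, so for some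
`i < 2 K0` the block `(l.drop (i k)).take k` consists of values of count `1`, whence
`dfc l = dfc (l.drop (i k + k) ++ l.take (i k))`; bound by the sum over `i` of the nonnegative terms
`cyc K l * (a' Λ) * τ ^ dfc (l.drop (i k + k) ++ l.take (i k))`, rotate, sum the block freely.
-/

set_option autoImplicit false

namespace Pool.Agent.Work.MP_89ab3c_nt

open Finset

noncomputable section

/-- lists of length `n` -/
def WL (X : Type) [Fintype X] [DecidableEq X] : ℕ → Finset (List X)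
  | 0 => {[]}
  | n + 1 => (univ ×ˢ WL X n).image fun p => p.1 :: p.2

/-- length minus number of distinct values -/
def dfc {X : Type} [DecidableEq X] : List X → ℕ
  | [] => 0
  | a :: l => dfc l + if a ∈ l then 1 else 0

variable {X : Type}

/-- weight of the path `u, l, v` -/
def Pth (K : Matrix X X ℝ) : X → List X → X → ℝ
  | u, [], v => K u v
  | u, a :: l, v => K u a * Pth K a l v

/-- weight of the open path `u, l` -/
def Op (K : Matrix X X ℝ) : X → List X → ℝ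
  | _, [] => 1
  | u, a :: l => K u a * Op K a l

/-- weight of the closed walk `l` -/
def cyc (K : Matrix X X ℝ) : List X → ℝ
  | [] => 1
  | a :: l => Pth K a l a

variable [Fintype X] [DecidableEq X]

theorem mem_WL {n : ℕ} {l : List X} : l ∈ WL X n ↔ l.length = n := by
  induction n generalizing l with
  | zero => simp [WL]
  | succ n ih =>
    rw [WL, mem_image]
    constructor
    · rintro ⟨p, hp, rfl⟩
      rw [List.length_cons, ih.1 (mem_product.1 hp).2]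
    · intro h
      cases l with
      | nil => simp at h
      | cons a l => exact ⟨(a, l), mem_product.2 ⟨mem_univ _, ih.2 (by simpa using h)⟩, rfl⟩

theorem dfc_add_card (l : List X) : dfc l + l.toFinset.card = l.length := by
  induction l with
  | nil => simp [dfc]
  | cons a l ih =>
    rw [dfc, List.toFinset_cons, List.length_cons]
    by_cases h : a ∈ l
    · rw [if_pos h, insert_eq_of_mem (List.mem_toFinset.2 h)]; omega
    · rw [if_neg h, card_insert_of_notMem (fun h' => h (List.mem_toFinset.1 h'))]; omega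

namespace WalkAux

lemma sum_WL_succ (n : ℕ) (f : List X → ℝ) :
    ∑ l ∈ WL X (n + 1), f l = ∑ a, ∑ l ∈ WL X n, f (a :: l) := by
  rw [WL, sum_image, sum_product]
  rintro ⟨a, l⟩ _ ⟨b, m⟩ _ h
  simpa using h

lemma sum_WL_add (m n : ℕ) (f : List X → ℝ) :
    ∑ l ∈ WL X (m + n), f l = ∑ l₁ ∈ WL X m, ∑ l₂ ∈ WL X n, f (l₁ ++ l₂) := by
  induction m generalizing f with
  | zero => simp [WL]
  | succ m ih =>
    rw [Nat.add_right_comm, sum_WL_succ, sum_WL_succ]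
    exact sum_congr rfl fun a _ => ih _

omit [Fintype X] [DecidableEq X] in
lemma Pth_append (K : Matrix X X ℝ) (u w v : X) (l₁ l₂ : List X) :
    Pth K u (l₁ ++ w :: l₂) v = Pth K u l₁ w * Pth K w l₂ v := by
  induction l₁ generalizing u with
  | nil => rfl
  | cons a l ih => simp only [List.cons_append, Pth, ih, mul_assoc]

omit [Fintype X] [DecidableEq X] in
lemma cyc_comm (K : Matrix X X ℝ) (a b : List X) : cyc K (a ++ b) = cyc K (b ++ a) := by
  cases a with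
  | nil => simp
  | cons x a =>
    cases b with
    | nil => simp
    | cons y b => simp only [List.cons_append, cyc, Pth_append, mul_comm]

lemma sum_Pth (K : Matrix X X ℝ) (n : ℕ) (u v : X) :
    ∑ l ∈ WL X n, Pth K u l v = (K ^ (n + 1)) u v := by
  induction n generalizing u with
  | zero => simp [WL, Pth]
  | succ n ih =>
    rw [sum_WL_succ, pow_succ' K (n + 1), Matrix.mul_apply]
    exact sum_congr rfl fun a _ => by simp only [Pth, ← mul_sum, ih]

lemma sum_cyc (K : Matrix X X ℝ) {J : ℕ} (hJ : 1 ≤ J) :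
    ∑ l ∈ WL X J, cyc K l = (K ^ J).trace := by
  obtain ⟨n, rfl⟩ : ∃ n, J = n + 1 := ⟨J - 1, by omega⟩
  rw [sum_WL_succ]
  exact sum_congr rfl fun a _ => sum_Pth K n a a

lemma Pth_diag (K : Matrix X X ℝ) (ν : X → ℝ) (u v : X) (l : List X) :
    Pth (K * Matrix.diagonal ν) u l v = Pth K u l v * ((l.map ν).prod * ν v) := by
  induction l generalizing u with
  | nil => simp [Pth]
  | cons a l ih => simp only [Pth, ih, Matrix.mul_diagonal, List.map_cons, List.prod_cons]; ring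

omit [Fintype X] [DecidableEq X] in
lemma abs_Pth_le {K' K : Matrix X X ℝ} (hK : ∀ a b, |K' a b| ≤ K a b) (u v : X) (l : List X) :
    |Pth K' u l v| ≤ Pth K u l v := by
  induction l generalizing u with
  | nil => exact hK u v
  | cons a l ih =>
    rw [Pth, Pth, abs_mul]
    exact mul_le_mul (hK u a) (ih a) (abs_nonneg _) ((abs_nonneg _).trans (hK u a))

omit [Fintype X] [DecidableEq X] in
lemma abs_cyc_le {K' K : Matrix X X ℝ} (hK : ∀ a b, |K' a b| ≤ K a b) (l : List X) :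
    |cyc K' l| ≤ cyc K l := by
  cases l with
  | nil => simp [cyc]
  | cons a l => exact abs_Pth_le hK a a l

omit [Fintype X] [DecidableEq X] in
lemma Pth_nonneg {K : Matrix X X ℝ} (h0 : ∀ a b, 0 ≤ K a b) (u v : X) (l : List X) :
    0 ≤ Pth K u l v :=
  (abs_nonneg _).trans (abs_Pth_le (K' := K) (fun a b => (abs_of_nonneg (h0 a b)).le) u v l)

omit [Fintype X] [DecidableEq X] in
lemma cyc_nonneg {K : Matrix X X ℝ} (h0 : ∀ a b, 0 ≤ K a b) (l : List X) : 0 ≤ cyc K l :=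
  (abs_nonneg _).trans (abs_cyc_le (K' := K) (fun a b => (abs_of_nonneg (h0 a b)).le) l)

omit [Fintype X] [DecidableEq X] in
lemma Op_nonneg {K : Matrix X X ℝ} (h0 : ∀ a b, 0 ≤ K a b) (u : X) (l : List X) :
    0 ≤ Op K u l := by
  induction l generalizing u with
  | nil => exact zero_le_one
  | cons a l ih => exact mul_nonneg (h0 u a) (ih a)

lemma sum_blk_le {K : Matrix X X ℝ} (h0 : ∀ a b, 0 ≤ K a b) {k : ℕ} {c : ℝ}
    (hc : ∀ a b, (K ^ (k + 1)) a b ≤ c) (u v : X) (l : List X) :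
    ∑ blk ∈ WL X k, Pth K u (l ++ blk) v ≤ Op K u l * c := by
  induction l generalizing u with
  | nil => simpa [Op, sum_Pth] using hc u v
  | cons a l ih =>
    simp only [List.cons_append, Pth, Op, ← mul_sum, mul_assoc]
    exact mul_le_mul_of_nonneg_left (ih a) (h0 u a)

lemma dfc_perm {l m : List X} (h : l.Perm m) : dfc l = dfc m := by
  have h1 := dfc_add_card l
  have h2 := dfc_add_card m
  rw [List.toFinset_eq_of_perm _ _ h, h.length_eq] at h1
  omega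

omit [Fintype X] in
lemma nodup_of_dfc {l : List X} (h : dfc l = 0) : l.Nodup := by
  induction l with
  | nil => simp
  | cons a l ih =>
    rw [dfc] at h
    refine List.nodup_cons.2 ⟨fun h' => ?_, ih (by omega)⟩
    rw [if_pos h'] at h
    omega

omit [Fintype X] in
lemma dfc_blk (B R : List X) (h : ∀ x ∈ B, (B ++ R).count x ≤ 1) : dfc (B ++ R) = dfc R := by
  induction B with
  | nil => rfl
  | cons x B ih =>
    have h1 := h x List.mem_cons_self
    rw [List.cons_append, List.count_cons_self] at h1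
    rw [List.cons_append, dfc, if_neg (List.count_eq_zero.1 (by omega)), add_zero]
    refine ih fun y hy => le_trans ?_ (h y (List.mem_cons_of_mem _ hy))
    rw [List.cons_append]
    exact List.count_le_count_cons

lemma countP_le (l : List X) : l.countP (fun x => 2 ≤ l.count x) ≤ 2 * dfc l := by
  have h1 := dfc_add_card l
  have h2 := List.sum_toFinset_count_eq_length l
  rw [← Finset.sum_filter_count_eq_countP (fun x => 2 ≤ l.count x) l, sum_filter]
  have h3 : ∑ x ∈ l.toFinset, ((if 2 ≤ l.count x then l.count x else 0) + 2)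
      ≤ ∑ x ∈ l.toFinset, 2 * l.count x := by
    refine sum_le_sum fun x hx => ?_
    have := List.count_pos_iff.2 (List.mem_toFinset.1 hx)
    split_ifs <;> omega
  rw [sum_add_distrib, sum_const, ← mul_sum, h2, smul_eq_mul] at h3
  omega

lemma exists_blk (l : List X) {K0 : ℕ} (k : ℕ) (h : dfc l < K0) :
    ∃ i < 2 * K0, dfc l = dfc (l.drop (i * k + k) ++ l.take (i * k)) := by
  by_contra hc
  push Not at hc
  have key : ∀ m ≤ 2 * K0, m ≤ (l.take (m * k)).countP fun x => 2 ≤ l.count x := by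
    intro m hm
    induction m with
    | zero => omega
    | succ m ih =>
      rw [add_mul, one_mul, List.take_add, List.countP_append]
      refine add_le_add (ih (by omega)) (List.countP_pos_iff.2 ?_)
      by_contra hn
      push Not at hn
      have hp : l.Perm ((l.drop (m * k)).take k ++ (l.drop (m * k + k) ++ l.take (m * k))) := by
        rw [← List.append_assoc, ← List.drop_drop, List.take_append_drop]
        conv_lhs => rw [← List.take_append_drop (m * k) l]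
        exact List.perm_append_comm
      refine hc m (by omega) ?_
      rw [dfc_perm hp]
      refine dfc_blk _ _ fun x hx => ?_
      have := hn x hx
      rw [← hp.count_eq]
      simpa [Nat.lt_succ_iff] using this
  have h1 := key _ le_rfl
  have h2 := countP_le l
  have h3 := (List.take_sublist (2 * K0 * k) l).countP_le (p := fun x => 2 ≤ l.count x)
  omega

lemma open_le {K : Matrix X X ℝ} (h0 : ∀ a b, 0 ≤ K a b) (hcol : ∀ b, ∑ a, K a b ≤ 2) {a' : ℝ}
    (ha0 : 0 < a') (ha : ∀ a b, K a b ≤ a') {J n : ℕ} (hn : n ≤ J) :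
    ∑ y, ∑ l ∈ WL X n, Op K y l * a'⁻¹ ^ dfc (y :: l) ≤ Fintype.card X * (2 + (J : ℝ)) ^ n := by
  induction n with
  | zero => simp [WL, Op, dfc]
  | succ n ih =>
    have key : ∀ a, ∀ l ∈ WL X n, ∑ y, Op K y (a :: l) * a'⁻¹ ^ dfc (y :: a :: l)
        ≤ Op K a l * a'⁻¹ ^ dfc (a :: l) * (2 + (J : ℝ)) := by
      intro a l hl
      have e : ∀ y, Op K y (a :: l) * a'⁻¹ ^ dfc (y :: a :: l) ≤ Op K a l * a'⁻¹ ^ dfc (a :: l) *
          (K y a + if y ∈ (a :: l).toFinset then 1 else 0) := by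
        intro y
        have p : 0 ≤ Op K a l * a'⁻¹ ^ dfc (a :: l) := mul_nonneg (Op_nonneg h0 a l) (by positivity)
        rw [Op, dfc.eq_2 y, pow_add]
        simp only [List.mem_toFinset]
        split_ifs
        · have : K y a * a'⁻¹ ≤ 1 := by rw [← div_eq_mul_inv, div_le_one ha0]; exact ha y a
          linarith only [this, p, h0, mul_le_mul_of_nonneg_left this p, mul_nonneg p (h0 y a)]
        · apply le_of_eq; ring
      refine (sum_le_sum fun y _ => e y).trans ?_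
      rw [← mul_sum, sum_add_distrib, sum_ite_mem, univ_inter, sum_const, nsmul_one]
      refine mul_le_mul_of_nonneg_left (add_le_add (hcol a) ?_)
        (mul_nonneg (Op_nonneg h0 a l) (by positivity))
      have := List.toFinset_card_le (a :: l)
      rw [List.length_cons, mem_WL.1 hl] at this
      exact_mod_cast this.trans hn
    simp only [sum_WL_succ]
    rw [sum_comm]
    refine (sum_le_sum fun a _ => sum_comm.le.trans (sum_le_sum (key a))).trans ?_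
    simp only [← sum_mul]
    rw [pow_succ, ← mul_assoc]
    exact mul_le_mul_of_nonneg_right (ih (by omega)) (by positivity)

lemma sum_mem_le (a : X) (n : ℕ) (Φ : List X → ℝ) (hΦ : ∀ l, 0 ≤ Φ l) :
    ∑ l ∈ WL X n, (if a ∈ l then Φ l else 0)
      ≤ ∑ i ∈ range n, ∑ l₁ ∈ WL X i, ∑ l₂ ∈ WL X (n - 1 - i), Φ (l₁ ++ a :: l₂) := by
  induction n generalizing Φ with
  | zero => simp [WL]
  | succ n ih =>
    rw [sum_WL_succ, sum_range_succ']
    have e : ∀ x l, (if a ∈ x :: l then Φ (x :: l) else 0)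
        ≤ (if a ∈ l then Φ (x :: l) else 0) + if a = x then Φ (x :: l) else 0 := by
      intro x l
      have := hΦ (x :: l)
      simp only [List.mem_cons]
      by_cases h1 : a ∈ l <;> by_cases h2 : a = x
      · rw [if_pos (Or.inl h2), if_pos h1, if_pos h2]; linarith
      · rw [if_pos (Or.inr h1), if_pos h1, if_neg h2]; linarith
      · rw [if_pos (Or.inl h2), if_neg h1, if_pos h2]; linarith
      · rw [if_neg (not_or.2 ⟨h2, h1⟩), if_neg h1, if_neg h2]; linarith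
    refine (sum_le_sum fun x _ => sum_le_sum fun l _ => e x l).trans ?_
    simp only [sum_add_distrib]
    refine add_le_add ?_ (le_of_eq ?_)
    · refine (sum_le_sum fun x _ => ih (fun l => Φ (x :: l)) fun l => hΦ _).trans (le_of_eq ?_)
      rw [sum_comm]
      refine sum_congr rfl fun i _ => ?_
      rw [sum_WL_succ, show n + 1 - 1 - (i + 1) = n - 1 - i by omega]
      rfl
    · rw [sum_comm]
      simp [WL]

lemma pair_le {K : Matrix X X ℝ} (h0 : ∀ a b, 0 ≤ K a b) {a b : X} (hab : b ≠ a) (n : ℕ) :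
    ∑ l ∈ WL X (n + 1), (if a ∈ l then (if b ∈ l then cyc K l else 0) else 0)
      ≤ (n + 1 : ℕ) * ∑ i ∈ range n, (K ^ (i + 1)) a b * (K ^ (n - i)) b a := by
  refine (sum_mem_le a (n + 1) _ fun l => ?_).trans ?_
  · split_ifs
    exacts [cyc_nonneg h0 l, le_rfl]
  refine (sum_le_card_nsmul _ _ _ fun i hi => ?_).trans (by rw [card_range, nsmul_eq_mul])
  rw [mem_range] at hi
  have e : ∑ l₁ ∈ WL X i, ∑ l₂ ∈ WL X (n + 1 - 1 - i),
      (if b ∈ l₁ ++ a :: l₂ then cyc K (l₁ ++ a :: l₂) else 0)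
      = ∑ m ∈ WL X n, if b ∈ m then Pth K a m a else 0 := by
    conv_rhs => rw [show n = n + 1 - 1 - i + i by omega, sum_WL_add]
    rw [sum_comm]
    refine sum_congr rfl fun l₂ _ => sum_congr rfl fun l₁ _ => ?_
    rw [cyc_comm]
    simp [cyc, hab, or_comm]
  rw [e]
  refine (sum_mem_le b n _ fun l => Pth_nonneg h0 a a l).trans (le_of_eq ?_)
  refine sum_congr rfl fun j hj => ?_
  rw [mem_range] at hj
  simp only [Pth_append, ← mul_sum, ← sum_mul, sum_Pth]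
  rw [show n - 1 - j + 1 = n - j by omega]

omit [DecidableEq X] in
lemma card_mul_le {c : ℝ} (hc : 0 ≤ c) : Fintype.card X * (c / Fintype.card X) ≤ c := by
  rcases Nat.eq_zero_or_pos (Fintype.card X) with h | h
  · simp [h, hc]
  · rw [mul_div_cancel₀ _ (by positivity)]

lemma pow_nonneg' {K : Matrix X X ℝ} (h0 : ∀ a b, 0 ≤ K a b) (n : ℕ) (a b : X) :
    0 ≤ (K ^ (n + 1)) a b := by
  rw [← sum_Pth]
  exact sum_nonneg fun l _ => Pth_nonneg h0 a b l

lemma pair_sum {K : Matrix X X ℝ} (h0 : ∀ a b, 0 ≤ K a b) {G : X → X → ℝ} {J k : ℕ} {c0 θ' : ℝ}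
    (hk : 1 ≤ k) (hJ : 2 * k ≤ J) (hsym : K.IsSymm) (hc0 : 0 ≤ c0)
    (hpow : ∀ n, k ≤ n → n ≤ J → ∀ a b, (K ^ n) a b ≤ c0 / Fintype.card X)
    (hG0 : ∀ a b, 0 ≤ G a b) (hθ' : 0 ≤ θ')
    (hG : ∀ n, 1 ≤ n → n ≤ J → ∀ a, ∑ b ∈ univ.erase a, (K ^ n) a b * G a b ≤ θ') :
    ∑ l ∈ WL X J, cyc K l * ∑ p ∈ l.toFinset.offDiag, G p.1 p.2 ≤ (J : ℝ) ^ 2 * c0 * θ' := by
  obtain ⟨n, rfl⟩ : ∃ n, J = n + 1 := ⟨J - 1, by omega⟩
  have e : ∀ l : List X, cyc K l * ∑ p ∈ l.toFinset.offDiag, G p.1 p.2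
      = ∑ a, ∑ b ∈ univ.erase a,
        (if a ∈ l then (if b ∈ l then cyc K l else 0) else 0) * G a b := by
    intro l
    have : ∑ p ∈ l.toFinset.offDiag, G p.1 p.2
        = ∑ a, ∑ b, if a ∈ l ∧ b ∈ l ∧ a ≠ b then G a b else 0 := by
      rw [← sum_product', ← sum_filter]
      refine sum_congr ?_ fun _ _ => rfl
      ext p
      simp [mem_offDiag]
    rw [this, mul_sum]
    refine sum_congr rfl fun a _ => ?_
    rw [mul_sum, ← sum_erase (a := a) _ (by simp)]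
    refine sum_congr rfl fun b hb => ?_
    have := (ne_of_mem_erase hb).symm
    by_cases h1 : a ∈ l <;> by_cases h2 : b ∈ l <;> simp [h1, h2, this]
  have hd : 0 ≤ c0 / Fintype.card X := by positivity
  have key : ∀ i ∈ range n, ∀ a, ∑ b ∈ univ.erase a,
      (K ^ (i + 1)) a b * (K ^ (n - i)) b a * G a b ≤ c0 / Fintype.card X * θ' := by
    intro i hi a
    rw [mem_range] at hi
    obtain ⟨j, hj⟩ : ∃ j, n - i = j + 1 := ⟨n - i - 1, by omega⟩
    rw [hj]
    by_cases h : k ≤ i + 1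
    · refine le_trans ?_ (mul_le_mul_of_nonneg_left (hG (j + 1) (by omega) (by omega) a) hd)
      rw [mul_sum]
      refine sum_le_sum fun b _ => ?_
      rw [mul_assoc, (hsym.pow (j + 1)).apply a b]
      exact mul_le_mul_of_nonneg_right (hpow _ h (by omega) a b)
        (mul_nonneg (pow_nonneg' h0 j a b) (hG0 a b))
    · refine le_trans ?_ (mul_le_mul_of_nonneg_left (hG (i + 1) (by omega) (by omega) a) hd)
      rw [mul_sum]
      refine sum_le_sum fun b _ => ?_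
      rw [mul_comm ((K ^ (i + 1)) a b), mul_assoc]
      exact mul_le_mul_of_nonneg_right (hpow _ (by omega) (by omega) b a)
        (mul_nonneg (pow_nonneg' h0 i a b) (hG0 a b))
  simp only [e]
  rw [sum_comm]
  have h1 : ∀ a, ∑ l ∈ WL X (n + 1), ∑ b ∈ univ.erase a,
      (if a ∈ l then (if b ∈ l then cyc K l else 0) else 0) * G a b
      ≤ (n + 1 : ℕ) * (n * (c0 / Fintype.card X * θ')) := by
    intro a
    rw [sum_comm]
    simp only [← sum_mul]
    refine (sum_le_sum fun b hb => mul_le_mul_of_nonneg_right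
      (pair_le h0 (ne_of_mem_erase hb) n) (hG0 a b)).trans ?_
    simp only [mul_assoc, ← mul_sum, sum_mul]
    refine mul_le_mul_of_nonneg_left ?_ (Nat.cast_nonneg _)
    rw [sum_comm]
    refine (sum_le_card_nsmul _ _ _ fun i hi => ?_).trans (by rw [card_range, nsmul_eq_mul])
    simpa only [mul_assoc] using key i hi a
  refine (sum_le_card_nsmul _ _ _ fun a _ => h1 a).trans ?_
  rw [card_univ, nsmul_eq_mul]
  have h2 := card_mul_le (X := X) hc0
  have h3 : (0 : ℝ) ≤ n := Nat.cast_nonneg n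
  push_cast
  calc _ = (n + 1) * n * (Fintype.card X * (c0 / Fintype.card X)) * θ' := by ring
    _ ≤ (n + 1) * (n + 1) * c0 * θ' := by gcongr; linarith only []
    _ = _ := by ring

lemma big_sum {K : Matrix X X ℝ} (h0 : ∀ a b, 0 ≤ K a b) (hcol : ∀ b, ∑ a, K a b ≤ 2) {a' : ℝ}
    (ha0 : 0 < a') (ha : ∀ a b, K a b ≤ a') {J m k : ℕ} {c : ℝ} (hc0 : 0 ≤ c)
    (hc : ∀ a b, (K ^ (k + 1)) a b ≤ c) (hm : 1 ≤ m) (hmJ : m ≤ J) :
    ∑ l ∈ WL X m, ∑ blk ∈ WL X k, cyc K (l ++ blk) * a'⁻¹ ^ dfc l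
      ≤ (2 + (J : ℝ)) ^ J * (Fintype.card X * c) := by
  obtain ⟨n, rfl⟩ : ∃ n, m = n + 1 := ⟨m - 1, by omega⟩
  rw [sum_WL_succ]
  have h1 := open_le h0 hcol ha0 ha (J := J) (n := n) (by omega)
  have h2 : (2 + (J : ℝ)) ^ n ≤ (2 + (J : ℝ)) ^ J :=
    pow_le_pow_right₀ (by linarith only [Nat.cast_nonneg (α := ℝ) J]) (by omega)
  calc _ ≤ ∑ y, ∑ l ∈ WL X n, Op K y l * a'⁻¹ ^ dfc (y :: l) * c := by
        refine sum_le_sum fun y _ => sum_le_sum fun l _ => ?_
        rw [← sum_mul, mul_right_comm]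
        exact mul_le_mul_of_nonneg_right (sum_blk_le h0 hc y y l) (by positivity)
    _ ≤ Fintype.card X * (2 + (J : ℝ)) ^ J * c := by
        simp only [← sum_mul]
        exact mul_le_mul_of_nonneg_right
          (h1.trans (mul_le_mul_of_nonneg_left h2 (Nat.cast_nonneg _))) hc0
    _ = _ := by ring

lemma blk_sum {K : Matrix X X ℝ} (h0 : ∀ a b, 0 ≤ K a b) (hcol : ∀ b, ∑ a, K a b ≤ 2) {a' : ℝ}
    (ha0 : 0 < a') (ha : ∀ a b, K a b ≤ a') {J s k : ℕ} {c : ℝ} (hc0 : 0 ≤ c)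
    (hc : ∀ a b, (K ^ (k + 1)) a b ≤ c) (hs : s + k ≤ J) (hk : k < J) :
    ∑ l ∈ WL X J, cyc K l * a'⁻¹ ^ dfc (l.drop (s + k) ++ l.take s)
      ≤ (2 + (J : ℝ)) ^ J * (Fintype.card X * c) := by
  obtain ⟨t, ht⟩ : ∃ t, J = s + (k + t) := ⟨J - s - k, by omega⟩
  refine le_of_eq_of_le ?_ (big_sum h0 hcol ha0 ha (J := J) (m := t + s) hc0 hc (by omega) (by omega))
  rw [ht, sum_WL_add, sum_WL_add, sum_comm (s := WL X t)]
  refine sum_congr rfl fun l₁ h₁ => ?_
  rw [sum_WL_add, sum_comm]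
  refine sum_congr rfl fun l₂ _ => sum_congr rfl fun blk hb => ?_
  rw [List.take_left' (mem_WL.1 h₁), ← List.append_assoc,
    List.drop_left' (by rw [List.length_append, mem_WL.1 h₁, mem_WL.1 hb]), cyc_comm,
    List.append_assoc]

end WalkAux

open WalkAux

theorem trace_diag (K : Matrix X X ℝ) (ν : X → ℝ) {J : ℕ} (hJ : 1 ≤ J) :
    ((K * Matrix.diagonal ν) ^ J).trace = ∑ l ∈ WL X J, cyc K l * (l.map ν).prod := by
  rw [← sum_cyc _ hJ]
  refine sum_congr rfl fun l _ => ?_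
  cases l with
  | nil => simp [cyc]
  | cons a l => simp only [cyc, Pth_diag, List.map_cons, List.prod_cons]; ring

theorem trace_bound (K' K : Matrix X X ℝ) (G : X → X → ℝ) (cor : List X → ℝ) {J K0 k : ℕ}
    {a' c0 θ θ' Λ : ℝ} (hK0 : 1 ≤ K0) (hk : 1 ≤ k) (hJ : 2 * K0 * k ≤ J)
    (hK : ∀ a b, |K' a b| ≤ K a b) (hsym : K.IsSymm) (hcol : ∀ b, ∑ a, K a b ≤ 2)
    (ha0 : 0 < a') (ha : ∀ a b, K a b ≤ a') (hc0 : 0 ≤ c0)
    (hpow : ∀ n, k ≤ n → n ≤ J → ∀ a b, (K ^ n) a b ≤ c0 / Fintype.card X)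
    (hG0 : ∀ a b, 0 ≤ G a b) (hθ : 0 ≤ θ) (hθ' : 0 ≤ θ')
    (hG : ∀ n, 1 ≤ n → n ≤ J → ∀ a, ∑ b ∈ univ.erase a, (K ^ n) a b * G a b ≤ θ')
    (hΛ0 : 0 ≤ Λ) (hΛ : a' * Λ ≤ 1)
    (h1 : ∀ l : List X, l.length = J → l.Nodup →
      |cor l - 1| ≤ θ + ∑ p ∈ l.toFinset.offDiag, G p.1 p.2)
    (h2 : ∀ l : List X, l.length = J → ¬ l.Nodup → |cor l - 1| ≤ Λ ^ dfc l) :
    ∑ l ∈ WL X J, cyc K' l * cor l ≤ (K' ^ J).trace + θ * c0 + (J : ℝ) ^ 2 * c0 * θ'
      + (2 + (J : ℝ)) ^ J * (2 * K0 * c0 * (a' * Λ) + Fintype.card X * a' * (a' * Λ) ^ K0) := by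
  have h0 : ∀ a b, 0 ≤ K a b := fun a b => (abs_nonneg _).trans (hK a b)
  have hJk : 2 * k ≤ J := le_trans (by nlinarith only [hK0]) hJ
  have hJ1 : 1 ≤ J := by omega
  set e := a' * Λ with he
  have he0 : 0 ≤ e := mul_nonneg ha0.le hΛ0
  have hΛe : Λ = e * a'⁻¹ := by rw [he]; field_simp
  have pt : ∀ l ∈ WL X J, |cor l - 1| ≤ θ + ∑ p ∈ l.toFinset.offDiag, G p.1 p.2
      + (e * ∑ i ∈ range (2 * K0), a'⁻¹ ^ dfc (l.drop (i * k + k) ++ l.take (i * k))
        + e ^ K0 * a'⁻¹ ^ dfc l) := by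
    intro l hl
    have p1 : 0 ≤ ∑ p ∈ l.toFinset.offDiag, G p.1 p.2 := sum_nonneg fun p _ => hG0 _ _
    have p2 : 0 ≤ e * ∑ i ∈ range (2 * K0), a'⁻¹ ^ dfc (l.drop (i * k + k) ++ l.take (i * k)) :=
      mul_nonneg he0 (sum_nonneg fun i _ => by positivity)
    have p3 : 0 ≤ e ^ K0 * a'⁻¹ ^ dfc l := by positivity
    by_cases hn : l.Nodup
    · linarith only [p2, p3, h1, hl, hn, h1 l (mem_WL.1 hl) hn]
    have h3 := h2 l (mem_WL.1 hl) hn
    rw [hΛe, mul_pow] at h3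
    by_cases hd : dfc l < K0
    · obtain ⟨i, hi, hi2⟩ := exists_blk l k hd
      have hd1 : dfc l ≠ 0 := fun h => hn (nodup_of_dfc h)
      have q1 : a'⁻¹ ^ dfc l
          ≤ ∑ i ∈ range (2 * K0), a'⁻¹ ^ dfc (l.drop (i * k + k) ++ l.take (i * k)) := by
        rw [hi2]
        exact single_le_sum (f := fun i => a'⁻¹ ^ dfc (l.drop (i * k + k) ++ l.take (i * k)))
          (fun i _ => by positivity) (mem_range.2 hi)
      have q2 := mul_le_mul (pow_le_of_le_one he0 hΛ hd1) q1 (by positivity) he0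
      linarith only [hθ, p1, p3, h3, q2]
    · have q2 : e ^ dfc l * a'⁻¹ ^ dfc l ≤ e ^ K0 * a'⁻¹ ^ dfc l :=
        mul_le_mul_of_nonneg_right (pow_le_pow_of_le_one he0 hΛ (by omega)) (by positivity)
      linarith only [hθ, p1, p2, h3, q2]
  have s1 : ∑ l ∈ WL X J, cyc K l ≤ c0 := by
    rw [sum_cyc K hJ1]
    refine le_trans ?_ (card_mul_le (X := X) hc0)
    rw [← nsmul_eq_mul, ← card_univ]
    exact sum_le_card_nsmul _ _ _ fun a _ => hpow J (by omega) le_rfl a a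
  have s2 := pair_sum h0 hk hJk hsym hc0 hpow hG0 hθ' hG
  have hp : 0 ≤ (2 + (J : ℝ)) ^ J := by positivity
  have s3 : ∑ l ∈ WL X J, cyc K l *
      ∑ i ∈ range (2 * K0), a'⁻¹ ^ dfc (l.drop (i * k + k) ++ l.take (i * k))
      ≤ (2 * K0 : ℕ) * ((2 + (J : ℝ)) ^ J * c0) := by
    simp only [mul_sum]
    rw [sum_comm]
    refine (sum_le_card_nsmul _ _ _ fun i hi => ?_).trans (by rw [card_range, nsmul_eq_mul])
    rw [mem_range] at hi
    refine (blk_sum h0 hcol ha0 ha (by positivity) (hpow (k + 1) (by omega) (by omega))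
      (le_trans (by nlinarith only [hi]) hJ) (by omega)).trans ?_
    exact mul_le_mul_of_nonneg_left (card_mul_le hc0) hp
  have s4 : ∑ l ∈ WL X J, cyc K l * a'⁻¹ ^ dfc l ≤ (2 + (J : ℝ)) ^ J * (Fintype.card X * a') := by
    have := big_sum h0 hcol ha0 ha (J := J) (m := J) (k := 0) ha0.le (by simpa using ha) hJ1 le_rfl
    simpa [WL] using this
  have s5 : ∑ l ∈ WL X J, cyc K' l * cor l ≤ ∑ l ∈ WL X J, (cyc K' l + (θ * cyc K l
      + cyc K l * ∑ p ∈ l.toFinset.offDiag, G p.1 p.2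
      + (e * (cyc K l * ∑ i ∈ range (2 * K0), a'⁻¹ ^ dfc (l.drop (i * k + k) ++ l.take (i * k)))
        + e ^ K0 * (cyc K l * a'⁻¹ ^ dfc l)))) := by
    refine sum_le_sum fun l hl => ?_
    have q1 : cyc K' l * (cor l - 1) ≤ cyc K l * |cor l - 1| := by
      refine (le_abs_self _).trans ?_
      rw [abs_mul]
      exact mul_le_mul_of_nonneg_right (abs_cyc_le hK l) (abs_nonneg _)
    have q2 := mul_le_mul_of_nonneg_left (pt l hl) (cyc_nonneg h0 l)
    linarith only [q1, q2]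
  simp only [sum_add_distrib, ← mul_sum (a := θ), ← mul_sum (a := e), ← mul_sum (a := e ^ K0)] at s5
  rw [sum_cyc K' hJ1] at s5
  push_cast at s3
  have t1 := mul_le_mul_of_nonneg_left s1 hθ
  have t3 := mul_le_mul_of_nonneg_left s3 he0
  have t4 := mul_le_mul_of_nonneg_left s4 (pow_nonneg he0 K0)
  linarith only [s2, s5, t1, t3, t4]

end

end Pool.Agent.Work.MP_89ab3c_nt
end

-- merged part: Pool.Agent.Work.MP_89ab3c_nt.Trans
section
/-!
# The abstract transference theorem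
-/

set_option autoImplicit false

namespace Pool.Agent.Work.MP_89ab3c_nt

open Finset Matrix

noncomputable section

/-- pseudorandomness of the weights `ν z` under the measure `π`, for tuples of length at most `J` -/
structure Maj {X : Type} [Fintype X] [DecidableEq X] (v : X → ℕ) (q J s : ℕ) (θ Λ : ℝ)
    (Ω : Finset ℕ) (π : ℕ → ℝ) (ν : ℕ → X → ℝ) (G : X → X → ℝ) : Prop where
  π0 : ∀ z, 0 ≤ π z
  ν0 : ∀ z x, 0 ≤ ν z x
  G0 : ∀ a b, 0 ≤ G a b
  nodup : ∀ l : List X, l.length ≤ J → l.Nodup →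
    |∑ z ∈ Ω, π z * (l.map (ν z)).prod - 1| ≤ θ + ∑ p ∈ l.toFinset.offDiag, G p.1 p.2
  dup : ∀ l : List X, l.length ≤ J → ¬ l.Nodup →
    |∑ z ∈ Ω, π z * (l.map (ν z)).prod - 1| ≤ Λ ^ dfc l
  Gsum : ∀ (κ : X → ℝ) (a : X) (D : ℝ), (∀ b, 0 ≤ κ b) → 0 ≤ D →
    (∀ d : ℕ, 1 ≤ d → d ≤ q → ∑ b ∈ univ.filter fun b => (d : ℤ) ∣ (v a : ℤ) - v b, κ b
      ≤ D * (d : ℝ) ^ (-(1 / (s : ℝ)))) → ∑ b ∈ univ.erase a, κ b * G a b ≤ D * θ

variable {q : ℕ} [NeZero q]

lemma card_dvd_val {s d : ℕ} (hs : 1 ≤ s) (hd : 1 ≤ d) (hdq : d ≤ q) (a : ZMod q) :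
    ∑ _b ∈ univ.filter fun b : ZMod q => (d : ℤ) ∣ (a.val : ℤ) - b.val, (1 : ℝ)
      ≤ 2 * q * (d : ℝ) ^ (-(1 / (s : ℝ))) := by
  have hd1 : (1 : ℝ) ≤ d := by exact_mod_cast hd
  have hs1 : (1 : ℝ) ≤ s := by exact_mod_cast hs
  have h1 : (univ.filter fun b : ZMod q => (d : ℤ) ∣ (a.val : ℤ) - b.val).card
      ≤ ((Ioc 0 (0 + q)).filter fun n => n ≡ a.val + 1 [MOD d]).card := by
    refine card_le_card_of_injOn (fun b => b.val + 1) (fun b hb => ?_) fun b _ b' _ h => ?_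
    · simp only [coe_filter, mem_univ, true_and, Set.mem_ofPred_eq, mem_Ioc] at hb ⊢
      have := ZMod.val_lt b
      exact ⟨by omega, ((Nat.modEq_iff_dvd).2 hb).add_right 1⟩
    · exact ZMod.val_injective q (by simpa using h)
  have h2 := (abs_le.1 (Lib.ANT.abs_card_modEq_sub_le 0 q d (a.val + 1) hd)).2
  have h3 : (d : ℝ)⁻¹ ≤ (d : ℝ) ^ (-(1 / (s : ℝ))) := by
    rw [← Real.rpow_neg_one]
    refine Real.rpow_le_rpow_of_exponent_le hd1 (neg_le_neg ?_)
    rw [div_le_one (by linarith only [hs1])]; exact hs1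
  have h4 : (1 : ℝ) ≤ q / d := by
    rw [le_div_iff₀ (by linarith only [hd1]), one_mul]; exact_mod_cast hdq
  have h5 : ((univ.filter fun b : ZMod q => (d : ℤ) ∣ (a.val : ℤ) - b.val).card : ℝ) ≤ _ :=
    Nat.cast_le.2 h1
  rw [sum_const, nsmul_eq_mul, mul_one]
  calc _ ≤ 2 * q * (d : ℝ)⁻¹ := by rw [mul_assoc, ← div_eq_mul_inv]; linarith
    _ ≤ _ := by gcongr

variable {J s : ℕ} {θ Λ : ℝ} {Ω : Finset ℕ} {π : ℕ → ℝ} {ν : ℕ → ZMod q → ℝ}
  {G : ZMod q → ZMod q → ℝ}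

lemma second_moment (h : Maj ZMod.val q J s θ Λ Ω π ν G) (hJ : 2 ≤ J) (hs : 1 ≤ s) (hθ : 0 ≤ θ)
    (hΛ : 0 ≤ Λ) (B : Finset (ZMod q)) :
    ∑ z ∈ Ω, π z * ∑ x, (avg B *ᵥ ν z) x ^ 2
      ≤ q * (1 + θ) + (B.card : ℝ)⁻¹ * (q * Λ + 4 * q ^ 2 * θ) := by
  set N := (avg B)ᵀ * avg B with hN
  have hNs : Sub N (1 * 1) := (sub_avg B).2.mul (sub_avg B).1 zero_le_one
  have hNe : ∀ a b, N a b ≤ 1 * (B.card : ℝ)⁻¹ :=
    (sub_avg B).2.entry (by positivity) (avg_le B)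
  have e1 : ∀ z, ∑ x, (avg B *ᵥ ν z) x ^ 2 = ∑ a, ∑ b, N a b * ([a, b].map (ν z)).prod := by
    intro z
    calc _ = (avg B *ᵥ ν z) ⬝ᵥ (avg B *ᵥ ν z) := by simp only [dotProduct, sq]
      _ = ν z ⬝ᵥ N *ᵥ ν z := by rw [hN, ← mulVec_mulVec, dotProduct_mulVec (ν z), vecMul_transpose]
      _ = _ := by
        simp only [dotProduct, mulVec, mul_sum, List.map, List.prod_cons, List.prod_nil]
        exact sum_congr rfl fun a _ => sum_congr rfl fun b _ => by ring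
  have e2 : ∑ z ∈ Ω, π z * ∑ x, (avg B *ᵥ ν z) x ^ 2
      = ∑ a, ∑ b, N a b * ∑ z ∈ Ω, π z * ([a, b].map (ν z)).prod := by
    simp only [e1, mul_sum]
    rw [sum_comm]
    refine sum_congr rfl fun a _ => ?_
    rw [sum_comm]
    exact sum_congr rfl fun b _ => sum_congr rfl fun z _ => by ring
  have e3 : ∀ a b, N a b * ∑ z ∈ Ω, π z * ([a, b].map (ν z)).prod ≤ N a b * (1 + θ)
      + (B.card : ℝ)⁻¹ * if b = a then Λ else G a b + G b a := by
    intro a b
    have h0 := hNs.1 a b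
    have h1 := hNe a b
    split_ifs with hab
    · subst hab
      have := (abs_le.1 (h.dup [b, b] hJ (by simp))).2
      simp only [dfc, List.mem_cons, List.not_mem_nil, if_false, true_or, if_true, zero_add,
        pow_one] at this
      linarith only [this, h0, h1, hΛ, hθ, mul_le_mul_of_nonneg_left this h0, mul_le_mul_of_nonneg_right h1 hΛ, mul_nonneg_of_nonpos_of_nonpos (Mathlib.Tactic.Linarith.sub_nonpos_of_le hθ) (Mathlib.Tactic.Linarith.sub_nonpos_of_le h0)]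
    · have := (abs_le.1 (h.nodup [a, b] hJ (by simpa using Ne.symm hab))).2
      have e : ([a, b] : List (ZMod q)).toFinset.offDiag = {(a, b), (b, a)} := by
        ext ⟨x, y⟩
        simp only [List.toFinset_cons, List.toFinset_nil, insert_empty_eq, mem_offDiag, mem_insert,
          mem_singleton, Prod.mk.injEq]
        grind
      rw [e, sum_pair (by simp [Ne.symm hab])] at this
      have hG := add_nonneg (h.G0 a b) (h.G0 b a)
      linarith only [this, h0, h1, hG, mul_le_mul_of_nonneg_left this h0, mul_le_mul_of_nonneg_right h1 hG]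
  have e4 : ∑ a, ∑ b ∈ univ.erase a, G a b ≤ q * (2 * q * θ) := by
    refine (sum_le_card_nsmul _ _ (2 * q * θ) fun a _ => ?_).trans_eq (by simp)
    simpa using h.Gsum (fun _ => 1) a (2 * q) (fun _ => zero_le_one) (by positivity)
      fun d hd hdq => card_dvd_val hs hd hdq a
  have e5 : ∑ a, ∑ b ∈ univ.erase a, G b a = ∑ a, ∑ b ∈ univ.erase a, G a b :=
    sum_comm' fun a b => by simp [eq_comm]
  have e6 : ∑ a : ZMod q, ∑ b, (if b = a then Λ else G a b + G b a)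
      = q * Λ + 2 * ∑ a, ∑ b ∈ univ.erase a, G a b := by
    have : ∀ a : ZMod q, ∑ b, (if b = a then Λ else G a b + G b a)
        = Λ + (∑ b ∈ univ.erase a, G a b + ∑ b ∈ univ.erase a, G b a) := fun a => by
      rw [← add_sum_erase _ _ (mem_univ a), if_pos rfl, ← sum_add_distrib]
      exact congrArg _ (sum_congr rfl fun b hb => if_neg (mem_erase.1 hb).1)
    simp only [this, sum_add_distrib, e5]
    simp [two_mul]
  rw [e2]
  refine (sum_le_sum fun a _ => sum_le_sum fun b _ => e3 a b).trans ?_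
  simp only [sum_add_distrib, ← mul_sum, ← sum_mul, e6]
  have e7 : ∑ a, ∑ b, N a b ≤ q :=
    (sum_le_card_nsmul _ _ _ fun a _ => hNs.2 a).trans_eq (by simp)
  refine add_le_add (by gcongr) (mul_le_mul_of_nonneg_left (by linarith) (by positivity))

lemma mean_trace (h : Maj ZMod.val q J s θ Λ Ω π ν G) {M K0 : ℕ} {C : ℝ} {T : Finset ℕ}
    (hq : q = 2 * M) (hs : 1 ≤ s) (hK0 : 1 ≤ K0) (hJ : 2 * K0 * (2 * s) ≤ J) (hC : 1 ≤ C)
    (hT : T ⊆ Icc 1 M) (hne : T.Nonempty) (hR : Rst s M C T) (hθ : 0 ≤ θ) (hθ1 : θ ≤ 1 / 2)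
    (hΛ : 0 ≤ Λ) (hΛ1 : Λ ≤ θ * T.card) (hΛ2 : M * (Λ / T.card) ^ K0 ≤ θ) (B : Finset (ZMod q)) :
    ∑ z ∈ Ω, π z * ((Kp T B * diagonal (ν z)) ^ J).trace ≤ (Kp T B ^ J).trace
      + θ * (2 ^ J * (2 * (s + 1) * C) * (1 + J ^ 2 * (2 ^ J * (2 * (s + 2) * C))
        + (2 + J) ^ J * (4 * K0)) + (2 + J) ^ J * (4 * 2 ^ K0)) := by
  have hd : (0 : ℝ) < T.card := by exact_mod_cast hne.card_pos
  have hd1 : (1 : ℝ) ≤ T.card := by exact_mod_cast hne.card_pos
  have hJ1 : 1 ≤ J := le_trans (Nat.mul_pos (by omega) (by omega)) hJ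
  set K₀ := circulant (mu T : ZMod q → ℝ) with hK₀
  set Q := 1 + (avg B)ᵀ * avg B with hQ
  have c1 : Commute K₀ (avg B) := circulant_mul_comm _ _
  have c2 : Commute K₀ (avg B)ᵀ := by rw [avg, transpose_circulant]; exact circulant_mul_comm _ _
  have c3 : Commute Q K₀ := ((Commute.one_right _).add_right (c2.mul_right c1)).symm
  have e1 : (avg B)ᵀ * K₀ * avg B = (avg B)ᵀ * avg B * K₀ := by rw [mul_assoc, c1.eq, mul_assoc]
  have e2 : Q * K₀ = K₀ + (avg B)ᵀ * K₀ * avg B := by rw [hQ, add_mul, one_mul, e1]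
  have s0 : Sub K₀ 1 := (sub_circ (mu_nonneg T) (sum_mu hne).le).1
  have s1 : Sub ((avg B)ᵀ * avg B) (1 * 1) := (sub_avg B).2.mul (sub_avg B).1 zero_le_one
  have s2 : Sub Q 2 := by convert sub_one.add s1 using 1; norm_num
  have s3 : Sub (Q * K₀) (2 * 1) := s2.mul s0 zero_le_one
  have hsym : (Q * K₀).IsSymm := by
    rw [e2]; exact (circulant_isSymm_iff.2 (mu_neg T)).add (symm_conj T B)
  have split : ∀ n i : ℕ, i ≤ n → n ≤ J → ∃ A, Sub A (2 ^ J) ∧ (Q * K₀) ^ n = A * K₀ ^ i := by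
    intro n i hi hn
    obtain ⟨j, rfl⟩ := Nat.exists_eq_add_of_le' hi
    have := (s2.pow zero_le_two (j + i)).mul (s0.pow zero_le_one j) (by simp)
    refine ⟨_, ⟨this.1, fun a => (this.2 a).trans ?_⟩, ?_⟩
    · rw [one_pow, mul_one]; exact pow_le_pow_right₀ one_le_two hn
    · rw [c3.mul_pow, mul_assoc, ← pow_add]
  have key := trace_bound (Kp T B) (Q * K₀) G (fun l => ∑ z ∈ Ω, π z * (l.map (ν z)).prod)
    (J := J) (K0 := K0) (k := 2 * s) (a' := 2 * (T.card : ℝ)⁻¹)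
    (c0 := 2 ^ J * (2 * (s + 1) * C)) (θ := θ) (θ' := 2 ^ J * (2 * (s + 2) * C) * θ) (Λ := Λ)
    hK0 (by omega) hJ
    (fun a b => by
      have h1 := s0.1 a b
      have h2 := (s1.mul s0 zero_le_one).1 a b
      rw [e2, Kp, ← hK₀, e1, Matrix.sub_apply, Matrix.add_apply, abs_le]
      constructor <;> linarith)
    hsym (fun b => by simpa only [hsym.apply, mul_one] using s3.2 b) (by positivity)
    (s2.entry (by positivity) fun a b => mu_le hq hT _) (by positivity)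
    (fun n h1 h2 a b => by
      obtain ⟨A, hA, e⟩ := split n _ h1 h2
      rw [e, ZMod.card, mul_div_assoc]
      exact hA.entry (by positivity) (mu_pow_le hq hs (by linarith only [hC]) hT hne hR) a b)
    h.G0 hθ (by positivity)
    (fun n h1 h2 a => by
      refine h.Gsum _ a _ ((s3.pow (by norm_num) n).1 a) (by positivity) fun d hd1 hd2 => ?_
      obtain ⟨A, hA, e⟩ := split n 1 h1 h2
      rw [e, pow_one, mul_assoc]
      exact hA.mass (by positivity) _ (mu_mass hq hs hC hT hne hR hd1 hd2 a) a)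
    hΛ (by
      rw [mul_assoc, ← div_eq_inv_mul]
      have := (div_le_iff₀ hd).2 hΛ1
      linarith only [hθ1, this])
    (fun l hl => h.nodup l hl.le) (fun l hl => h.dup l hl.le)
  have e3 : ∑ z ∈ Ω, π z * ((Kp T B * diagonal (ν z)) ^ J).trace
      = ∑ l ∈ WL (ZMod q) J, cyc (Kp T B) l * ∑ z ∈ Ω, π z * (l.map (ν z)).prod := by
    simp only [trace_diag _ _ hJ1, mul_sum]
    rw [sum_comm]
    exact sum_congr rfl fun l _ => sum_congr rfl fun z _ => by ring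
  rw [e3]
  refine key.trans ?_
  have b1 : 2 * (T.card : ℝ)⁻¹ * Λ ≤ 2 * θ := by
    rw [mul_assoc, ← div_eq_inv_mul]
    have := (div_le_iff₀ hd).2 hΛ1
    linarith only [this]
  have b2 : (Fintype.card (ZMod q) : ℝ) * (2 * (T.card : ℝ)⁻¹) * (2 * (T.card : ℝ)⁻¹ * Λ) ^ K0
      ≤ 4 * 2 ^ K0 * θ := by
    rw [ZMod.card, hq, mul_assoc 2 _ Λ, ← div_eq_inv_mul, mul_pow]
    have b3 : (T.card : ℝ)⁻¹ ≤ 1 := inv_le_one_of_one_le₀ hd1
    calc _ = 4 * 2 ^ K0 * ((M * (Λ / T.card) ^ K0) * (T.card : ℝ)⁻¹) := by push_cast; ring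
      _ ≤ 4 * 2 ^ K0 * (θ * 1) := by gcongr
      _ = _ := by ring
  have b4 : (2 + (J : ℝ)) ^ J * (2 * K0 * (2 ^ J * (2 * (s + 1) * C)) * (2 * (T.card : ℝ)⁻¹ * Λ)
      + (Fintype.card (ZMod q) : ℝ) * (2 * (T.card : ℝ)⁻¹) * (2 * (T.card : ℝ)⁻¹ * Λ) ^ K0)
      ≤ (2 + (J : ℝ)) ^ J * (2 * K0 * (2 ^ J * (2 * (s + 1) * C)) * (2 * θ) + 4 * 2 ^ K0 * θ) := by
    clear * - J K0 s C T Λ q θ b1 hK0 hs hC b2 hJ1
    gcongr
  clear * - q T B J θ s C K0 Λ b4; linarith

omit [NeZero q] in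
theorem trans (s K0 r : ℕ) (hs : 1 ≤ s) (hK0 : 1 ≤ K0) (hJ : 4 * K0 * s + 2 ≤ 2 ^ r) {C α : ℝ}
    (hC : 1 ≤ C) (hα : 0 < α) : ∃ δ : ℝ, 0 < δ ∧ ∀ c : ℝ, 0 < c → ∃ θ : ℝ, 0 < θ ∧
      ∀ (M q : ℕ) [NeZero q] (T Ω : Finset ℕ) (π : ℕ → ℝ) (ν : ℕ → ZMod q → ℝ)
        (G : ZMod q → ZMod q → ℝ) (Λ : ℝ) (φ : ℕ → ZMod q → Prop) [∀ z, DecidablePred (φ z)],
        q = 2 * M → 2 ≤ M → T ⊆ Icc 1 M → T.Nonempty → Rst s M C T → Sat M δ c T →
        Maj ZMod.val q (2 ^ r) s θ Λ Ω π ν G → 0 ≤ Λ → Λ ≤ θ * T.card →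
        M * (Λ / T.card) ^ K0 ≤ θ → (∀ z x, φ z x → M / 2 ≤ x.val ∧ x.val < M) →
        α * M ≤ ∑ z ∈ Ω, π z * ∑ x with φ z x, ν z x →
        ∃ z x y, φ z x ∧ φ z y ∧ ∃ t ∈ T, y.val = x.val + t := by
  refine ⟨(α / 8) ^ 2 / (4 * (24 / α) ^ 2), by positivity, fun c hc => ?_⟩
  set τ₀ : ℝ := ((α / 8) ^ 2 * c / (4 * (24 / α))) ^ 2 ^ r with hτ₀
  have hτ₀0 : 0 < τ₀ := by positivity
  set τ₁ : ℝ := τ₀ * α / (4 * (24 / α)) with hτ₁
  have hτ₁0 : 0 < τ₁ := by positivity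
  set C1 : ℝ := 2 * (s + 1) * C with hC1
  have hC10 : 0 < C1 := by positivity
  obtain ⟨ρ, hρ, hB⟩ := exists_bohr s C1 (√(τ₁ / (2 * C1))) (by positivity)
  set A : ℝ := 2 ^ 2 ^ r * (2 * (s + 1) * C) * (1 + ((2 ^ r : ℕ) : ℝ) ^ 2 *
    (2 ^ 2 ^ r * (2 * (s + 2) * C)) + (2 + (2 ^ r : ℕ)) ^ 2 ^ r * (4 * K0))
      + (2 + (2 ^ r : ℕ)) ^ 2 ^ r * (4 * 2 ^ K0) with hA
  have hA0 : 0 < A := by positivity
  refine ⟨min (1 / 2) (min (ρ / 27) (τ₁ / (2 * A))), by positivity, ?_⟩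
  intro M q _ T Ω π ν G Λ φ _ hq hM hT hne hR hS h hΛ hΛ1 hΛ2 hφ hmass
  set θ := min (1 / 2) (min (ρ / 27) (τ₁ / (2 * A))) with hθ
  have hθ0 : 0 < θ := by positivity
  have t1 : θ ≤ 1 / 2 := min_le_left _ _
  have t2 : θ ≤ ρ / 27 := (min_le_right _ _).trans (min_le_left _ _)
  have t3 : θ ≤ τ₁ / (2 * A) := (min_le_right _ _).trans (min_le_right _ _)
  have hM0 : (0 : ℝ) < M := by exact_mod_cast (show 0 < M by omega)
  have hks : s ≤ K0 * s := Nat.le_mul_of_pos_left _ hK0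
  have hr : 1 ≤ r := by
    rcases r with _ | r
    · simp at hJ
    · omega
  by_contra hcon
  push Not at hcon
  obtain ⟨B, hB1, hB2, hB3⟩ := hB q (mu T) (M / 2) (by omega) (by omega) (mu_nonneg T) (sum_mu hne)
    (mu_neg T) (mu_pow_le hq hs (by linarith only [hC, hθ0, t1]) hT hne hR)
  have hB4 : ρ * M / 3 ≤ B.card := by
    have : (M : ℝ) ≤ 3 * (M / 2 : ℕ) := by exact_mod_cast (show M ≤ 3 * (M / 2) by omega)
    linarith only [hB2, hρ, this, mul_nonneg_of_nonpos_of_nonpos (le_of_lt (Mathlib.Tactic.Linarith.sub_neg_of_lt hρ)) (Mathlib.Tactic.Linarith.sub_nonpos_of_le this)]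
  have hB5 : (0 : ℝ) < B.card := lt_of_lt_of_le (by positivity) hB4
  have hBne : B.Nonempty := card_pos.1 (by exact_mod_cast hB5)
  have m0 : ∑ z ∈ Ω, π z ≤ 2 := by
    have := (abs_le.1 (h.nodup [] (by simp) List.nodup_nil)).2
    simp only [List.map_nil, List.prod_nil, mul_one, List.toFinset_nil, offDiag_empty,
      sum_empty] at this
    linarith only [hθ0, t1, this]
  have m1 : ∑ z ∈ Ω, π z * ∑ x, (avg B *ᵥ ν z) x ^ 2 ≤ 6 * M := by
    clear * - Ω π q B ν θ Λ M r s G h K0 hJ hs hθ0 hΛ hq T hT hΛ1 ρ τ₁ A hρ τ₀ α c hα hc C hC hK0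
      hB5 hM t2 hB4 hM0 t1
    refine (second_moment h (by omega) hs hθ0.le hΛ B).trans ?_
    have e : (q : ℝ) = 2 * M := by exact_mod_cast hq
    have hd : (T.card : ℝ) ≤ M := by
      exact_mod_cast (card_le_card hT).trans_eq (by simp)
    have hΛ3 : Λ ≤ θ * M := hΛ1.trans (by gcongr)
    have : (B.card : ℝ)⁻¹ * (q * Λ + 4 * q ^ 2 * θ) ≤ 2 * M := by
      clear * - q B Λ θ M hB5 e ρ hΛ3 hM t2 hB4
      rw [inv_mul_le_iff₀ hB5, e]
      calc _ ≤ 2 * M * (θ * M) + 4 * (2 * M) ^ 2 * θ := by gcongr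
        _ = 18 * M ^ 2 * θ := by ring
        _ ≤ 18 * M ^ 2 * (ρ / 27) := by gcongr
        _ = ρ * M / 3 * (2 * M) := by ring
        _ ≤ _ := by gcongr
    rw [e] at this ⊢
    linarith only [hM0, this, t1, mul_nonneg_of_nonpos_of_nonpos (Mathlib.Tactic.Linarith.sub_nonpos_of_le (Mathlib.Tactic.Linarith.natCast_nonneg ℝ M)) (Mathlib.Tactic.Linarith.sub_nonpos_of_le t1)]
  have m2 : ∑ z ∈ Ω, π z * ((Kp T B * diagonal (ν z)) ^ 2 ^ r).trace ≤ τ₁ := by
    clear * - Ω π q T B ν r θ s C K0 τ₁ Λ G h M hq hs hK0 hJ hC hT hne hR hθ0 t1 hΛ hΛ1 hΛ2 C1 hB3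
      hks hC10 hτ₁0 A α c τ₀ t3 hα hc
    refine (mean_trace h hq hs hK0 (by linarith only [hJ]) hC hT hne hR hθ0.le t1 hΛ hΛ1 hΛ2 B).trans ?_
    have h1 := hB3 (2 ^ r) (by linarith only [hs, hJ, hks])
    rw [Real.sq_sqrt (by positivity)] at h1
    have h2 : τ₁ / (2 * C1) * C1 = τ₁ / 2 := by field_simp
    have h3 : θ * A ≤ τ₁ / 2 := by
      rw [le_div_iff₀ (by positivity)] at t3; linarith only [t3]
    rw [h2] at h1
    exact (add_le_add h1 h3).trans_eq (by ring)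
  have m3 := sum_le_sum fun z (_ : z ∈ Ω) => mul_le_mul_of_nonneg_left
    (point hq hr hT hne (a := α / 8) (k := 24 / α) (by positivity) (by positivity) hc hS hBne hB1
      (ν z) (h.ν0 z) (φ z) (hφ z) (hcon z)) (h.π0 z)
  have m4 : ∑ z ∈ Ω, π z * (α / 8 * M + (∑ x, (avg B *ᵥ ν z) x ^ 2) / (24 / α)
      + 24 / α * M * ((Kp T B * diagonal (ν z)) ^ 2 ^ r).trace / τ₀)
      = α / 8 * M * ∑ z ∈ Ω, π z + α / 24 * ∑ z ∈ Ω, π z * ∑ x, (avg B *ᵥ ν z) x ^ 2
        + 24 / α * M / τ₀ * ∑ z ∈ Ω, π z * ((Kp T B * diagonal (ν z)) ^ 2 ^ r).trace := by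
    clear * - Ω π α M q B ν T r τ₀ hτ₀0 hα
    rw [mul_sum, mul_sum, mul_sum, ← sum_add_distrib, ← sum_add_distrib]
    exact sum_congr rfl fun z _ => by field_simp
  have m5 : 24 / α * M / τ₀ * τ₁ = α / 4 * M := by rw [hτ₁]; field_simp
  have m6 := mul_le_mul_of_nonneg_left m0 (show 0 ≤ α / 8 * M by positivity)
  have m7 := mul_le_mul_of_nonneg_left m1 (show 0 ≤ α / 24 by positivity)
  have m8 := mul_le_mul_of_nonneg_left m2 (show 0 ≤ 24 / α * M / τ₀ by positivity)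
  have m9 : 0 < α * M := by positivity
  rw [m4] at m3
  clear * - α M Ω π q φ ν B τ₀ T r τ₁ c hmass m3 m5 m6 m7 m8 m9; linarith

end

end Pool.Agent.Work.MP_89ab3c_nt
end
end
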