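import Pool.Agent.Lib.ANT.MultiSieve
import Pool.Agent.Lib.ANT.SieveSums
import Mathlib
import Pool.Agent.Lib.ANT.SieveClasses
import Pool.Agent.Work.MP_89ab3c_nt.Sing
import Pool.Agent.Work.MP_89ab3c_nt.Trans

-- merged part: Pool.Agent.Work.MP_89ab3c_nt.Major
section
-- merged part: Pool.Agent.Work.MP_89ab3c_nt.Lam
section
/-!
# The Selberg factor of the majorant: correlations and moments
-/

set_option autoImplicit false

namespace Pool.Agent.Work.MP_89ab3c_nt

open Finset Pool.Agent.Lib.ANT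

noncomputable section

variable (P : Finset ℕ) (R : ℕ)

/-- indicator of level at most `R` -/
def lev (T : P → Bool) : ℝ := if bar Subtype.val T ≤ R then 1 else 0

/-- the sieve function of one form -/
def Lam (D : P → Bool) : ℝ :=
  ∑ T : P → Bool, lev P R T * ∏ p, if T p then (((p : ℕ) : ℝ)⁻¹ - if D p then 1 else 0) else 1

/-- its value at a rough integer -/
def Gp : ℝ := Lam P R fun _ => false

/-- the Euler factor -/
def UU : ℝ := ∏ p : P, (1 + ((p : ℕ) : ℝ)⁻¹)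

/-- number of divisors of level at most `R` -/
def tau (D : P → Bool) : ℝ := ∑ T : P → Bool, lev P R T * ∏ p, if T p ∧ ¬ D p then 0 else 1

/-- divisibility pattern -/
def DD (z c : ℕ) (p : P) : Bool := decide (z % p = c % p)

/-- distribution of `S` in residue classes to moduli composed of primes of `P` -/
def Dist (S : Finset ℕ) (Mv E1 E2 : ℝ) : Prop :=
  ∀ P1 ⊆ P, ∀ b : ℕ → ℕ, (∀ p ∈ P1, b p < p) →
    |((S.filter fun z => ∀ p ∈ P1, z % p = b p).card : ℝ) - Mv * ∏ p ∈ P1, (p : ℝ)⁻¹|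
      ≤ E1 * ∏ p ∈ P1, (p : ℝ)⁻¹ + E2

variable {P R}

lemma lev_nonneg (T : P → Bool) : 0 ≤ lev P R T := by unfold lev; split_ifs <;> norm_num

lemma lev_le (T : P → Bool) : lev P R T ≤ 1 := by unfold lev; split_ifs <;> norm_num

lemma Gp_eq : Gp P R = ∑ T : P → Bool, lev P R T * ((bar Subtype.val T : ℕ) : ℝ)⁻¹ := by
  simp [Gp, Lam, inv_bar]

lemma one_le_Gp (hR : 1 ≤ R) : 1 ≤ Gp P R := by
  rw [Gp_eq]
  refine le_trans ?_ (single_le_sum (fun T _ => mul_nonneg (lev_nonneg T) (by positivity))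
    (mem_univ fun _ => false))
  simp [lev, bar, hR]

lemma one_le_UU : 1 ≤ UU P :=
  prod_induction _ (1 ≤ ·) (fun _ _ => one_le_mul_of_one_le_of_one_le) le_rfl
    fun p _ => le_add_of_nonneg_right (by positivity)

lemma prod_le_UU (n : ℕ) : ∏ p : P, (1 + n * ((p : ℕ) : ℝ)⁻¹) ≤ UU P ^ n := by
  rw [UU, ← prod_pow]
  exact prod_le_prod (fun p _ => by positivity) fun p _ =>
    one_add_mul_le_pow (le_trans (by norm_num) (inv_nonneg.2 (Nat.cast_nonneg _))) n

lemma prod_sub (F : P → Prop) [DecidablePred F] (g : ℕ → ℝ) :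
    ∏ p ∈ (univ.filter F).map (Function.Embedding.subtype _), g p
      = ∏ p : P, if F p then g p else 1 := by
  rw [prod_map, prod_filter]; rfl

lemma Dist.apply {S : Finset ℕ} {Mv E1 E2 : ℝ} (h : Dist P S Mv E1 E2) (hP : ∀ p ∈ P, 0 < p)
    (F : P → Prop) [DecidablePred F] (b : P → ℕ) :
    |((S.filter fun z => ∀ p, F p → z % p = b p % p).card : ℝ)
        - Mv * ∏ p : P, if F p then ((p : ℕ) : ℝ)⁻¹ else 1|
      ≤ E1 * (∏ p : P, if F p then ((p : ℕ) : ℝ)⁻¹ else 1) + E2 := by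
  have := h ((univ.filter F).map (Function.Embedding.subtype _))
    (fun p hp => by obtain ⟨a, -, rfl⟩ := mem_map.1 hp; exact a.2)
    (fun p => if hp : p ∈ P then b ⟨p, hp⟩ % p else 0) (fun p hp => by
      obtain ⟨a, -, rfl⟩ := mem_map.1 hp
      simpa using Nat.mod_lt _ (hP _ a.2))
  rw [prod_sub F fun p => (p : ℝ)⁻¹] at this
  convert this using 5
  refine filter_congr fun z _ => ⟨fun h p hp => ?_, fun h p hp => ?_⟩
  · obtain ⟨a, ha, rfl⟩ := mem_map.1 hp
    simpa using h a (mem_filter.1 ha).2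
  · simpa using h p (mem_map.2 ⟨p, by simpa using hp, rfl⟩)

theorem corr1 {ι : Type} [Fintype ι] [DecidableEq ι] (hP : ∀ p ∈ P, 2 ≤ p) {S : Finset ℕ}
    {Mv E1 E2 ε : ℝ} (h : Dist P S Mv E1 E2) (hE1 : 0 ≤ E1) (hE2 : 0 ≤ E2) (c : ι → ℕ)
    (hc : ∀ p ∈ P, ∀ i j, c i % p = c j % p → i = j)
    (hε : 4 ^ Fintype.card ι * (6 * Fintype.card ι + 3) * ∑ p : P, (((p : ℕ) : ℝ)⁻¹) ^ 2 ≤ ε)
    (hε1 : ε ≤ 1) :
    |∑ z ∈ S, ∏ i, Lam P R (DD P z (c i)) ^ 2 - Mv * Gp P R ^ Fintype.card ι|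
      ≤ UU P ^ (7 * Fintype.card ι) * (E1 + (R : ℝ) ^ (2 * Fintype.card ι) * E2)
        + |Mv| * UU P ^ Fintype.card ι * (2 * ε) := by
  set n := Fintype.card ι with hn
  have key := multi_sieve (α := P) (ι := ι) Subtype.val (fun p => hP p p.2) S (fun _ => 1)
    (fun z i => DD P z (c i))
    (fun z _ p i j hi hj => hc p p.2 i j (by simp only [DD, decide_eq_true_eq] at hi hj; omega))
    (fun p => ((p : ℕ) : ℝ)⁻¹) (fun p => by simp) (fun T => ∏ i, lev P R (T i)) (Ym := 1)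
    (fun T => by
      rw [abs_of_nonneg (prod_nonneg fun i _ => lev_nonneg _)]
      exact prod_le_one (fun i _ => lev_nonneg _) fun i _ => lev_le _) (R ^ n)
    (fun T hT => by
      rw [hn, ← card_univ, ← prod_const]
      refine prod_le_prod' fun i _ => ?_
      by_contra hi
      exact hT (prod_eq_zero (mem_univ i) (if_neg hi))) Mv
    (fun d => E1 * (∏ p : P, if (d p).isSome then ((p : ℕ) : ℝ)⁻¹ else 1) + E2)
    (fun d _ => by
      have := h.apply (fun p hp => by have := hP p hp; omega) (fun p => (d p).isSome)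
        fun p => (d p).elim 0 c
      convert this using 3
      rw [sum_const, nsmul_eq_mul, mul_one]
      congr 2
      refine filter_congr fun z _ => forall_congr' fun p => ?_
      cases d p <;> simp [DD]) hε hε1
  have e1 : ∀ z, sieveFn Subtype.val (fun T => ∏ i, lev P R (T i)) (fun i => DD P z (c i)) ^ 2
      = ∏ i, Lam P R (DD P z (c i)) ^ 2 := fun z => by
    rw [prod_pow, sieveFn]
    simp only [Lam, Fintype.prod_sum, prod_mul_distrib]
  have e2 : ∑ T : ι → P → Bool, (∏ i, lev P R (T i)) ^ 2 *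
      ∏ i, ((bar Subtype.val (T i) : ℕ) : ℝ)⁻¹ = Gp P R ^ n := by
    rw [hn, ← card_univ, ← prod_const, Gp_eq, Fintype.prod_sum]
    refine sum_congr rfl fun T _ => ?_
    rw [← prod_pow, ← prod_mul_distrib]
    refine prod_congr rfl fun i _ => ?_
    unfold lev; split_ifs <;> simp
  simp only [e1, e2, one_mul, one_pow] at key
  refine key.trans (add_le_add ?_ le_rfl)
  have hU := one_le_UU (P := P)
  have e3 : ∑ d : P → Option ι, (∏ p, if (d p).isSome then (5 : ℝ) else 1) *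
      ∏ p : P, (if (d p).isSome then ((p : ℕ) : ℝ)⁻¹ else 1) ≤ UU P ^ (5 * n) := by
    refine le_trans (le_of_eq ?_) (prod_le_UU _)
    simp only [← prod_mul_distrib]
    rw [← Fintype.prod_sum fun (p : P) (u : Option ι) =>
      (if u.isSome then (5 : ℝ) else 1) * if u.isSome then ((p : ℕ) : ℝ)⁻¹ else 1]
    refine prod_congr rfl fun p _ => ?_
    rw [Fintype.sum_option]
    simp only [Option.isSome_none, Bool.false_eq_true, if_false, Option.isSome_some, if_true,
      sum_const, card_univ, nsmul_eq_mul, ← hn]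
    push_cast; ring
  rw [show 7 * n = n * 2 + 5 * n by ring, pow_add, pow_mul, mul_assoc]
  refine mul_le_mul_of_nonneg_left ?_ (by positivity)
  calc _ ≤ ∑ d : P → Option ι with barO Subtype.val d ≤ (R ^ n) ^ 2,
        ((∏ p, if (d p).isSome then (5 : ℝ) else 1) *
          ∏ p : P, (if (d p).isSome then ((p : ℕ) : ℝ)⁻¹ else 1)) * (E1 + (R : ℝ) ^ (2 * n) * E2) := by
        refine sum_le_sum fun d hd => ?_
        rw [mul_assoc]
        refine mul_le_mul_of_nonneg_left ?_ (prod_nonneg fun p _ => by split_ifs <;> norm_num)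
        have h1 : ((barO Subtype.val d : ℕ) : ℝ) ≤ (R : ℝ) ^ (2 * n) := by
          rw [mul_comm, pow_mul]; exact_mod_cast (mem_filter.1 hd).2
        have h2 : ((barO Subtype.val d : ℕ) : ℝ) *
            ∏ p : P, (if (d p).isSome then ((p : ℕ) : ℝ)⁻¹ else 1) = 1 := by
          rw [barO, Nat.cast_prod, ← prod_mul_distrib]
          refine prod_eq_one fun p _ => ?_
          have : ((p : ℕ) : ℝ) ≠ 0 := by have := hP p p.2; positivity
          split_ifs <;> simp [this]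
        have h3 : 0 ≤ ∏ p : P, (if (d p).isSome then ((p : ℕ) : ℝ)⁻¹ else 1) :=
          prod_nonneg fun p _ => by split_ifs <;> positivity
        linarith only [h1, h3, hE2, h2, mul_le_mul_of_nonneg_right (mul_le_mul_of_nonneg_right h1 h3) hE2, Mathlib.Tactic.Linarith.mul_zero_eq (Mathlib.Tactic.Linarith.sub_nonpos_of_le hE2) (sub_eq_zero_of_eq h2)]
    _ ≤ _ := by
        rw [← sum_mul]
        refine mul_le_mul_of_nonneg_right (le_trans (sum_le_sum_of_subset_of_nonneg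
          (filter_subset _ _) fun d _ _ => mul_nonneg (prod_nonneg fun p _ => ?_)
            (prod_nonneg fun p _ => ?_)) e3) (by positivity) <;> split_ifs <;> positivity

lemma abs_Lam_le (hP : ∀ p ∈ P, 2 ≤ p) (D : P → Bool) : |Lam P R D| ≤ UU P * tau P R D := by
  set ρ : P → ℝ := fun p => ((p : ℕ) : ℝ)⁻¹ with hρ
  have hρ0 : ∀ p, 0 ≤ ρ p := fun p => by positivity
  have hρ1 : ∀ p, ρ p ≤ 1 := fun p => inv_le_one_of_one_le₀ (by
    exact_mod_cast le_trans one_le_two (hP p p.2))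
  set H : P → Bool → Bool → ℝ := fun p t' t =>
    if D p then (if t = t' then 1 else 0) else if t' then 0 else if t then ρ p else 1 with hH
  have hH0 : ∀ p t' t, 0 ≤ H p t' t := fun p t' t => by
    simp only [hH]; split_ifs <;> first | exact hρ0 p | norm_num
  calc _ ≤ ∑ T : P → Bool, ∑ T' : P → Bool, lev P R T' * ∏ p, H p (T' p) (T p) := by
        refine (abs_sum_le_sum_abs _ _).trans (sum_le_sum fun T _ => ?_)
        refine le_trans ?_ (single_le_sum (f := fun T' : P → Bool =>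
          lev P R T' * ∏ p, H p (T' p) (T p)) (fun T' _ => mul_nonneg (lev_nonneg _)
            (prod_nonneg fun p _ => hH0 _ _ _)) (mem_univ fun p => T p && D p))
        rw [abs_mul, abs_of_nonneg (lev_nonneg _), abs_prod]
        refine mul_le_mul ?_ (prod_le_prod (fun _ _ => abs_nonneg _) fun p _ => ?_)
          (prod_nonneg fun _ _ => abs_nonneg _) (lev_nonneg _)
        · have : bar Subtype.val (fun p => T p && D p) ≤ bar Subtype.val T :=
            prod_le_prod' fun p _ => by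
              have := hP p p.2
              by_cases h1 : T p <;> by_cases h2 : D p <;> simp [h1, h2]
              omega
          unfold lev
          split_ifs <;> first | omega | norm_num
        · have h0 := hρ0 p
          have h1 := hρ1 p
          simp only [hH]
          cases T p <;> cases D p <;> simp [hρ] at h0 h1 ⊢
          rw [abs_le]; constructor <;> linarith only [h1, inv_nonneg.2 (Nat.cast_nonneg (α := ℝ) p)]
    _ ≤ _ := by
        rw [sum_comm, tau, mul_sum]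
        refine sum_le_sum fun T' _ => ?_
        rw [← mul_sum, mul_left_comm, ← Fintype.prod_sum fun p t => H p (T' p) t, UU,
          ← prod_mul_distrib]
        refine mul_le_mul_of_nonneg_left (prod_le_prod (fun p _ => sum_nonneg fun _ _ => hH0 _ _ _)
          fun p _ => ?_) (lev_nonneg _)
        simp only [hH]
        cases T' p <;> cases D p <;> simp [hρ, add_comm]

lemma sum_lev_le (hP : ∀ p ∈ P, 2 ≤ p) : ∑ T : P → Bool, lev P R T ≤ R * UU P := by
  have e : UU P = ∑ T : P → Bool, ((bar Subtype.val T : ℕ) : ℝ)⁻¹ := by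
    simp only [inv_bar]
    rw [← Fintype.prod_sum fun (p : P) (t : Bool) => if t then ((p : ℕ) : ℝ)⁻¹ else 1]
    simp [UU, add_comm]
  rw [e, mul_sum]
  refine sum_le_sum fun T _ => ?_
  have h0 : 0 < bar Subtype.val T := prod_pos fun p _ => by
    have := hP p p.2
    split_ifs <;> omega
  unfold lev
  split_ifs with h
  · rw [← div_eq_mul_inv, one_le_div (by exact_mod_cast h0)]; exact_mod_cast h
  · positivity

lemma tau_moment {ι : Type} [Fintype ι] [DecidableEq ι] (hP : ∀ p ∈ P, 2 ≤ p) {S : Finset ℕ}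
    {Mv E1 E2 : ℝ} (h : Dist P S Mv E1 E2) (hM : 0 ≤ Mv) (hE1 : 0 ≤ E1) (hE2 : 0 ≤ E2)
    (c : ι → ℕ) : ∑ z ∈ S, ∏ i, tau P R (DD P z (c i))
      ≤ (Mv + E1) * UU P ^ 2 ^ Fintype.card ι + E2 * (R * UU P) ^ Fintype.card ι := by
  have h1 : ∀ T : ι → P → Bool,
      ∑ z ∈ S, ∏ i, ∏ p, (if T i p ∧ ¬ DD P z (c i) p then (0 : ℝ) else 1)
        ≤ (Mv + E1) * (∏ p : P, if ∃ i, T i p then ((p : ℕ) : ℝ)⁻¹ else 1) + E2 := by
    intro T
    have h2 := (abs_le.1 (h.apply (fun p hp => by have := hP p hp; omega) (fun p => ∃ i, T i p)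
      fun p => if hp : ∃ i, T i p then c hp.choose else 0)).2
    rw [sub_le_iff_le_add', ← add_assoc, ← add_mul] at h2
    refine le_trans ?_ h2
    rw [card_filter]
    push_cast
    refine sum_le_sum fun z _ => ?_
    split_ifs with h3
    · exact prod_le_one (fun i _ => prod_nonneg fun p _ => by split_ifs <;> norm_num)
        fun i _ => prod_le_one (fun p _ => by split_ifs <;> norm_num)
          fun p _ => by split_ifs <;> norm_num
    · push Not at h3
      obtain ⟨p, hp, h3⟩ := h3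
      rw [dif_pos hp] at h3
      refine le_of_eq (prod_eq_zero (mem_univ hp.choose) (prod_eq_zero (mem_univ p) (if_pos ?_)))
      exact ⟨hp.choose_spec, by simpa [DD] using h3⟩
  have h2 : ∑ T : ι → P → Bool, (∏ p : P, if ∃ i, T i p then ((p : ℕ) : ℝ)⁻¹ else 1)
      ≤ UU P ^ 2 ^ Fintype.card ι := by
    refine le_trans ?_ (prod_le_UU _)
    rw [← (Equiv.piComm fun (_ : P) (_ : ι) => Bool).sum_comp]
    refine le_trans (le_of_eq (Fintype.prod_sum fun (p : P) (s : ι → Bool) =>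
      if ∃ i, s i then ((p : ℕ) : ℝ)⁻¹ else 1).symm) (prod_le_prod (fun p _ =>
        sum_nonneg fun s _ => by split_ifs <;> positivity) fun p _ => ?_)
    calc _ ≤ ∑ s : ι → Bool, ((if s = fun _ => false then 1 else 0) + ((p : ℕ) : ℝ)⁻¹) := by
          refine sum_le_sum fun s _ => ?_
          have : 0 ≤ ((p : ℕ) : ℝ)⁻¹ := by positivity
          by_cases hs : ∃ i, s i
          · rw [if_pos hs]; split_ifs <;> linarith only []
          · rw [if_neg hs, if_pos (funext fun i => by simpa using fun h => hs ⟨i, h⟩)]; linarith only [this]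
      _ = _ := by simp [sum_add_distrib]
  have h3 : ∑ T : ι → P → Bool, ∏ i, lev P R (T i) ≤ (R * UU P) ^ Fintype.card ι := by
    rw [← Fintype.prod_sum fun (_ : ι) (T : P → Bool) => lev P R T, prod_const, card_univ]
    exact pow_le_pow_left₀ (sum_nonneg fun _ _ => lev_nonneg _) (sum_lev_le hP) _
  simp only [tau, Fintype.prod_sum, prod_mul_distrib]
  rw [sum_comm]
  calc _ ≤ ∑ T : ι → P → Bool, ((Mv + E1) * (∏ p : P, if ∃ i, T i p then ((p : ℕ) : ℝ)⁻¹ else 1)
        + E2 * ∏ i, lev P R (T i)) := by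
        refine sum_le_sum fun T _ => ?_
        have a0 : 0 ≤ ∏ i, lev P R (T i) := prod_nonneg fun i _ => lev_nonneg _
        have a1 : ∏ i, lev P R (T i) ≤ 1 := prod_le_one (fun i _ => lev_nonneg _) fun i _ => lev_le _
        have a2 : 0 ≤ (Mv + E1) * ∏ p : P, if ∃ i, T i p then ((p : ℕ) : ℝ)⁻¹ else 1 :=
          mul_nonneg (by positivity) (prod_nonneg fun p _ => by split_ifs <;> positivity)
        rw [← mul_sum]
        linarith only [h1, a0, a1, a2, mul_le_mul_of_nonneg_left (h1 T) a0, mul_le_mul_of_nonneg_right a1 a2]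
    _ ≤ _ := by
        rw [sum_add_distrib, ← mul_sum, ← mul_sum]
        gcongr

theorem corr2 {ι : Type} [Fintype ι] [DecidableEq ι] (hP : ∀ p ∈ P, 2 ≤ p) {S : Finset ℕ}
    {Mv E1 E2 : ℝ} (h : Dist P S Mv E1 E2) (hM : 0 ≤ Mv) (hE1 : 0 ≤ E1) (hE2 : 0 ≤ E2)
    (c : ι → ℕ) : ∑ z ∈ S, ∏ i, Lam P R (DD P z (c i)) ^ 2 ≤ UU P ^ (2 * Fintype.card ι) *
      ((Mv + E1) * UU P ^ 4 ^ Fintype.card ι + E2 * (R * UU P) ^ (2 * Fintype.card ι)) := by
  have key := tau_moment (R := R) hP h hM hE1 hE2 fun a : Fin 2 × ι => c a.2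
  rw [Fintype.card_prod, Fintype.card_fin, pow_mul 2 2, show 2 ^ 2 = 4 by norm_num] at key
  refine le_trans ?_ (mul_le_mul_of_nonneg_left key (pow_nonneg (zero_le_one.trans one_le_UU) _))
  rw [mul_sum]
  refine sum_le_sum fun z _ => ?_
  rw [Fintype.prod_prod_type_right, pow_mul, ← card_univ, ← prod_const, ← prod_mul_distrib]
  refine prod_le_prod (fun _ _ => sq_nonneg _) fun i _ => ?_
  simp only [prod_const, card_univ, Fintype.card_fin]
  rw [← mul_pow, ← sq_abs]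
  exact pow_le_pow_left₀ (abs_nonneg _) (abs_Lam_le hP _) 2

lemma one_add_inv_pow_le {y L n : ℕ} (hy : 2 * L ≤ y) (hn : n ≤ L) :
    (1 + (y : ℝ)⁻¹) ^ n ≤ 2 := by
  have h1 : (1 + (y : ℝ)⁻¹) ^ n ≤ Real.exp (n * (y : ℝ)⁻¹) := by
    rw [Real.exp_nat_mul]
    exact pow_le_pow_left₀ (by positivity) (by linarith only [Real.add_one_le_exp (y : ℝ)⁻¹]) n
  have h2 : n * (y : ℝ)⁻¹ ≤ 1 / 2 := by
    rcases Nat.eq_zero_or_pos y with rfl | h0
    · simp
    · rw [← div_eq_mul_inv, div_le_div_iff₀ (by exact_mod_cast h0) two_pos]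
      exact_mod_cast (show n * 2 ≤ 1 * y by omega)
  refine h1.trans ((Real.exp_le_exp.2 (h2.trans ?_)).trans_eq (Real.exp_log two_pos))
  linarith only [Real.log_two_gt_d9]

lemma card_le_of_prod_le {T : Finset ℕ} (hT : ∀ p ∈ T, 2 ≤ p) {L : ℕ} (h : ∏ p ∈ T, p ≤ 2 ^ L) :
    T.card ≤ L :=
  (Nat.pow_le_pow_iff_right one_lt_two).1 ((pow_card_le_prod T _ 2 hT).trans h)

theorem log_le_Gp {y R W L : ℕ} (hy1 : 1 ≤ y) (hyR : y ≤ R) (hW : 1 ≤ W) (hWL : W ≤ 2 ^ L)
    (hRL : R ≤ 2 ^ L) (hy : 2 * L ≤ y) :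
    Real.log R * ∏ p ∈ (Ioc 0 y).filter Nat.Prime, (1 - (p : ℝ)⁻¹)
      ≤ 4 * Gp ((Ioc y R).filter fun p => p.Prime ∧ ¬ p ∣ W) R := by
  set Ps := (Ioc 0 R).filter Nat.Prime with hPs
  set P := (Ioc y R).filter fun p => p.Prime ∧ ¬ p ∣ W with hP
  have hpr : ∀ p ∈ Ps, p.Prime := fun p hp => (mem_filter.1 hp).2
  have hg : ∀ p : ℕ, y < p → 0 ≤ ((p : ℝ) - 1)⁻¹ ∧ ((p : ℝ) - 1)⁻¹ ≤ (y : ℝ)⁻¹ := fun p hp => by
    have h1 : (y : ℝ) + 1 ≤ p := by exact_mod_cast hp
    have h2 : (0 : ℝ) < y := by exact_mod_cast hy1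
    exact ⟨inv_nonneg.2 (by linarith only [h1, h2]), inv_anti₀ h2 (by linarith only [h1])⟩
  have hg0 : ∀ p ∈ Ps, 0 ≤ ((p : ℝ) - 1)⁻¹ := fun p hp =>
    inv_nonneg.2 (sub_nonneg.2 (by exact_mod_cast (hpr p hp).one_le))
  have h1 := log_le_sqfSum Ps hpr R (by positivity) fun p hp hpR =>
    mem_filter.2 ⟨mem_Ioc.2 ⟨hp.pos, by exact_mod_cast hpR⟩, hp⟩
  have h2 := sqfSum_le_mul_prod Ps (fun p hp => (hpr p hp).pos) _ hg0 (fun p => p ∉ P) R
  have hsub : Ps.filter (fun p => p ∈ P) = P := by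
    ext p; simp only [hPs, hP, mem_filter, mem_Ioc]
    exact ⟨fun h => h.2, fun h => ⟨⟨⟨h.2.1.pos, h.1.2⟩, h.2.1⟩, h⟩⟩
  have h3 : sqfSum Ps (fun p => if p ∉ P then 0 else ((p : ℝ) - 1)⁻¹) R ≤ 2 * Gp P R := by
    rw [← sqfSum_filter_of_eq_zero Ps _ (fun p => p ∈ P) fun p _ hp => if_pos hp, hsub, Gp_eq,
      mul_sum, sqfSum]
    rw [← sum_nbij' (s := univ) (t := P.powerset)
      (fun b : P → Bool => (univ.filter fun p => b p).map (Function.Embedding.subtype _))
      (fun T p => decide (p.1 ∈ T)) (fun b _ => ?_) (fun _ _ => mem_univ _) (fun b _ => ?_)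
      (fun T hT => ?_) (fun _ _ => rfl)]
    · refine sum_le_sum fun b _ => ?_
      set T := (univ.filter fun p => b p).map (Function.Embedding.subtype fun p => p ∈ P) with hT
      have hTP : ∀ p ∈ T, p ∈ P := fun p hp => by obtain ⟨a, -, rfl⟩ := mem_map.1 hp; exact a.2
      have e : bar Subtype.val b = ∏ p ∈ T, p := by rw [hT, prod_map, prod_filter]; rfl
      rw [lev, e]
      simp only [Nat.cast_le]
      split_ifs with h
      · have hc := card_le_of_prod_le (fun p hp => (mem_filter.1 (hTP p hp)).2.1.two_le)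
          (h.trans hRL)
        rw [one_mul, Nat.cast_prod, ← prod_inv_distrib]
        refine le_trans ?_ (mul_le_mul_of_nonneg_right (one_add_inv_pow_le hy hc)
          (prod_nonneg fun _ _ => by positivity))
        rw [← prod_const, ← prod_mul_distrib]
        refine prod_le_prod (fun p hp => ?_) fun p hp => ?_
        · rw [if_neg (not_not.2 (hTP p hp))]
          exact (hg p (mem_Ioc.1 (mem_filter.1 (hTP p hp)).1).1).1
        · rw [if_neg (not_not.2 (hTP p hp))]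
          have hp1 := (mem_Ioc.1 (mem_filter.1 (hTP p hp)).1).1
          have hp2 : (1 : ℝ) < p := by exact_mod_cast lt_of_le_of_lt hy1 hp1
          have : ((p : ℝ) - 1)⁻¹ = (1 + ((p : ℝ) - 1)⁻¹) * (p : ℝ)⁻¹ := by
            have : (p : ℝ) - 1 ≠ 0 := by linarith only [hp2]
            field_simp; ring
          rw [this]
          exact mul_le_mul_of_nonneg_right (by linarith only [hg, hp1, (hg p hp1).2]) (by positivity)
      · simp
    · exact mem_powerset.2 fun p hp => by obtain ⟨a, -, rfl⟩ := mem_map.1 hp; exact a.2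
    · funext p; simp
    · ext p
      simp only [mem_map, mem_filter, mem_univ, true_and, decide_eq_true_eq,
        Function.Embedding.coe_subtype, Subtype.exists, exists_and_right, exists_eq_right]
      exact ⟨fun h => h.2, fun h => ⟨mem_powerset.1 hT h, h⟩⟩
  have h4 : (∏ p ∈ Ps.filter (fun p => p ∉ P), (1 + ((p : ℝ) - 1)⁻¹)) *
      ∏ p ∈ (Ioc 0 y).filter Nat.Prime, (1 - (p : ℝ)⁻¹) ≤ 2 := by
    have e : Ps.filter (fun p => p ∉ P)
        = (Ioc 0 y).filter Nat.Prime ∪ (Ioc y R).filter fun p => p.Prime ∧ p ∣ W := by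
      ext p; simp only [hPs, hP, mem_filter, mem_Ioc, mem_union]
      grind
    rw [e, prod_union (disjoint_left.2 fun p h1 h2 => by
      have := (mem_Ioc.1 (mem_filter.1 h1).1).2
      have := (mem_Ioc.1 (mem_filter.1 h2).1).1
      omega), mul_right_comm, ← prod_mul_distrib, prod_eq_one, one_mul]
    · have hc : ((Ioc y R).filter fun p => p.Prime ∧ p ∣ W).card ≤ L := by
        refine card_le_of_prod_le (fun p hp => (mem_filter.1 hp).2.1.two_le)
          (le_trans (Nat.le_of_dvd hW ?_) hWL)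
        exact Finset.prod_primes_dvd W (fun p hp => (mem_filter.1 hp).2.1.prime)
          fun p hp => (mem_filter.1 hp).2.2
      refine le_trans ?_ (one_add_inv_pow_le hy hc)
      rw [← prod_const]
      refine prod_le_prod (fun p hp => ?_) fun p hp => ?_ <;>
        linarith only [hg, hp, hg p (mem_Ioc.1 (mem_filter.1 hp).1).1]
    · intro p hp
      have hp2 : (1 : ℝ) < p := by exact_mod_cast (mem_filter.1 hp).2.one_lt
      have : (p : ℝ) - 1 ≠ 0 := by linarith only [hp2]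
      field_simp; ring
  have h5 : 0 ≤ ∏ p ∈ (Ioc 0 y).filter Nat.Prime, (1 - (p : ℝ)⁻¹) := prod_nonneg fun p hp =>
    sub_nonneg.2 (inv_le_one_of_one_le₀ (by exact_mod_cast (mem_filter.1 hp).2.one_le))
  have h6 : 0 ≤ ∏ p ∈ Ps.filter (fun p => p ∉ P), (1 + ((p : ℝ) - 1)⁻¹) :=
    prod_nonneg fun p hp => by linarith only [hg0, hp, hg0 p (mem_filter.1 hp).1]
  have h7 : 1 ≤ Gp P R := one_le_Gp (by omega)
  calc _ ≤ 2 * Gp P R * (∏ p ∈ Ps.filter (fun p => p ∉ P), (1 + ((p : ℝ) - 1)⁻¹)) *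
        ∏ p ∈ (Ioc 0 y).filter Nat.Prime, (1 - (p : ℝ)⁻¹) :=
        mul_le_mul_of_nonneg_right (h1.trans (h2.trans (mul_le_mul_of_nonneg_right h3 h6))) h5
    _ ≤ 2 * Gp P R * 2 := by rw [mul_assoc]; gcongr
    _ = _ := by ring

end

end Pool.Agent.Work.MP_89ab3c_nt
end

-- merged part: Pool.Agent.Work.MP_89ab3c_nt.Brun
section
/-!
# Brun's pure sieve with extra congruence conditions

For `z` let `A z = P0.filter (z % p ∈ ω p)`.  Bonferroni
(`Int.alternating_sum_range_choose_eq_choose`, `choose (n-1) m ≤ choose n (m+1)`):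
`|[A = ∅] - ∑ S ⊆ A, |S| ≤ m, (-1)^|S|| ≤ #{S ⊆ A : |S| = m+1}`.  For `S ⊆ P0` the number of `z` with
`S ⊆ A z` and the conditions on `P1` is `Z ∏_S (|ω p|/p) ∏_{P1} 1/p + O(∏_S |ω p|)`
(`abs_card_mod_mem_sub_le`, `card_range_prod_primes` on `S ∪ P1`).  `∏ (1 - g p) = ∑_S (-1)^|S| g_S`.
Tails by Rankin: `∑_{|S| > m} g_S ≤ e^(-m-1) ∏ (1 + e g p) ≤ exp (-m + 3 κ σ)`; remainders:
`∏_S |ω p| = g_S ∏_S p ≤ y^(m+1) g_S` and `∑_S g_S ≤ exp (κ σ)`.
-/

set_option autoImplicit false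

namespace Pool.Agent.Work.MP_89ab3c_nt

open Finset

namespace BrunAux

/-- truncated alternating sign -/
noncomputable def sg (j k : ℕ) : ℝ := if k ≤ j then (-1) ^ k else 0

lemma bonf (A : Finset ℕ) (j : ℕ) :
    (-1 : ℝ) ^ j * (if A = ∅ then 1 else 0) ≤ (-1) ^ j * ∑ S ∈ A.powerset, sg j S.card := by
  rcases A.eq_empty_or_nonempty with rfl | ⟨a, ha⟩
  · simp [sg]
  · rw [if_neg (ne_empty_of_mem ha), mul_zero, ← insert_erase ha,
      sum_powerset_insert (notMem_erase a A), ← sum_add_distrib, mul_sum]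
    refine sum_nonneg fun S hS => ?_
    rw [card_insert_of_notMem fun h => notMem_erase a A (mem_powerset.1 hS h)]
    unfold sg
    rcases lt_trichotomy S.card j with h | h | h
    · rw [if_pos h.le, if_pos (Nat.succ_le_of_lt h), pow_succ]
      simp
    · rw [if_pos h.le, if_neg (by omega), h, add_zero]
      exact mul_self_nonneg _
    · rw [if_neg (by omega), if_neg (by omega)]
      simp

lemma count {S P1 : Finset ℕ} (h0 : ∀ p ∈ S, p.Prime) (h1 : ∀ p ∈ P1, p.Prime)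
    (hd : Disjoint S P1) {ω : ℕ → Finset ℕ} (hω : ∀ p ∈ S, ω p ⊆ range p) {b : ℕ → ℕ}
    (hb : ∀ p ∈ P1, b p < p) (Z : ℕ) :
    |(((Ioc 0 Z).filter fun z => (∀ p ∈ S, z % p ∈ ω p) ∧ ∀ p ∈ P1, z % p = b p).card : ℝ)
      - Z * (∏ p ∈ P1, (p : ℝ)⁻¹) * ∏ p ∈ S, ((ω p).card : ℝ) / p|
      ≤ ∏ p ∈ S, ((ω p).card : ℝ) := by
  have hT : ∀ p ∈ S ∪ P1, p.Prime := fun p hp => (mem_union.1 hp).elim (h0 p) (h1 p)
  set Ω : ℕ → Finset ℕ := fun p => if p ∈ P1 then {b p} else ω p with hΩ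
  have e0 : ∀ p ∈ S, Ω p = ω p := fun p hp => if_neg (disjoint_left.1 hd hp)
  have e1 : ∀ p ∈ P1, Ω p = {b p} := fun p hp => if_pos hp
  have hc := Lib.ANT.card_range_prod_primes (S ∪ P1) hT Ω fun p hp => by
    rcases mem_union.1 hp with h | h
    · rw [e0 p h]; exact hω p h
    · rw [e1 p h]; exact singleton_subset_iff.2 (mem_range.2 (hb p h))
  have hm := Lib.ANT.abs_card_mod_mem_sub_le 0 Z (∏ p ∈ S ∪ P1, p)
    (prod_pos fun p hp => (hT p hp).pos) fun n => ∀ p ∈ S ∪ P1, n % p ∈ Ω p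
  have hp : ∏ p ∈ S ∪ P1, (Ω p).card = ∏ p ∈ S, (ω p).card := by
    rw [prod_union hd, prod_eq_one (s := P1) fun p hp => by rw [e1 p hp, card_singleton], mul_one]
    exact prod_congr rfl fun p hp => by rw [e0 p hp]
  rw [hc, hp, zero_add] at hm
  have e2 : ((Ioc 0 Z).filter fun z => (∀ p ∈ S, z % p ∈ ω p) ∧ ∀ p ∈ P1, z % p = b p)
      = (Ioc 0 Z).filter fun n => ∀ p ∈ S ∪ P1, n % (∏ p ∈ S ∪ P1, p) % p ∈ Ω p := by
    refine filter_congr fun z _ => ?_
    have e3 : ∀ p ∈ S ∪ P1, z % (∏ p ∈ S ∪ P1, p) % p = z % p := fun p hp =>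
      Nat.mod_mod_of_dvd z (dvd_prod_of_mem (fun p => p) hp)
    rw [forall_mem_union]
    exact and_congr (forall₂_congr fun p hp => by rw [e0 p hp, e3 p (mem_union_left _ hp)])
      (forall₂_congr fun p hp => by rw [e1 p hp, mem_singleton, e3 p (mem_union_right _ hp)])
  rw [e2]
  convert hm using 3
  · rw [prod_union hd, prod_div_distrib, prod_inv_distrib]
    push_cast
    ring
  · push_cast
    rfl

end BrunAux

open BrunAux in
theorem brun (P0 P1 : Finset ℕ) (h0 : ∀ p ∈ P0, p.Prime) (h1 : ∀ p ∈ P1, p.Prime)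
    (hd : Disjoint P0 P1) (ω : ℕ → Finset ℕ) (hω : ∀ p ∈ P0, ω p ⊆ range p) (b : ℕ → ℕ)
    (hb : ∀ p ∈ P1, b p < p) (m Z : ℕ) {κ y σ : ℝ} (hκ0 : 0 ≤ κ)
    (hκ : ∀ p ∈ P0, ((ω p).card : ℝ) ≤ κ) (hy1 : 1 ≤ y) (hy : ∀ p ∈ P0, (p : ℝ) ≤ y)
    (hσ : ∑ p ∈ P0, (p : ℝ)⁻¹ ≤ σ) :
    |(((Ioc 0 Z).filter fun z => (∀ p ∈ P0, z % p ∉ ω p) ∧ ∀ p ∈ P1, z % p = b p).card : ℝ)
        - Z * (∏ p ∈ P0, (1 - ((ω p).card : ℝ) / p)) * ∏ p ∈ P1, (p : ℝ)⁻¹|
      ≤ Z * (∏ p ∈ P1, (p : ℝ)⁻¹) * (2 * Real.exp (-(m : ℝ) + 3 * κ * σ))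
        + y ^ (m + 1) * Real.exp (κ * σ) := by
  set Q := ∏ p ∈ P1, (p : ℝ)⁻¹ with hQ
  set g : ℕ → ℝ := fun p => ((ω p).card : ℝ) / p with hg
  set N : Finset ℕ → ℝ := fun S =>
    (((Ioc 0 Z).filter fun z => (∀ p ∈ S, z % p ∈ ω p) ∧ ∀ p ∈ P1, z % p = b p).card : ℝ) with hN
  have hZQ : 0 ≤ (Z : ℝ) * Q := by positivity
  have hg0 : ∀ p, 0 ≤ g p := fun p => by positivity
  have hgS : ∀ S : Finset ℕ, 0 ≤ ∏ p ∈ S, g p := fun S => prod_nonneg fun p _ => hg0 p
  have hsum : ∑ p ∈ P0, g p ≤ κ * σ := by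
    refine (sum_le_sum fun p hp => ?_).trans
      ((mul_sum P0 (fun p => (p : ℝ)⁻¹) κ).ge.trans (mul_le_mul_of_nonneg_left hσ hκ0))
    exact mul_le_mul_of_nonneg_right (hκ p hp) (by positivity)
  have hall : ∑ S ∈ P0.powerset, ∏ p ∈ S, g p ≤ Real.exp (κ * σ) := by
    rw [← prod_one_add]
    exact (Real.prod_one_add_le_exp_sum _ hg0).trans (Real.exp_le_exp.2 hsum)
  have htail : ∑ S ∈ P0.powerset, Real.exp (-(m : ℝ)) * ∏ p ∈ S, (Real.exp 1 * g p)
      ≤ Real.exp (-(m : ℝ) + 3 * κ * σ) := by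
    rw [← mul_sum, ← prod_one_add, Real.exp_add]
    refine mul_le_mul_of_nonneg_left ((Real.prod_one_add_le_exp_sum _ fun p =>
      mul_nonneg (Real.exp_pos 1).le (hg0 p)).trans (Real.exp_le_exp.2 ?_)) (Real.exp_pos _).le
    rw [← mul_sum, mul_assoc]
    exact mul_le_mul (Real.exp_one_lt_d9.le.trans (by norm_num)) hsum
      (sum_nonneg fun p _ => hg0 p) (by norm_num)
  have trunc : ∀ j, m ≤ j → j ≤ m + 1 →
      |∑ S ∈ P0.powerset, sg j S.card * N S - Z * (∏ p ∈ P0, (1 - g p)) * Q|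
        ≤ Z * Q * (2 * Real.exp (-(m : ℝ) + 3 * κ * σ)) + y ^ (m + 1) * Real.exp (κ * σ) := by
    intro j hj hj'
    have e : (Z : ℝ) * (∏ p ∈ P0, (1 - g p)) * Q
        = ∑ S ∈ P0.powerset, (-1) ^ S.card * (Z * Q * ∏ p ∈ S, g p) := by
      simp only [sub_eq_add_neg]
      rw [prod_one_add, mul_right_comm, mul_sum]
      refine sum_congr rfl fun S _ => ?_
      rw [prod_neg]
      ring
    rw [e, ← sum_sub_distrib]
    refine (abs_sum_le_sum_abs _ _).trans ((sum_le_sum (g := fun S =>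
      Z * Q * (Real.exp (-(m : ℝ)) * ∏ p ∈ S, (Real.exp 1 * g p)) + y ^ (m + 1) * ∏ p ∈ S, g p)
      fun S hS => ?_).trans ?_)
    · have hS' := mem_powerset.1 hS
      have t0 : 0 ≤ Real.exp (-(m : ℝ)) * ∏ p ∈ S, (Real.exp 1 * g p) :=
        mul_nonneg (Real.exp_pos _).le
          (prod_nonneg fun p _ => mul_nonneg (Real.exp_pos 1).le (hg0 p))
      unfold sg
      split_ifs with h
      · rw [← mul_sub, abs_mul, abs_pow, abs_neg, abs_one, one_pow, one_mul]
        refine (count (fun p hp => h0 p (hS' hp)) h1 (hd.mono_left hS')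
          (fun p hp => hω p (hS' hp)) hb Z).trans (le_add_of_nonneg_of_le (mul_nonneg hZQ t0) ?_)
        refine le_trans ?_ (mul_le_mul_of_nonneg_right (pow_le_pow_right₀ hy1 (h.trans hj')) (hgS S))
        rw [← prod_const, ← prod_mul_distrib]
        refine prod_le_prod (fun p _ => Nat.cast_nonneg _) fun p hp => ?_
        have hp0 : (0 : ℝ) < p := by exact_mod_cast (h0 p (hS' hp)).pos
        calc ((ω p).card : ℝ) = p * g p := by rw [hg]; field_simp
          _ ≤ y * g p := mul_le_mul_of_nonneg_right (hy p (hS' hp)) (hg0 p)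
      · rw [zero_mul, zero_sub, abs_neg, abs_mul, abs_pow, abs_neg, abs_one, one_pow, one_mul,
          abs_of_nonneg (mul_nonneg hZQ (hgS S))]
        refine le_add_of_le_of_nonneg (mul_le_mul_of_nonneg_left ?_ hZQ)
          (mul_nonneg (by positivity) (hgS S))
        rw [prod_mul_distrib, prod_const, ← Real.exp_nat_mul, ← mul_assoc, ← Real.exp_add]
        refine le_mul_of_one_le_left (hgS S) (Real.one_le_exp ?_)
        have : (m : ℝ) ≤ S.card := by exact_mod_cast (by omega : m ≤ S.card)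
        linarith only [this]
    · rw [sum_add_distrib, ← mul_sum _ _ ((Z : ℝ) * Q), ← mul_sum _ _ (y ^ (m + 1))]
      refine add_le_add (mul_le_mul_of_nonneg_left (htail.trans ?_) hZQ)
        (mul_le_mul_of_nonneg_left hall (by positivity))
      linarith only [Real.exp_pos (-(m : ℝ) + 3 * κ * σ)]
  have side : ∀ j : ℕ, (-1 : ℝ) ^ j *
      (((Ioc 0 Z).filter fun z => (∀ p ∈ P0, z % p ∉ ω p) ∧ ∀ p ∈ P1, z % p = b p).card : ℝ)
      ≤ (-1) ^ j * ∑ S ∈ P0.powerset, sg j S.card * N S := by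
    intro j
    simp only [hN, card_filter, Nat.cast_sum, mul_sum _ _ (sg j _)]
    rw [sum_comm, mul_sum, mul_sum]
    refine sum_le_sum fun z _ => ?_
    by_cases hz : ∀ p ∈ P1, z % p = b p
    · refine (Eq.trans_le ?_ (bonf (P0.filter fun p => z % p ∈ ω p) j)).trans_eq ?_ <;> congr 1
      · simp only [filter_eq_empty_iff, and_iff_left hz]
        split_ifs <;> simp
      · refine sum_subset_zero_on_sdiff (powerset_mono.2 (filter_subset _ _)) (fun S hS => ?_)
          fun S hS => ?_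
        · rw [mem_sdiff, mem_powerset, mem_powerset] at hS
          rw [if_neg fun h => hS.2 fun p hp => mem_filter.2 ⟨hS.1 hp, h.1 p hp⟩]
          simp
        · rw [if_pos ⟨fun p hp => (mem_filter.1 (mem_powerset.1 hS hp)).2, hz⟩]
          simp
    · simp [hz]
  have t1 := abs_le.1 (trunc m le_rfl m.le_succ)
  have t2 := abs_le.1 (trunc (m + 1) m.le_succ le_rfl)
  have s1 := side m
  have s2 := side (m + 1)
  rw [pow_succ] at s2
  rw [abs_le]
  rcases neg_one_pow_eq_or ℝ m with h | h <;> rw [h] at s1 s2 <;> constructor <;> linarith only [t2, s2, t1, s1]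

end Pool.Agent.Work.MP_89ab3c_nt
end

-- merged part: Pool.Agent.Work.MP_89ab3c_nt.Major
section
/-!
# The majorant, with explicit parameters
-/

set_option autoImplicit false

namespace Pool.Agent.Work.MP_89ab3c_nt

open Finset Pool.Agent.Lib.ANT

noncomputable section

/-- small sieving primes -/
def P0 (y : ℕ) : Finset ℕ := (Ioc 0 y).filter Nat.Prime

/-- large sieving primes -/
def P2 (y R W : ℕ) : Finset ℕ := (Ioc y R).filter fun p => p.Prime ∧ ¬ p ∣ W

/-- Euler product -/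
def VP (P : Finset ℕ) : ℝ := ∏ p ∈ P, (1 - (p : ℝ)⁻¹)

/-- the measure on windows -/
def piW (y W Z z : ℕ) : ℝ :=
  if ∀ p ∈ (P0 y).filter (· ∣ W), z % p ≠ 0 then (Z * VP ((P0 y).filter (· ∣ W)))⁻¹ else 0

/-- the majorant at `z - c` -/
def nuW (y R W z c : ℕ) : ℝ :=
  if ∀ p ∈ (P0 y).filter (¬ · ∣ W), z % p ≠ c % p then
    Lam (P2 y R W) R (DD _ z c) ^ 2 * (Gp (P2 y R W) R * VP ((P0 y).filter (¬ · ∣ W)))⁻¹
  else 0

lemma P0_prime {y p : ℕ} (h : p ∈ P0 y) : p.Prime := (mem_filter.1 h).2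

lemma P2_two {y R W : ℕ} : ∀ p ∈ P2 y R W, 2 ≤ p := fun _ h => (mem_filter.1 h).2.1.two_le

lemma VP_pos {P : Finset ℕ} (h : ∀ p ∈ P, p.Prime) : 0 < VP P := prod_pos fun p hp =>
  sub_pos.2 (inv_lt_one_of_one_lt₀ (by exact_mod_cast (h p hp).one_lt))

lemma VP_le {P : Finset ℕ} (h : ∀ p ∈ P, p.Prime) : VP P ≤ 1 :=
  prod_le_one (fun p hp => (sub_pos.2 (inv_lt_one_of_one_lt₀
    (by exact_mod_cast (h p hp).one_lt))).le) fun p _ => sub_le_self _ (by positivity)

lemma VP_split (y W : ℕ) :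
    VP ((P0 y).filter (· ∣ W)) * VP ((P0 y).filter (¬ · ∣ W)) = VP (P0 y) :=
  prod_filter_mul_prod_filter_not _ _ _

theorem value {y R W Z n c : ℕ} (hyR : y ≤ R) (hn : n.Prime) (hR : R < n) (hc : W ∣ c) :
    piW y W Z (n + c) * nuW y R W (n + c) c = Gp (P2 y R W) R ^ 2 *
      (Gp (P2 y R W) R)⁻¹ * (Z * VP (P0 y))⁻¹ := by
  have key : ∀ p : ℕ, p.Prime → p ≤ R → (n + c) % p ≠ c % p := fun p hp hpR h => by
    have : p ∣ n := (Nat.modEq_zero_iff_dvd).1
      (Nat.ModEq.add_right_cancel' c (show n + c ≡ 0 + c [MOD p] by rwa [zero_add]))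
    have := (Nat.prime_dvd_prime_iff_eq hp hn).1 this
    omega
  have h0 : ∀ p ∈ P0 y, (n + c) % p ≠ c % p := fun p hp =>
    key p (P0_prime hp) ((mem_Ioc.1 (mem_filter.1 hp).1).2.trans hyR)
  have e : DD (P2 y R W) (n + c) c = fun _ => false := funext fun p => by
    have := mem_filter.1 p.2
    simpa [DD] using key p this.2.1 (mem_Ioc.1 this.1).2
  rw [piW, nuW, if_pos, if_pos fun p hp => h0 p (mem_filter.1 hp).1, e, ← VP_split y W, ← Gp]
  · simp only [mul_inv]; ring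
  · intro p hp
    have := h0 p (mem_filter.1 hp).1
    rwa [Nat.mod_eq_zero_of_dvd ((mem_filter.1 hp).2.trans hc)] at this

variable {X : Type} [DecidableEq X]

/-- forbidden classes -/
def om (W : ℕ) (v : X → ℕ) (S : Finset X) (p : ℕ) : Finset ℕ :=
  if p ∣ W then {0} else S.image fun x => W * v x % p

/-- singular series -/
def sing (y W : ℕ) (v : X → ℕ) (S : Finset X) : ℝ :=
  ∏ p ∈ (P0 y).filter (¬ · ∣ W),
    (1 - ((S.image fun x => W * v x % p).card : ℝ) / p) / (1 - (p : ℝ)⁻¹) ^ S.card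

lemma cor_eq (y R W Z : ℕ) (v : X → ℕ) (l : List X) :
    ∑ z ∈ Ioc 0 Z, piW y W Z z * (l.map fun x => nuW y R W z (W * v x)).prod
      = (Z * VP ((P0 y).filter (· ∣ W)))⁻¹ *
        (Gp (P2 y R W) R * VP ((P0 y).filter (¬ · ∣ W)))⁻¹ ^ l.length *
        ∑ z ∈ (Ioc 0 Z).filter fun z => ∀ p ∈ P0 y, z % p ∉ om W v l.toFinset p,
          ∏ i : Fin l.length, Lam (P2 y R W) R (DD _ z (W * v l[i.1])) ^ 2 := by
  rw [sum_filter, mul_sum]
  refine sum_congr rfl fun z _ => ?_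
  rw [← Fin.prod_univ_fun_getElem]
  split_ifs with h
  · rw [piW, if_pos, mul_assoc]
    · have : ∀ i : Fin l.length, nuW y R W z (W * v l[i.1]) = _ := fun i => if_pos fun p hp h1 => by
        rw [mem_filter] at hp
        refine h p hp.1 ?_
        rw [om, if_neg hp.2, h1]
        exact mem_image.2 ⟨_, List.mem_toFinset.2 (List.getElem_mem _), rfl⟩
      rw [prod_congr rfl fun i _ => this i, prod_mul_distrib, prod_const, card_univ,
        Fintype.card_fin, mul_comm (∏ _, _)]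
    · intro p hp h1
      rw [mem_filter] at hp
      exact h p hp.1 (by simp [om, hp.2, h1])
  · rw [mul_zero]
    push Not at h
    obtain ⟨p, hp, h⟩ := h
    unfold om at h
    split_ifs at h with hW
    · rw [piW, if_neg, zero_mul]
      exact fun h1 => h1 p (mem_filter.2 ⟨hp, hW⟩) (by simpa using h)
    · obtain ⟨x, hx, h⟩ := mem_image.1 h
      obtain ⟨i, hi, rfl⟩ := List.getElem_of_mem (List.mem_toFinset.1 hx)
      rw [prod_eq_zero (mem_univ (⟨i, hi⟩ : Fin l.length)), mul_zero]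
      exact if_neg fun h1 => h1 p (mem_filter.2 ⟨hp, hW⟩) h.symm

omit [DecidableEq X] in
lemma dist_om {y R W Z m J : ℕ} (v : X → ℕ) (S : Finset X) (hJ : 1 ≤ J) (hS : S.card ≤ J)
    (hy : 1 ≤ y) {σ : ℝ} (hσ : ∑ p ∈ P0 y, (p : ℝ)⁻¹ ≤ σ) :
    Dist (P2 y R W) ((Ioc 0 Z).filter fun z => ∀ p ∈ P0 y, z % p ∉ om W v S p)
      (Z * ∏ p ∈ P0 y, (1 - ((om W v S p).card : ℝ) / p))
      (Z * (2 * Real.exp (-(m : ℝ) + 3 * J * σ))) ((y : ℝ) ^ (m + 1) * Real.exp (J * σ)) := by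
  intro P1 hP1 b hb
  have := brun (P0 y) P1 (fun p => P0_prime) (fun p hp => (mem_filter.1 (hP1 hp)).2.1)
    (disjoint_left.2 fun p h1 h2 => by
      have := (mem_Ioc.1 (mem_filter.1 h1).1).2
      have := (mem_Ioc.1 (mem_filter.1 (hP1 h2)).1).1
      omega) (om W v S) (fun p hp x hx => by
      have := (P0_prime hp).pos
      unfold om at hx
      split_ifs at hx
      · rw [mem_singleton.1 hx]; simpa
      · obtain ⟨a, -, rfl⟩ := mem_image.1 hx
        exact mem_range.2 (Nat.mod_lt _ this)) b hb m Z (κ := J) (y := y) (by positivity)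
    (fun p _ => by
      unfold om
      split_ifs
      · simpa using hJ
      · exact_mod_cast card_image_le.trans hS) (by exact_mod_cast hy)
    (fun p hp => by exact_mod_cast (mem_Ioc.1 (mem_filter.1 hp).1).2) hσ
  rw [filter_filter]
  exact this.trans_eq (by ring)

omit [DecidableEq X] in
lemma main_eq (y W : ℕ) (v : X → ℕ) (S : Finset X) :
    ∏ p ∈ P0 y, (1 - ((om W v S p).card : ℝ) / p) = VP ((P0 y).filter (· ∣ W)) *
      VP ((P0 y).filter (¬ · ∣ W)) ^ S.card * sing y W v S := by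
  rw [← prod_filter_mul_prod_filter_not (P0 y) (· ∣ W), mul_assoc, sing, VP, VP, ← prod_pow,
    ← prod_mul_distrib]
  congr 1
  · exact prod_congr rfl fun p hp => by simp [om, (mem_filter.1 hp).2]
  · refine prod_congr rfl fun p hp => ?_
    have : 0 < 1 - (p : ℝ)⁻¹ := sub_pos.2 (inv_lt_one_of_one_lt₀
      (by exact_mod_cast (P0_prime (mem_filter.1 hp).1).one_lt))
    rw [om, if_neg (mem_filter.1 hp).2, mul_div_cancel₀ _ (by positivity)]

omit [DecidableEq X] in
lemma main_bounds (y W : ℕ) (v : X → ℕ) (S : Finset X) :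
    0 ≤ ∏ p ∈ P0 y, (1 - ((om W v S p).card : ℝ) / p) ∧
      ∏ p ∈ P0 y, (1 - ((om W v S p).card : ℝ) / p) ≤ 1 := by
  have h : ∀ p ∈ P0 y, 0 ≤ 1 - ((om W v S p).card : ℝ) / p := fun p hp => by
    have h0 := (P0_prime hp).pos
    rw [sub_nonneg, div_le_one (by exact_mod_cast h0), Nat.cast_le]
    unfold om
    split_ifs
    · exact h0
    · refine (card_le_card fun x hx => ?_).trans_eq (card_range p)
      obtain ⟨a, -, rfl⟩ := mem_image.1 hx
      exact mem_range.2 (Nat.mod_lt _ h0)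
  exact ⟨prod_nonneg h, prod_le_one h fun p _ => sub_le_self _ (by positivity)⟩

theorem maj_finite [Fintype X] (v : X → ℕ) (hv : Function.Injective v) {q J s w y R W Z m : ℕ}
    {θ e Λ₀ Λ U g σ : ℝ} (hq : ∀ x, v x < q) (hJ : 1 ≤ J) (hw : 2 * J ≤ w)
    (hW : ∀ p : ℕ, p.Prime → p ≤ w → p ∣ W) (hqy : q ≤ y) (hy : 1 ≤ y) (hyR : y ≤ R) (hZ : 0 < Z)
    (hV : (VP (P0 y))⁻¹ ≤ Λ₀) (hU : UU (P2 y R W) ≤ U) (hg : ∀ h, GG J w q h ≤ g)
    (hσ : ∑ p ∈ P0 y, (p : ℝ)⁻¹ ≤ σ) (h1 : 2 * Real.exp (-(m : ℝ) + 3 * J * σ) ≤ e)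
    (h2 : (R : ℝ) ^ (2 * J) * ((y : ℝ) ^ (m + 1) * Real.exp (J * σ)) ≤ Z * e)
    (h3 : 4 ^ J * (6 * J + 3) * (y : ℝ)⁻¹ ≤ e)
    (hθ : (J : ℝ) ^ 2 / w + 4 * e * U ^ (7 * J) * Λ₀ ^ (J + 1) ≤ θ) (hθ1 : θ ≤ 1)
    (hΛ : 3 * U ^ (2 * J + 4 ^ J) * (1 + J ^ 2 * g) * Λ₀ ≤ Λ)
    (hG : ∀ (κ : X → ℝ) (a : X) (D : ℝ), (∀ b, 0 ≤ κ b) → 0 ≤ D →
      (∀ d : ℕ, 1 ≤ d → d ≤ q → ∑ b ∈ univ.filter fun b => (d : ℤ) ∣ (v a : ℤ) - v b, κ b
        ≤ D * (d : ℝ) ^ (-(1 / (s : ℝ)))) →
      ∑ b ∈ univ.erase a, κ b * GG J w q ((v a : ℤ) - v b) ≤ D * θ) :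
    Maj v q J s θ Λ (Ioc 0 Z) (piW y W Z) (fun z x => nuW y R W z (W * v x))
      fun a b => GG J w q ((v a : ℤ) - v b) := by
  have pW : ∀ p ∈ (P0 y).filter (· ∣ W), p.Prime := fun p hp => P0_prime (mem_filter.1 hp).1
  have p1 : ∀ p ∈ (P0 y).filter (¬ · ∣ W), p.Prime := fun p hp => P0_prime (mem_filter.1 hp).1
  have a0 := VP_pos pW
  have a1 := VP_le pW
  have b0 := VP_pos p1
  have b1 := VP_le p1
  have c1 : 1 ≤ Gp (P2 y R W) R := one_le_Gp (by omega)
  rw [← VP_split y W] at hV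
  have sb := fun (S : Finset X) (hS : S.card ≤ J) => sing_bounds (W := W) (by omega) hw
    ((P0 y).filter (¬ · ∣ W)) (fun p hp => ⟨p1 p hp, lt_of_not_ge fun h =>
      (mem_filter.1 hp).2 (hW p (p1 p hp) h), (mem_filter.1 hp).2⟩) v hv hq S hS
  have ce := cor_eq y R W Z v
  have me := main_eq y W v
  set VW := VP ((P0 y).filter (· ∣ W))
  set V1 := VP ((P0 y).filter (¬ · ∣ W))
  set Γ := Gp (P2 y R W) R
  have hZ0 : (0 : ℝ) < Z := by exact_mod_cast hZ
  have a2 : VW⁻¹ ≤ Λ₀ := (inv_anti₀ (by positivity) (mul_le_of_le_one_right a0.le b1)).trans hV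
  have b2 : V1⁻¹ ≤ Λ₀ := (inv_anti₀ (by positivity) (mul_le_of_le_one_left b0.le a1)).trans hV
  have L1 : 1 ≤ Λ₀ := (one_le_inv₀ a0 |>.2 a1).trans a2
  have U1 : 1 ≤ UU (P2 y R W) := one_le_UU
  have U2 : 1 ≤ U := U1.trans hU
  have e0 : 0 ≤ e := le_trans (by positivity) h1
  have g0 : 0 ≤ g := (GG_nonneg _ _ _ 0).trans (hg 0)
  have R1 : (1 : ℝ) ≤ R := by exact_mod_cast hy.trans hyR
  have c2 : (Γ * V1)⁻¹ ≤ V1⁻¹ := inv_anti₀ b0 (le_mul_of_one_le_left b0.le c1)
  have c3 : ∀ n ≤ J, ((Z : ℝ) * VW)⁻¹ * (Γ * V1)⁻¹ ^ n * Z ≤ Λ₀ ^ (J + 1) := fun n hn => by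
    clear * - Z VW Γ V1 n Λ₀ J hZ c1 b0 a0 a2 c2 b2 L1 q w y R hn
    calc _ = VW⁻¹ * (Γ * V1)⁻¹ ^ n := by field_simp
      _ ≤ Λ₀ * Λ₀ ^ n := by gcongr; exact c2.trans b2
      _ ≤ _ := by rw [← pow_succ']; exact pow_le_pow_right₀ L1 (by omega)
  have t0 : 0 ≤ (J : ℝ) ^ 2 / w := by positivity
  have t1 : 4 * e * Λ₀ ^ (J + 1) ≤ 1 := by
    clear * - e Λ₀ J U U2 e0 L1 w θ hθ hθ1 t0
    have : 4 * e * 1 * Λ₀ ^ (J + 1) ≤ 4 * e * U ^ (7 * J) * Λ₀ ^ (J + 1) := by
      gcongr; exact one_le_pow₀ U2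
    linarith only [hθ, hθ1, t0, this]
  have t2 : e ≤ 1 := by nlinarith only [t1, e0, L1, one_le_pow₀ (n := J + 1) L1]
  have hE : ∀ n ≤ J, (R : ℝ) ^ (2 * n) * ((y : ℝ) ^ (m + 1) * Real.exp (J * σ)) ≤ Z * e :=
    fun n hn => le_trans (by gcongr) h2
  refine ⟨fun z => ?_, fun z x => ?_, fun a b => GG_nonneg _ _ _ _, fun l hl hn => ?_,
    fun l hl hn => ?_, hG⟩
  · unfold piW; split_ifs <;> positivity
  · unfold nuW; split_ifs <;> positivity
  · have hc : l.toFinset.card = l.length := List.toFinset_card_of_nodup hn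
    have k1 := corr1 (R := R) (ε := e) P2_two (dist_om (R := R) (W := W) (Z := Z) (m := m) v l.toFinset hJ
      (hc ▸ hl) hy hσ) (by positivity) (by positivity) (fun i : Fin l.length => W * v l[i.1])
      (fun p hp i j h => by
        clear * - p v X l i q J w y R Z hc j W hp h hq hqy hn hv
        rw [P2, mem_filter, mem_Ioc] at hp
        have h4 := Nat.ModEq.cancel_left_of_coprime
          ((Nat.Prime.coprime_iff_not_dvd hp.2.1).2 hp.2.2) h
        have h5 := Nat.ModEq.eq_of_lt_of_lt h4 (by have := hq l[i.1]; omega)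
          (by have := hq l[j.1]; omega)
        exact Fin.ext ((hn.getElem_inj_iff).1 (hv h5)))
      (by
        clear * - X l y R W e J q w Z hy hyR R1 hl hJ h3 t2
        rw [Fintype.card_fin]
        refine le_trans ?_ h3
        have h4 : ∑ p : P2 y R W, (((p : ℕ) : ℝ)⁻¹) ^ 2 ≤ (y : ℝ)⁻¹ := by
          rw [sum_coe_sort (P2 y R W) fun p => ((p : ℝ)⁻¹) ^ 2]
          refine (sum_le_sum_of_subset_of_nonneg (filter_subset _ _)
            fun _ _ _ => by positivity).trans ?_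
          simp only [inv_pow]
          exact (sum_Ioc_inv_sq_le_sub (by omega) hyR).trans (sub_le_self _ (by positivity))
        refine mul_le_mul ?_ h4 (sum_nonneg fun _ _ => sq_nonneg _) (by positivity)
        gcongr
        norm_num) t2
    rw [Fintype.card_fin] at k1
    obtain ⟨m0, m1⟩ := main_bounds y W v l.toFinset
    have k2 : UU (P2 y R W) ^ (7 * l.length) * (Z * (2 * Real.exp (-(m : ℝ) + 3 * J * σ))
        + (R : ℝ) ^ (2 * l.length) * ((y : ℝ) ^ (m + 1) * Real.exp (J * σ)))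
        + |Z * ∏ p ∈ P0 y, (1 - ((om W v l.toFinset p).card : ℝ) / p)| *
          UU (P2 y R W) ^ l.length * (2 * e) ≤ Z * (4 * e * U ^ (7 * J)) := by
      clear * - y R W X l Z m J σ v e U hZ m0 U1 hU U2 q w hl hc h1 hE R1 hy m1 e0
      rw [abs_of_nonneg (by clear * - Z y X W v l hZ m0; positivity)]
      have u1 : UU (P2 y R W) ^ (7 * l.length) ≤ U ^ (7 * J) :=
        (pow_le_pow_left₀ (by linarith only [U1]) hU _).trans (pow_le_pow_right₀ U2 (by omega))
      have u2 : UU (P2 y R W) ^ l.length ≤ U ^ (7 * J) :=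
        (pow_le_pow_left₀ (by linarith only [U1]) hU _).trans (pow_le_pow_right₀ U2 (by omega))
      calc _ ≤ U ^ (7 * J) * (Z * e + Z * e) + Z * 1 * U ^ (7 * J) * (2 * e) :=
            add_le_add (mul_le_mul u1 (add_le_add (by gcongr) (hE _ hl)) (by positivity)
              (by positivity)) (by clear * - e Z y X W v l R U J m1 hZ u2 U1 e0; gcongr)
        _ = _ := by ring
    have k3 : |∑ z ∈ Ioc 0 Z, piW y W Z z * (l.map fun x => nuW y R W z (W * v x)).prod
        - sing y W v l.toFinset| ≤ 4 * e * U ^ (7 * J) * Λ₀ ^ (J + 1) := by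
      clear * - X y W v l Z VW Γ V1 me hc hZ a0 c1 b0 R e U J Λ₀ ce q w m σ k1 k2 c3 hl e0 U2
      have : sing y W v l.toFinset = ((Z : ℝ) * VW)⁻¹ * (Γ * V1)⁻¹ ^ l.length *
          (Z * (∏ p ∈ P0 y, (1 - ((om W v l.toFinset p).card : ℝ) / p)) * Γ ^ l.length) := by
        rw [me, hc, inv_pow, mul_pow]; field_simp
      rw [ce, this, ← mul_sub, abs_mul, abs_of_nonneg (by positivity)]
      refine (mul_le_mul_of_nonneg_left (k1.trans k2) (by positivity)).trans ?_
      rw [← mul_assoc, mul_comm]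
      exact mul_le_mul_of_nonneg_left (c3 _ hl) (by positivity)
    obtain ⟨s1, s2⟩ := sb l.toFinset (hc ▸ hl)
    have s3 : 0 ≤ ∑ p ∈ l.toFinset.offDiag, GG J w q ((v p.1 : ℤ) - v p.2) :=
      sum_nonneg fun _ _ => GG_nonneg _ _ _ _
    rw [abs_le] at k3 ⊢
    unfold sing at k3
    constructor <;> linarith only [hθ, k3, s1, s3, t0, s2, k3.1, k3.2]
  · have hd := dfc_add_card l
    have hd1 : 1 ≤ dfc l := by
      by_contra h
      exact hn ((Multiset.toFinset_card_eq_card_iff_nodup (m := (l : Multiset X))).1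
        (show l.toFinset.card = l.length by omega))
    obtain ⟨m0, m1⟩ := main_bounds y W v l.toFinset
    have k1 := corr2 (R := R) P2_two (dist_om (R := R) (W := W) (Z := Z) (m := m) v l.toFinset hJ
      (by omega) hy hσ) (by clear * - Z y X W v l hZ m0; positivity) (by positivity) (by positivity)
      (fun i : Fin l.length => W * v l[i.1])
    rw [Fintype.card_fin] at k1
    have s2 : sing y W v l.toFinset ≤ 1 + J ^ 2 * g := by
      clear * - W y X v l J w q g sb R Z hl hd hd1 hg g0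
      refine (sb l.toFinset (by omega)).2.trans (add_le_add le_rfl ?_)
      refine (sum_le_card_nsmul _ _ g fun _ _ => hg _).trans ?_
      rw [nsmul_eq_mul, offDiag_card]
      refine mul_le_mul_of_nonneg_right ?_ g0
      have : l.toFinset.card * l.toFinset.card ≤ J * J := Nat.mul_le_mul (by omega) (by omega)
      exact_mod_cast (show _ ≤ J ^ 2 by rw [sq]; omega)
    have u1 : UU (P2 y R W) ^ (2 * l.length) ≤ U ^ (2 * J) :=
      (pow_le_pow_left₀ (by linarith only [U1]) hU _).trans (pow_le_pow_right₀ U2 (by omega))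
    have u2 : UU (P2 y R W) ^ 4 ^ l.length ≤ U ^ 4 ^ J :=
      (pow_le_pow_left₀ (by linarith only [U1]) hU _).trans (pow_le_pow_right₀ U2
        (Nat.pow_le_pow_right (by norm_num) hl))
    have u3 : U ^ (2 * J) ≤ U ^ 4 ^ J := pow_le_pow_right₀ U2 (by
      rw [show 4 = 2 ^ 2 by norm_num, ← pow_mul]; exact Nat.lt_two_pow_self.le)
    set Mv := Z * ∏ p ∈ P0 y, (1 - ((om W v l.toFinset p).card : ℝ) / p) with hMv
    have k2 : UU (P2 y R W) ^ (2 * l.length) *
        ((Mv + Z * (2 * Real.exp (-(m : ℝ) + 3 * J * σ))) * UU (P2 y R W) ^ 4 ^ l.length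
        + (y : ℝ) ^ (m + 1) * Real.exp (J * σ) * (R * UU (P2 y R W)) ^ (2 * l.length))
        ≤ U ^ (2 * J + 4 ^ J) * (Mv + Z * (2 * e)) := by
      clear * - y R W X l Mv Z m J σ U e u1 h1 hZ u2 U1 v m0 e0 hE hl u3 R1 hy U2
      rw [mul_pow, ← mul_assoc (_ * _), mul_comm _ ((R : ℝ) ^ _)]
      calc _ ≤ U ^ (2 * J) * ((Mv + Z * e) * U ^ 4 ^ J + Z * e * U ^ 4 ^ J) :=
            mul_le_mul u1 (add_le_add (by gcongr) (mul_le_mul (hE _ hl) (u1.trans u3)
              (by positivity) (by positivity))) (by clear * - Mv Z m J σ y R W X l v hZ m0 U1 R1 hy; positivity) (by positivity)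
        _ = _ := by ring
    have k3 : ((Z : ℝ) * VW)⁻¹ * (Γ * V1)⁻¹ ^ l.length * Mv ≤ (1 + J ^ 2 * g) * Λ₀ ^ dfc l := by
      clear * - X y W v l VW V1 me m0 a0 b0 Z Γ Mv J g Λ₀ c1 c2 hZ hMv hd s2 b2 hJ g0
      have s0 : 0 ≤ sing y W v l.toFinset := by
        rw [me] at m0
        exact nonneg_of_mul_nonneg_right m0 (by positivity) |> id
      calc _ ≤ ((Z : ℝ) * VW)⁻¹ * V1⁻¹ ^ l.length * Mv := by gcongr
        _ = sing y W v l.toFinset * V1⁻¹ ^ dfc l := by
            rw [hMv, me, ← hd, pow_add, inv_pow _ l.toFinset.card]; field_simp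
        _ ≤ _ := by clear * - X y W v l J g V1 Λ₀ s2 b0 b2 hJ g0; gcongr
    have k4 : ((Z : ℝ) * VW)⁻¹ * (Γ * V1)⁻¹ ^ l.length * (Z * (2 * e)) ≤ 1 := by
      clear * - Z VW Γ V1 X l e Λ₀ J t1 c3 hl e0 L1
      rw [← mul_assoc]
      linarith only [t1, c3, hl, e0, mul_le_mul_of_nonneg_right (c3 _ hl) (show 0 ≤ 2 * e by positivity),
        mul_nonneg e0 (pow_nonneg (zero_le_one.trans L1) (J + 1))]
    set A := U ^ (2 * J + 4 ^ J) * (1 + J ^ 2 * g) with hA
    have A0 : 1 ≤ U ^ (2 * J + 4 ^ J) := one_le_pow₀ U2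
    have A1 : 1 ≤ 1 + (J : ℝ) ^ 2 * g := le_add_of_nonneg_right (by positivity)
    have A2 : 1 ≤ Λ₀ ^ dfc l := one_le_pow₀ L1
    have A3 : 1 ≤ (1 + J ^ 2 * g) * Λ₀ ^ dfc l := one_le_mul_of_one_le_of_one_le A1 A2
    have A4 : 1 ≤ A := one_le_mul_of_one_le_of_one_le A0 A1
    have k5 : ∑ z ∈ Ioc 0 Z, piW y W Z z * (l.map fun x => nuW y R W z (W * v x)).prod
        ≤ 2 * (A * Λ₀ ^ dfc l) := by
      clear * - Z y W X R v l A Λ₀ VW Γ V1 ce q J w hd U Mv e m σ k1 k2 hZ a0 c1 b0 g hA k3 k4 A3 U2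
      rw [ce]
      refine (mul_le_mul_of_nonneg_left (k1.trans k2) (by positivity)).trans ?_
      rw [mul_left_comm, mul_add, hA, mul_assoc (U ^ _), mul_left_comm 2]
      exact mul_le_mul_of_nonneg_left (by linarith only [k3, k4, A3]) (by positivity)
    have k6 : 0 ≤ ∑ z ∈ Ioc 0 Z, piW y W Z z * (l.map fun x => nuW y R W z (W * v x)).prod := by
      clear * - Z y W X R v l VW Γ V1 ce hZ a0 c1 b0
      rw [ce]
      exact mul_nonneg (by positivity) (sum_nonneg fun _ _ => prod_nonneg fun _ _ => sq_nonneg _)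
    have k7 : 3 * A * Λ₀ ^ dfc l ≤ Λ ^ dfc l := by
      clear * - A Λ₀ X l Λ U J g A4 q w y R Z hd1 L1 U2 hJ g0 hA hΛ
      refine le_trans ?_ (pow_le_pow_left₀ (by positivity) (show 3 * A * Λ₀ ≤ Λ by
        rw [hA, ← mul_assoc]; exact hΛ) _)
      rw [mul_pow]
      exact mul_le_mul_of_nonneg_right (le_self_pow₀ (by linarith only [A4]) (by omega)) (by positivity)
    have k8 : 1 ≤ A * Λ₀ ^ dfc l := one_le_mul_of_one_le_of_one_le A4 A2
    rw [abs_le]
    constructor <;> linarith only [k6, k7, k8, k5]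

end

end Pool.Agent.Work.MP_89ab3c_nt
end
end

-- merged part: Pool.Agent.Work.MP_89ab3c_nt.Main
section
-- merged part: Pool.Agent.Work.MP_89ab3c_nt.Asym
section
/-!
# Choice of the parameters of the majorant
-/

set_option autoImplicit false

namespace Pool.Agent.Work.MP_89ab3c_nt

open Finset Pool.Agent.Lib.ANT Filter Real

noncomputable section

lemma ev_poly_exp (C K : ℝ) {γ : ℝ} (hγ : 0 < γ) :
    ∀ᶠ l : ℝ in atTop, C * l ^ K ≤ exp (l ^ γ / 4) := by
  have h := ((tendsto_exp_mul_div_rpow_atTop (K / γ) (1 / 4) (by norm_num)).comp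
    (tendsto_rpow_atTop hγ)).eventually_ge_atTop C
  filter_upwards [h, eventually_gt_atTop 0] with l h1 h2
  simp only [Function.comp] at h1
  rw [← rpow_mul h2.le, mul_div_cancel₀ _ hγ.ne', le_div_iff₀ (by positivity)] at h1
  rwa [one_div_mul_eq_div] at h1

lemma ev_log_pow (C : ℝ) (K : ℕ) {γ : ℝ} (hγ : 0 < γ) :
    ∀ᶠ l : ℝ in atTop, C * log l ^ K ≤ l ^ γ := by
  have h := (isLittleO_log_rpow_rpow_atTop (K : ℝ) hγ).bound (c := (|C| + 1)⁻¹) (by positivity)
  filter_upwards [h, eventually_ge_atTop 1] with l h1 h2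
  have h3 := log_nonneg h2
  rw [norm_of_nonneg (by positivity), norm_of_nonneg (by positivity), rpow_natCast,
    le_inv_mul_iff₀ (by positivity)] at h1
  exact le_trans (mul_le_mul_of_nonneg_right (by linarith [le_abs_self C]) (by positivity)) h1

lemma floor_exp {x : ℝ} (hx : 2 ≤ x) : exp x / 2 ≤ ⌊exp x⌋₊ ∧ (⌊exp x⌋₊ : ℝ) ≤ exp x ∧
    x / 2 ≤ log ⌊exp x⌋₊ ∧ log ⌊exp x⌋₊ ≤ x := by
  have h1 : exp x / 2 ≤ ⌊exp x⌋₊ := by
    linarith only [hx, Nat.lt_floor_add_one (exp x), add_one_le_exp x]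
  have h2 : (⌊exp x⌋₊ : ℝ) ≤ exp x := Nat.floor_le (exp_pos x).le
  have h3 : 0 < exp x / 2 := by positivity
  refine ⟨h1, h2, ?_, (log_le_log (h3.trans_le h1) h2).trans_eq (log_exp x)⟩
  have := log_le_log h3 h1
  rw [log_div (exp_pos x).ne' two_ne_zero, log_exp] at this
  linarith only [hx, this, log_two_lt_d9]

lemma UU_le {y R W : ℕ} (hy : 2 ≤ y) (hyR : y ≤ R) (h : 48 ≤ log y) :
    UU (P2 y R W) ≤ 3 * (log R / log y) := by
  have h0 : 0 < log y := by linarith only [h]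
  have h1 : 0 < log R := h0.trans_le (log_le_log (by positivity) (by exact_mod_cast hyR))
  have h2 := (abs_le.1 (abs_sum_inv_prime_Ioc_sub_le y R hy hyR)).2
  have h3 : 48 / log y ≤ 1 := by rwa [div_le_one h0]
  calc _ ≤ ∏ p : P2 y R W, exp ((p : ℕ) : ℝ)⁻¹ :=
        prod_le_prod (fun p _ => by positivity) fun p _ => by linarith only [add_one_le_exp ((p : ℕ) : ℝ)⁻¹]
    _ = exp (∑ p ∈ P2 y R W, (p : ℝ)⁻¹) := by
        rw [← exp_sum, sum_coe_sort (P2 y R W) fun p => (p : ℝ)⁻¹]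
    _ ≤ exp (1 + (log (log R) - log (log y))) := by
        refine exp_le_exp.2 ((sum_le_sum_of_subset_of_nonneg (t := (Ioc y R).filter Nat.Prime)
          (fun p hp => ?_) fun _ _ _ => by positivity).trans (by linarith only [h2, h3]))
        rw [P2, mem_filter] at hp
        exact mem_filter.2 ⟨hp.1, hp.2.1⟩
    _ ≤ _ := by
        rw [exp_add, exp_sub, exp_log h0, exp_log h1]
        exact mul_le_mul_of_nonneg_right (by linarith only [exp_one_lt_d9]) (by positivity)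

lemma Maj.mono {X : Type} [Fintype X] [DecidableEq X] {v : X → ℕ} {q J s : ℕ} {θ θ' Λ : ℝ}
    {Ω : Finset ℕ} {pp : ℕ → ℝ} {ν : ℕ → X → ℝ} {G : X → X → ℝ} (h : Maj v q J s θ Λ Ω pp ν G)
    (hθ : θ ≤ θ') : Maj v q J s θ' Λ Ω pp ν G :=
  ⟨h.π0, h.ν0, h.G0, fun l h1 h2 => (h.nodup l h1 h2).trans (by linarith only [hθ]), h.dup,
    fun κ a D h1 h2 h3 => (h.Gsum κ a D h1 h2 h3).trans (by gcongr)⟩

theorem majorant (J s : ℕ) (hJ : 1 ≤ J) (hs : 1 ≤ s) {B ε θ : ℝ} (hB : 1 ≤ B) (hε : 0 < ε)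
    (hθ : 0 < θ) : ∃ w : ℕ, ∀ᶠ N : ℕ in atTop, ∀ W q : ℕ, 1 ≤ W → W ≤ N →
      (∀ p : ℕ, p.Prime → p ≤ w → p ∣ W) → 2 ≤ q → (q : ℝ) ≤ 2 * log N ^ B →
      ∀ (X : Type) [Fintype X] [DecidableEq X] (v : X → ℕ), Function.Injective v → (∀ x, v x < q) →
      ∃ (pp : ℕ → ℝ) (ν : ℕ → X → ℝ) (G : X → X → ℝ) (R : ℕ),
        Maj v q J s θ (log N ^ (1 + ε)) (Ioc 0 (3 * N)) pp ν G ∧ (R : ℝ) ≤ exp (log N / 4) ∧
        ∀ n x, n.Prime → R < n → log N / (96 * J * N) ≤ pp (n + W * v x) * ν (n + W * v x) x := by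
  set θ' := min θ 1 with hθ'
  have t0 : 0 < θ' := by positivity
  obtain ⟨w₀, hw₀⟩ := GG_sum J s hs t0
  set w := max (max w₀ (2 * J)) ⌈2 * (J : ℝ) ^ 2 / θ'⌉₊ with hw
  have w1 : 2 * J ≤ w := (le_max_right _ _).trans (le_max_left _ _)
  have w2 : (J : ℝ) ^ 2 / w ≤ θ' / 2 := by
    have : 2 * (J : ℝ) ^ 2 / θ' ≤ w := (Nat.le_ceil _).trans (Nat.cast_le.2 (le_max_right _ _))
    rw [div_le_iff₀ t0] at this
    rw [div_le_iff₀ (by exact_mod_cast (show 0 < w by omega))]
    linarith only [this]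
  set K : ℕ := 2 * J + 4 ^ J with hK
  have K0 : (0 : ℝ) < K := by positivity
  set γ := min (1 / 2) (ε / (2 * K)) with hγ
  have g0 : 0 < γ := by positivity
  set cJ : ℝ := 2 * (4 ^ J * (6 * J + 3)) + 2 * exp 2 with hcJ
  refine ⟨w, ?_⟩
  have hlog : Tendsto (fun N : ℕ => log N) atTop atTop :=
    tendsto_log_atTop.comp tendsto_natCast_atTop_atTop
  filter_upwards [hlog.eventually (ev_poly_exp 4 B g0), hlog.eventually (ev_poly_exp 12 1 g0),
    hlog.eventually (ev_poly_exp (8 * cJ * exp 73 ^ (11 * J + 1) / θ') (11 * J + 1 : ℕ) g0),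
    hlog.eventually (ev_log_pow (3 * 6 ^ K * exp 73 * (1 + J ^ 2 * (exp 72 * (B + 1)) ^ (2 * J ^ 3)))
      (2 * J ^ 3) (half_pos hε)),
    hlog.eventually ((tendsto_rpow_atTop g0).eventually_ge_atTop (96 + 4 * J)),
    hlog.eventually (eventually_ge_atTop 3), eventually_gt_atTop 0]
    with N e1 e2 e3 e4 e5 e6 hN W q hW1 hWN hW hq2 hq X _ _ v hv hvq
  have hN0 : (0 : ℝ) < N := by exact_mod_cast hN
  have hNl : (N : ℝ) = exp (log N) := (exp_log hN0).symm
  set l := log N with hl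
  set t := l ^ γ with ht
  have l0 : 0 < l := by linarith only [e6]
  have J1 : (1 : ℝ) ≤ J := by exact_mod_cast hJ
  have tt0 : 0 < t := by linarith only [e5, J1]
  have tt1 : t ≤ l / t := by
    rw [le_div_iff₀ tt0, ht, ← rpow_add l0]
    conv_rhs => rw [← rpow_one l]
    exact rpow_le_rpow_of_exponent_le (by linarith only [e6]) (by linarith only [min_le_left (1 / 2) (ε / (2 * K))])
  have tt2 : l / t ≤ l / (4 * J) := div_le_div_of_nonneg_left l0.le (by positivity) (by linarith only [e5])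
  have tt3 : l / (4 * J) ≤ l / 4 := div_le_div_of_nonneg_left l0.le (by positivity) (by linarith only [J1])
  obtain ⟨y1, y2, y3, y4⟩ := floor_exp (x := l / t) (by linarith only [e5, J1, tt1])
  obtain ⟨r1, r2, r3, r4⟩ := floor_exp (x := l / (4 * J)) (by linarith only [e5, J1, tt1, tt2])
  set y := ⌊exp (l / t)⌋₊ with hy
  set R := ⌊exp (l / (4 * J))⌋₊ with hR
  have hyR : y ≤ R := Nat.floor_mono (exp_le_exp.2 tt2)
  have y5 : exp (t / 4) / 2 ≤ y := le_trans (div_le_div_of_nonneg_right (exp_le_exp.2 (by linarith only [tt1, tt0])) zero_le_two) y1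
  rw [rpow_one] at e2
  have y6 : 2 ≤ y := by exact_mod_cast (show (2 : ℝ) ≤ y by linarith only [e2, e5, J1, tt1, tt2, tt3, y5])
  have y0 : (0 : ℝ) < y := by positivity
  have y7 : log y ≤ l := by linarith only [e5, J1, tt1, tt2, tt3, y4]
  have ll : 1 ≤ log l := by
    rw [le_log_iff_exp_le l0]; linarith only [e5, J1, tt1, tt2, tt3, exp_one_lt_d9]
  obtain ⟨m, hm⟩ : ∃ m, ⌊t / 4⌋₊ = m + 1 :=
    Nat.exists_eq_add_one.2 (Nat.floor_pos.2 (by linarith only [e5, J1]))
  have m1 : (m : ℝ) + 1 ≤ t / 4 := by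
    have := Nat.floor_le (show 0 ≤ t / 4 by positivity)
    rwa [hm, Nat.cast_succ] at this
  have m2 : t / 4 ≤ m + 2 := by
    have := Nat.lt_floor_add_one (t / 4)
    rw [hm, Nat.cast_succ] at this
    linarith only [this]
  set Λ₀ := exp 73 * l with hΛ₀
  have L1 : 1 ≤ Λ₀ := by nlinarith only [add_one_le_exp 73, e6, hΛ₀]
  have L2 : exp (log l + 72) ≤ Λ₀ := by
    rw [exp_add, exp_log l0, mul_comm]
    exact mul_le_mul_of_nonneg_right (exp_le_exp.2 (by norm_num)) l0.le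
  have L3 : 6 * t ≤ Λ₀ := by nlinarith only [add_one_le_exp 73, e6, hΛ₀, tt1, tt2, tt3]
  have c0 : 0 < exp 2 := exp_pos 2
  have c1 : (0 : ℝ) < 4 ^ J * (6 * J + 3) := by positivity
  have c2 : 1 ≤ cJ := by linarith only [c0, c1, add_one_le_exp 2]
  have L4 : 1 ≤ Λ₀ ^ (3 * J) := one_le_pow₀ L1
  have hM := maj_finite v hv (s := s) (w := w) (y := y) (R := R) (W := W) (Z := 3 * N) (m := m)
    (θ := θ') (e := cJ * Λ₀ ^ (3 * J) * exp (-(t / 4))) (Λ₀ := Λ₀) (Λ := l ^ (1 + ε)) (U := 6 * t)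
    (g := (exp 72 * (B + 1)) ^ (2 * J ^ 3) * log l ^ (2 * J ^ 3)) (σ := log l + 72) hvq hJ w1 hW
    (by exact_mod_cast (show (q : ℝ) ≤ y by linarith only [hq, e1, y5])) (by omega) hyR (by omega)
    (by
      rw [VP, ← prod_inv_distrib]
      exact (prod_one_sub_inv_prime_inv_le y y6).trans (mul_le_mul_of_nonneg_left y7 (exp_pos _).le))
    ((UU_le y6 hyR (by linarith only [e5, J1, tt1, y3])).trans (by
      clear * - R y t J l e5 J1 tt1 y3 tt0 e6 tt2 tt3 r4 γ
      rw [← mul_div_assoc, div_le_iff₀ (by linarith only [e5, J1, tt1, y3])]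
      calc _ ≤ 6 * t * (l / t / 2) := by
            rw [show 6 * t * (l / t / 2) = 3 * l by field_simp; norm_num]; linarith only [e5, J1, tt1, tt2, tt3, r4]
        _ ≤ _ := by gcongr))
    (fun h => (GG_le J w hq2 h).trans (by
      clear * - q hq2 B l hq ll l0 e6 J
      have q0 : 0 < log q := log_pos (by exact_mod_cast hq2)
      have q1 : log q ≤ (B + 1) * log l := by
        have := log_le_log (by positivity) hq
        rw [log_mul two_ne_zero (by positivity), log_rpow l0] at this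
        linarith only [ll, this, log_two_lt_d9]
      rw [show 2 * (J : ℝ) ^ 3 = (2 * J ^ 3 : ℕ) by push_cast; rfl, exp_nat_mul, exp_add,
        exp_log q0, ← mul_pow]
      exact pow_le_pow_left₀ (by positivity)
        ((mul_le_mul_of_nonneg_right q1 (exp_pos _).le).trans_eq (by ring)) _))
    (by
      clear * - y y6 l J t e5 J1 tt1 y3 y7
      have := (abs_le.1 (abs_sum_inv_prime_sub_loglog_le y y6)).2
      have := log_le_log (by linarith only [e5, J1, tt1, y3]) y7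
      unfold P0
      linarith)
    (by
      clear * - m J l cJ Λ₀ t m2 L2 c1 e6
      rw [show 3 * (J : ℝ) = (3 * J : ℕ) by push_cast; rfl, exp_add, exp_nat_mul]
      calc _ ≤ 2 * (exp (2 + -(t / 4)) * Λ₀ ^ (3 * J)) := by gcongr; linarith only [m2]
        _ = 2 * exp 2 * Λ₀ ^ (3 * J) * exp (-(t / 4)) := by rw [exp_add]; ring
        _ ≤ _ := by gcongr; linarith only [c1])
    (by
      clear * - R J l r2 hJ e6 y m t y6 y2 m1 γ tt0 Λ₀ L2 L1 s ε θ w₀ N W q cJ hNl hN c2 e5 J1 tt1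
        tt2 tt3
      have a1 : (R : ℝ) ^ (2 * J) ≤ exp (l / 2) := (pow_le_pow_left₀ (by positivity) r2 _).trans_eq
        (by rw [← exp_nat_mul]; congr 1; push_cast; field_simp; norm_num)
      have a2 : (y : ℝ) ^ (m + 1) ≤ exp (l / 4) := (pow_le_pow_left₀ (by positivity) y2 _).trans (by
        rw [← exp_nat_mul]
        refine exp_le_exp.2 ?_
        push_cast
        calc _ ≤ t / 4 * (l / t) := by gcongr
          _ = _ := by field_simp)
      have a3 : exp (J * (log l + 72)) ≤ Λ₀ ^ (3 * J) := by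
        rw [exp_nat_mul]
        exact (pow_le_pow_left₀ (by positivity) L2 _).trans (pow_le_pow_right₀ L1 (by omega))
      calc _ ≤ exp (l / 2) * (exp (l / 4) * Λ₀ ^ (3 * J)) := by clear * - R J l y m Λ₀ a1 a2 a3 y6 J1 e5 hNl tt1 tt2 tt3; gcongr
        _ = 1 * exp l * (1 * Λ₀ ^ (3 * J) * exp (-(l / 4))) := by
          rw [← mul_assoc, ← exp_add, one_mul, one_mul, mul_comm (Λ₀ ^ _), ← mul_assoc, ← exp_add]
          congr 2; ring
        _ ≤ _ := by
          clear * - l Λ₀ J N cJ t hNl hN c2 e6 e5 J1 tt1 tt2 tt3 hJ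
          push_cast
          rw [← hNl]
          gcongr
          · norm_num
          · linarith only [e5, J1, tt1, tt2, tt3])
    (by
      clear * - y t y5 J cJ Λ₀ hJ c0 L4
      have a1 : (y : ℝ)⁻¹ ≤ 2 * exp (-(t / 4)) := by
        rw [exp_neg, ← div_eq_mul_inv, ← inv_div]
        exact inv_anti₀ (by positivity) y5
      calc _ ≤ 4 ^ J * (6 * J + 3) * (2 * exp (-(t / 4))) := by gcongr
        _ = 2 * (4 ^ J * (6 * J + 3)) * 1 * exp (-(t / 4)) := by ring
        _ ≤ _ := by gcongr; linarith only [c0])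
    (by
      clear * - cJ Λ₀ J t θ' l e6 γ L3 hJ hΛ₀ t0 e3 w w2
      have a1 : 4 * (cJ * Λ₀ ^ (3 * J) * exp (-(t / 4))) * (6 * t) ^ (7 * J) * Λ₀ ^ (J + 1)
          ≤ θ' / 2 := by
        rw [rpow_natCast, div_mul_eq_mul_div, div_le_iff₀ t0] at e3
        calc _ ≤ 4 * (cJ * Λ₀ ^ (3 * J) * exp (-(t / 4))) * Λ₀ ^ (7 * J) * Λ₀ ^ (J + 1) := by gcongr
          _ = 8 * cJ * exp 73 ^ (11 * J + 1) * l ^ (11 * J + 1) * exp (-(t / 4)) / 2 := by
            rw [mul_assoc (8 * cJ), ← mul_pow, ← hΛ₀]; ring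
          _ ≤ exp (t / 4) * θ' * exp (-(t / 4)) / 2 := by gcongr
          _ = _ := by rw [mul_right_comm, ← exp_add]; simp
      linarith only [w2, a1])
    (min_le_right _ _)
    (by
      clear * - t K l ε γ ht l0 J e5 J1 tt1 tt2 tt3 hJ K0 hε ll B Λ₀ hK hΛ₀ e6 hB e4
      have a1 : t ^ K ≤ l ^ (ε / 2) := by
        rw [ht, ← rpow_mul_natCast l0.le]
        refine rpow_le_rpow_of_exponent_le (by linarith only [e5, J1, tt1, tt2, tt3]) ?_
        calc _ ≤ ε / (2 * K) * K := by gcongr; exact min_le_right _ _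
          _ = _ := by field_simp
      have a2 : 1 ≤ log l ^ (2 * J ^ 3) := one_le_pow₀ ll
      calc _ = 3 * 6 ^ K * exp 73 * (1 + J ^ 2 * ((exp 72 * (B + 1)) ^ (2 * J ^ 3) *
            log l ^ (2 * J ^ 3))) * t ^ K * l := by rw [← hK, mul_pow 6 t, hΛ₀]; ring
        _ ≤ 3 * 6 ^ K * exp 73 * (log l ^ (2 * J ^ 3) + J ^ 2 * ((exp 72 * (B + 1)) ^ (2 * J ^ 3) *
            log l ^ (2 * J ^ 3))) * l ^ (ε / 2) * l := by clear * - l K J B t ε a2 a1 e6 γ ll hJ hB; gcongr
        _ ≤ l ^ (ε / 2) * l ^ (ε / 2) * l := by clear * - l K J B ε e4 e6; gcongr; exact le_trans (le_of_eq (by ring)) e4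
        _ = _ := by rw [← rpow_add l0, rpow_add l0 1, rpow_one, add_halves, mul_comm])
    (hw₀ w ((le_max_left _ _).trans (le_max_left _ _)) q X v hv hvq)
  refine ⟨_, _, _, R, hM.mono (min_le_left _ _), r2.trans (exp_le_exp.2 tt3), fun n x hn hRn => ?_⟩
  have b0 : N ≤ 2 ^ ⌈2 * l⌉₊ := by
    clear * - N l hNl l0
    have : (N : ℝ) ≤ 2 ^ ⌈2 * l⌉₊ := by
      calc _ = exp l := hNl
        _ ≤ exp (⌈2 * l⌉₊ * log 2) := exp_le_exp.2 (by
          nlinarith only [Nat.le_ceil (2 * l), log_two_gt_d9, l0])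
        _ = _ := by rw [exp_nat_mul, exp_log two_pos]
    exact_mod_cast this
  have b1 : R ≤ N := by
    clear * - R N l J r2 hNl t e5 J1 tt1 tt2 tt3
    exact_mod_cast (show (R : ℝ) ≤ N from r2.trans (by rw [hNl]; exact exp_le_exp.2 (by linarith only [e5, J1, tt1, tt2, tt3])))
  have b2 : 2 * ⌈2 * l⌉₊ ≤ y := by
    clear * - l e6 y t J e2 e5 J1 tt1 tt2 tt3 y5
    have := Nat.ceil_lt_add_one (show 0 ≤ 2 * l by positivity)
    exact_mod_cast (show 2 * (⌈2 * l⌉₊ : ℝ) ≤ y by linarith only [e2, e5, J1, tt1, tt2, tt3, y5, this])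
  have b3 : log R * VP (P0 y) ≤ 4 * Gp (P2 y R W) R :=
    log_le_Gp (by omega) hyR hW1 (hWN.trans b0) (b1.trans b0) b2
  have b4 : 1 ≤ Gp (P2 y R W) R := one_le_Gp (by omega)
  have b5 : 0 < VP (P0 y) := VP_pos fun p => P0_prime
  rw [value hyR hn hRn (dvd_mul_right _ _), sq, mul_inv_cancel_right₀ (by linarith only [b4]),
    ← div_eq_mul_inv, div_le_div_iff₀ (by positivity) (by clear * - N y hN b5; positivity)]
  have b6 : l ≤ 8 * J * log R := by
    rw [div_div, div_le_iff₀ (by positivity)] at r3; linarith only [r3]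
  push_cast
  calc _ ≤ 8 * J * log R * (3 * N * VP (P0 y)) := by clear * - N y l J R b6 hN b5 W; gcongr
    _ = 24 * J * N * (log R * VP (P0 y)) := by ring
    _ ≤ 24 * J * N * (4 * Gp (P2 y R W) R) := by gcongr
    _ = _ := by ring

end

end Pool.Agent.Work.MP_89ab3c_nt
end

-- merged part: Pool.Agent.Work.MP_89ab3c_nt.Main
section
/-!
# The narrow transference theorem for the primes
-/

set_option autoImplicit false

namespace Pool.Agent.Work.MP_89ab3c_nt

open Finset Filter Real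

theorem narrow (s : ℕ) (hs : 1 ≤ s) (C B : ℝ) {ε α : ℝ} (hε : 0 < ε) (hα : 0 < α) :
    ∃ δ : ℝ, 0 < δ ∧ ∀ c : ℝ, 0 < c → ∃ w : ℕ, ∀ᶠ N : ℕ in atTop, ∀ (M W : ℕ) (T A : Finset ℕ),
      1 ≤ W → (∀ p : ℕ, p.Prime → p ≤ w → p ∣ W) → W * M ≤ N → (M : ℝ) ≤ log N ^ B →
      T ⊆ Icc 1 M → log N ^ (1 + ε) ≤ T.card → Rst s M C T → Sat M δ c T →
      (∀ p ∈ A, p.Prime ∧ p ≤ N) → α * N / log N ≤ A.card →
      ∃ a ∈ A, ∃ a' ∈ A, ∃ t ∈ T, a = a' + W * t := by
  classical
  set B' := max B 1 with hB'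
  have B1 : 1 ≤ B' := le_max_right _ _
  obtain ⟨K0, hK0⟩ : ∃ K0, K0 = ⌈2 * (B' + 1) / ε⌉₊ + 1 := ⟨_, rfl⟩
  obtain ⟨r, hr⟩ : ∃ r, 4 * K0 * s + 2 ≤ 2 ^ r := ⟨_, Nat.lt_two_pow_self.le⟩
  have J0 : (0 : ℝ) < (2 ^ r : ℕ) := by positivity
  obtain ⟨δ, hδ, H⟩ := trans s K0 r hs (by omega) hr (le_max_right C 1)
    (α := α / (384 * (2 ^ r : ℕ))) (by positivity)
  refine ⟨δ, hδ, fun c hc => ?_⟩
  obtain ⟨θ, hθ, H⟩ := H c hc
  obtain ⟨w, hw⟩ := majorant (2 ^ r) s Nat.one_le_two_pow hs B1 (half_pos hε) hθ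
  refine ⟨w, ?_⟩
  have hlog : Tendsto (fun N : ℕ => log N) atTop atTop :=
    tendsto_log_atTop.comp tendsto_natCast_atTop_atTop
  filter_upwards [hw, hlog.eventually (ev_poly_exp (2 / α) 1 one_pos),
    hlog.eventually ((tendsto_rpow_atTop (half_pos hε)).eventually_ge_atTop θ⁻¹),
    hlog.eventually (eventually_ge_atTop (max 2 θ⁻¹)), eventually_gt_atTop 0]
    with N e1 e2 e3 e4 hN M W T A hW1 hW hWM hMB hT hTc hR hS hA hAc
  have hN0 : (0 : ℝ) < N := by exact_mod_cast hN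
  have hNl : exp (log N) = N := exp_log hN0
  set l := log N with hl
  have l2 : 2 ≤ l := (le_max_left _ _).trans e4
  have l0 : 0 < l := by linarith only [l2]
  have d1 : l ≤ T.card := le_trans (by
    conv_lhs => rw [← rpow_one l]
    exact rpow_le_rpow_of_exponent_le (by linarith only [l2]) (by linarith only [hε])) hTc
  have d0 : (0 : ℝ) < T.card := by linarith only [l2, d1]
  have hM : 2 ≤ M := by
    have : T.card ≤ M := (card_le_card hT).trans_eq (by simp)
    have : 2 ≤ T.card := by exact_mod_cast l2.trans d1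
    omega
  have hM0 : (0 : ℝ) < M := by positivity
  have : NeZero (2 * M) := ⟨by omega⟩
  have hMB' : (M : ℝ) ≤ l ^ B' :=
    hMB.trans (rpow_le_rpow_of_exponent_le (by linarith only [l2]) (le_max_left _ _))
  obtain ⟨pp, ν, G, R, hMaj, hRl, hval⟩ := e1 W (2 * M) hW1
    ((Nat.le_mul_of_pos_right W (by omega)).trans hWM) hW (by omega) (by push_cast; linarith only [hMB'])
    (ZMod (2 * M)) ZMod.val (ZMod.val_injective _) ZMod.val_lt
  have q1 : l ^ (1 + ε / 2) / T.card ≤ (l ^ (ε / 2))⁻¹ := by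
    rw [div_le_iff₀ d0, le_inv_mul_iff₀ (by positivity), ← rpow_add l0]
    exact le_trans (le_of_eq (by congr 1; ring)) hTc
  obtain ⟨z, x, y, ⟨-, n, hn, -, e5⟩, ⟨-, n', hn', -, e6⟩, t, ht, e7⟩ := H M (2 * M) T _ pp ν G _
    (fun z x => (M / 2 ≤ x.val ∧ x.val < M) ∧ ∃ n ∈ A, R < n ∧ z = n + W * x.val) rfl hM hT
    (card_pos.1 (by exact_mod_cast d0))
    (fun n => (hR n).trans (mul_le_mul_of_nonneg_right (le_max_left _ _) (by clear * - T s d0 hMaj hS; positivity))) hS hMaj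
    (by positivity)
    (by rw [← div_le_iff₀ d0]; exact q1.trans (inv_le_of_inv_le₀ hθ e3))
    (by
      clear * - B' ε K0 hK0 hε M l T θ hMB' l2 d0 q1 l0 hθ e4 this
      have a1 : B' + 1 ≤ ε / 2 * K0 := by
        have := Nat.le_ceil (2 * (B' + 1) / ε)
        rw [div_le_iff₀ hε] at this
        rw [hK0]; push_cast; linarith only [hε, this]
      calc _ ≤ l ^ B' * (l ^ (ε / 2))⁻¹ ^ K0 := by gcongr
        _ = l ^ (B' - ε / 2 * K0) := by
          rw [inv_pow, ← rpow_mul_natCast l0.le, rpow_sub l0, div_eq_mul_inv (l ^ B')]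
        _ ≤ l ^ (-1 : ℝ) := rpow_le_rpow_of_exponent_le (by linarith only [l2]) (by linarith only [a1])
        _ ≤ _ := by
          rw [rpow_neg_one]; exact inv_le_of_inv_le₀ hθ ((le_max_right _ _).trans e4))
    (fun z x h => h.1)
    (by
      clear * - α N l R A hA l2 hNl hRl hα e2 hN hAc M this s B ε K0 r W hM pp ν hval hWM θ G hMaj
      have a1 : α * N / (2 * l) ≤ (A.filter (R < ·)).card := by
        clear * - A R N hA α l l2 hNl hRl hα e2 hN hAc s
        have b1 : A.card ≤ (A.filter (R < ·)).card + R := by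
          rw [← card_filter_add_card_filter_not (s := A) (R < ·)]
          refine Nat.add_le_add_left ((card_le_card fun p hp => ?_).trans_eq (by simp :
            (Icc 1 R).card = R)) _
          rw [mem_filter] at hp
          exact mem_Icc.2 ⟨(hA p hp.1).1.pos, not_lt.1 hp.2⟩
        have b2 : (A.card : ℝ) ≤ (A.filter (R < ·)).card + R := by exact_mod_cast b1
        have b3 : (R : ℝ) ≤ α * N / (2 * l) := by
          rw [rpow_one, div_mul_eq_mul_div, div_le_iff₀ hα] at e2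
          rw [le_div_iff₀ (by positivity), ← hNl]
          calc _ ≤ exp (l / 4) * (exp (l / 4) * α) := by gcongr
            _ = α * exp (l / 4 + l / 4) := by rw [exp_add]; ring
            _ ≤ _ := by gcongr; linarith only [l2]
        have b4 : α * N / l = 2 * (α * N / (2 * l)) := by field_simp
        linarith only [hAc, b2, b3, b4]
      set Win := univ.filter fun x : ZMod (2 * M) => M / 2 ≤ x.val ∧ x.val < M with hWin
      have a2 : (M : ℝ) / 2 ≤ Win.card := by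
        clear * - M Win this hWin s B ε K0 r N W hM
        have b1 : (Ico (M / 2) M).card ≤ Win.card := by
          refine card_le_card_of_injOn (fun e => (e : ZMod (2 * M))) (fun e he => ?_)
            fun e he e' he' h => ?_
          · rw [mem_coe, mem_Ico] at he
            simp only [hWin, coe_filter, mem_univ, true_and, Set.mem_ofPred_eq]
            rwa [ZMod.val_cast_of_lt (by omega)]
          · rw [mem_coe, mem_Ico] at he he'
            have := congrArg ZMod.val h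
            rwa [ZMod.val_cast_of_lt (by omega), ZMod.val_cast_of_lt (by omega)] at this
        rw [Nat.card_Ico] at b1
        rw [div_le_iff₀ two_pos]
        exact_mod_cast (show M ≤ Win.card * 2 by omega)
      simp only [mul_sum, sum_filter]
      rw [sum_comm]
      calc _ = (M : ℝ) / 2 * (α * N / (2 * l) * (l / (96 * (2 ^ r : ℕ) * N))) := by
            field_simp; norm_num
        _ ≤ ∑ x ∈ Win, ∑ n ∈ A.filter (R < ·), l / (96 * (2 ^ r : ℕ) * N) := by
            clear * - M α N l r Win R A a2 a1 l2 hN hα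
            simp only [sum_const, nsmul_eq_mul]; gcongr
        _ ≤ ∑ x ∈ Win, ∑ z ∈ Ioc 0 (3 * N), pp z * if (M / 2 ≤ x.val ∧ x.val < M) ∧
              ∃ n ∈ A, R < n ∧ z = n + W * x.val then ν z x else 0 := by
            refine sum_le_sum fun x hx => ?_
            have hx' := (mem_filter.1 hx).2
            refine le_trans (le_trans (sum_le_sum fun n hn => ?_) (sum_image (g := (· + W * x.val))
              (s := A.filter (R < ·)) fun _ _ _ _ h => Nat.add_right_cancel h).ge)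
              (sum_le_sum_of_subset_of_nonneg (fun z hz => ?_) fun z _ _ =>
                mul_nonneg (hMaj.π0 z) ?_)
            · rw [mem_filter] at hn
              rw [if_pos ⟨hx', n, hn.1, hn.2, rfl⟩]
              exact hval n x (hA n hn.1).1 hn.2
            · obtain ⟨n, hn, rfl⟩ := mem_image.1 hz
              have c1 := hA n (mem_filter.1 hn).1
              have c2 := c1.1.pos
              have c3 : W * x.val ≤ W * M := Nat.mul_le_mul_left W hx'.2.le
              exact mem_Ioc.2 ⟨by omega, by omega⟩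
            · split_ifs
              · exact hMaj.ν0 _ _
              · exact le_rfl
        _ ≤ _ := sum_le_sum_of_subset_of_nonneg (subset_univ _) fun x _ _ =>
            sum_nonneg fun z _ => mul_nonneg (hMaj.π0 z) (by
              split_ifs
              · exact hMaj.ν0 _ _
              · exact le_rfl))
  refine ⟨n, hn, n', hn', t, ht, ?_⟩
  rw [e7, mul_add] at e6
  omega

end Pool.Agent.Work.MP_89ab3c_nt
end
end
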