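import Mathlib
import Pool.Agent.Work.MP_45c923_nt.Basic
import Pool.Agent.Work.MP_89ab3c_nt.Main

-- merged part: Pool.Agent.Work.MP_89ab3c_nt.LinA
section
/-!
# Solutions of `h₁ n₁ + h₂ n₂ + h₃ n₃ + h₄ n₄ = 0`

By symmetry let `a` be the larger of the first and the last coefficient, `b₃ ≤ a` the smaller, `b₁, b₂` the
other two.  The variable at `a` is determined by the others, which satisfy
`a ∣ b₁ n₁ + b₂ n₂ + b₃ n₃`.  Counting `n₁` and then `n₂` gives at most `27 Z^3 gcd(a, b₁, b₂) / a`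
solutions; the sum over `b₃ ≤ a` cancels `1 / a`, and `∑ gcd(a, b₁, b₂) ≤ ∑_g g (3 P / g)^3`.
-/

set_option autoImplicit false

namespace Pool.Agent.Work.MP_89ab3c_nt

open Finset

namespace LinAAux

theorem cls (Z d n0 : ℤ) (hd : 1 ≤ d) (hZ : d ≤ Z) :
    (((Icc (-Z) Z).filter fun n => d ∣ n - n0).card : ℝ) ≤ 3 * Z / d := by
  have h1 : ((Icc (-Z) Z).filter fun n => d ∣ n - n0).card ≤ (Icc (0 : ℤ) (2 * Z / d)).card := by
    refine card_le_card_of_injOn (fun n => (n + Z) / d) ?_ ?_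
    · intro n hn
      simp only [coe_filter, mem_Icc, Set.mem_ofPred_eq, coe_Icc, Set.mem_Icc] at hn ⊢
      exact ⟨Int.ediv_nonneg (by omega) (by omega), Int.ediv_le_ediv (by omega) (by omega)⟩
    · intro n hn m hm h
      simp only [coe_filter, mem_Icc, Set.mem_ofPred_eq] at hn hm h
      have e1 := Int.emod_add_mul_ediv (n + Z) d
      have e2 := Int.emod_add_mul_ediv (m + Z) d
      have e3 : (n + Z) % d = (m + Z) % d := by
        refine Int.emod_eq_emod_iff_emod_sub_eq_zero.mpr (Int.emod_eq_zero_of_dvd ?_)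
        have := dvd_sub hn.2 hm.2
        rwa [show n - n0 - (m - n0) = n + Z - (m + Z) by ring] at this
      rw [h, e3] at e1
      omega
  have hd' : (0 : ℝ) < d := by exact_mod_cast (by omega : (0 : ℤ) < d)
  have hZ' : (d : ℝ) ≤ Z := by exact_mod_cast hZ
  have h0 : 0 ≤ 2 * Z / d := Int.ediv_nonneg (by omega) (by omega)
  have h2 : ((Icc (0 : ℤ) (2 * Z / d)).card : ℤ) = 2 * Z / d + 1 := by
    rw [Int.card_Icc, Int.toNat_of_nonneg (by omega)]
    ring
  have h3 : (2 * Z / d) * d ≤ 2 * Z := Int.ediv_mul_le _ (by omega)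
  have h4 : (((Icc (-Z) Z).filter fun n => d ∣ n - n0).card : ℤ) * d ≤ 3 * Z := by
    have : (((Icc (-Z) Z).filter fun n => d ∣ n - n0).card : ℤ) ≤ 2 * Z / d + 1 := by
      rw [← h2]
      exact_mod_cast h1
    nlinarith only [hZ, h1, h2, h3, hd]
  rw [le_div_iff₀ hd']
  exact_mod_cast h4

theorem lin (Z a b c : ℤ) (ha : 1 ≤ a) (hZ : a ≤ Z) :
    (∑ n ∈ Icc (-Z) Z, if a ∣ b * n + c then (1 : ℝ) else 0) ≤
      3 * Z * (Int.gcd a b : ℤ) / a * (if (Int.gcd a b : ℤ) ∣ c then 1 else 0) := by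
  have hg : 0 < Int.gcd a b := Int.gcd_pos_of_ne_zero_left _ (by omega)
  have ha' : (0 : ℝ) < a := by exact_mod_cast (by omega : (0 : ℤ) < a)
  have hZ' : (0 : ℝ) < Z := by exact_mod_cast (by omega : (0 : ℤ) < Z)
  rw [sum_boole]
  rcases ((Icc (-Z) Z).filter fun n => a ∣ b * n + c).eq_empty_or_nonempty with h | ⟨n0, hn0⟩
  · rw [h]
    simp only [card_empty, Nat.cast_zero]
    positivity
  have h0 := (mem_filter.mp hn0).2
  have hgc : (Int.gcd a b : ℤ) ∣ c :=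
    (dvd_add_right ((Int.gcd_dvd_right a b).mul_right n0)).mp ((Int.gcd_dvd_left a b).trans h0)
  rw [if_pos hgc, mul_one]
  obtain ⟨d, b', hco, hd, hb⟩ := Int.exists_gcd_one hg
  set g : ℤ := (Int.gcd a b : ℤ) with hgdef
  have hg' : 0 < g := Int.natCast_pos.mpr hg
  have hd1 : 1 ≤ d := by
    by_contra hh
    linarith only [ha, hd, hh, mul_nonneg_of_nonpos_of_nonpos (Mathlib.Tactic.Linarith.sub_nonpos_of_le (Mathlib.Tactic.Linarith.natCast_nonneg ℤ (a.gcd b))) (Mathlib.Tactic.Linarith.sub_nonpos_of_le (Int.add_one_le_iff.mpr (lt_of_not_ge hh)))]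
  have hdZ : d ≤ Z := by nlinarith only [hg, hd, hZ, ha]
  have hsub : ((Icc (-Z) Z).filter fun n => a ∣ b * n + c) ⊆
      (Icc (-Z) Z).filter fun n => d ∣ n - n0 := by
    intro n hn
    rw [mem_filter] at hn ⊢
    refine ⟨hn.1, ?_⟩
    have h1 : d * g ∣ (b' * (n - n0)) * g := by
      have := dvd_sub hn.2 h0
      have e : b * n + c - (b * n0 + c) = b' * (n - n0) * g := by
        rw [hb]
        ring
      rwa [e, hd] at this
    exact Int.dvd_of_dvd_mul_right_of_gcd_one ((mul_dvd_mul_iff_right hg'.ne').mp h1) hco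
  have h2 := cls Z d n0 hd1 hdZ
  have h3 : (((Icc (-Z) Z).filter fun n => a ∣ b * n + c).card : ℝ) ≤
      ((Icc (-Z) Z).filter fun n => d ∣ n - n0).card := by exact_mod_cast card_le_card hsub
  refine h3.trans (h2.trans (le_of_eq ?_))
  have hd' : (0 : ℝ) < d := by exact_mod_cast (by omega : (0 : ℤ) < d)
  have hgr : (0 : ℝ) < g := by exact_mod_cast hg'
  have e : (a : ℝ) = d * g := by exact_mod_cast hd
  rw [e]
  field_simp

theorem three (Z a b1 b2 b3 : ℤ) (ha : 1 ≤ a) (hZ : a ≤ Z) :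
    (∑ n3 ∈ Icc (-Z) Z, ∑ n2 ∈ Icc (-Z) Z, ∑ n1 ∈ Icc (-Z) Z,
      if a ∣ b1 * n1 + (b2 * n2 + b3 * n3) then (1 : ℝ) else 0) ≤
      27 * Z ^ 3 * (Int.gcd (Int.gcd a b1 : ℤ) b2 : ℤ) / a := by
  have hg : 0 < Int.gcd a b1 := Int.gcd_pos_of_ne_zero_left _ (by omega)
  have ha' : (0 : ℝ) < a := by exact_mod_cast (by omega : (0 : ℤ) < a)
  have hZ1 : (1 : ℝ) ≤ Z := by exact_mod_cast (by omega : (1 : ℤ) ≤ Z)
  set g : ℤ := (Int.gcd a b1 : ℤ) with hgdef
  have hg1 : 1 ≤ g := Int.natCast_pos.mpr hg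
  have hgZ : g ≤ Z := (Int.le_of_dvd (by omega) (Int.gcd_dvd_left a b1)).trans hZ
  have hgr : (0 : ℝ) < g := by exact_mod_cast (by omega : (0 : ℤ) < g)
  have h1 : ∀ n3 ∈ Icc (-Z) Z, (∑ n2 ∈ Icc (-Z) Z, ∑ n1 ∈ Icc (-Z) Z,
      if a ∣ b1 * n1 + (b2 * n2 + b3 * n3) then (1 : ℝ) else 0) ≤
      9 * Z ^ 2 * (Int.gcd g b2 : ℤ) / a := by
    intro n3 _
    refine (sum_le_sum fun n2 _ => lin Z a b1 (b2 * n2 + b3 * n3) ha hZ).trans ?_
    rw [← mul_sum]
    refine (mul_le_mul_of_nonneg_left (lin Z g b2 (b3 * n3) hg1 hgZ) (by positivity)).trans ?_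
    have e : (9 * Z ^ 2 * (Int.gcd g b2 : ℤ) / a : ℝ) =
        3 * Z * g / a * (3 * Z * (Int.gcd g b2 : ℤ) / g * 1) := by
      field_simp
      ring
    rw [e]
    refine mul_le_mul_of_nonneg_left (mul_le_mul_of_nonneg_left ?_ (by positivity)) (by positivity)
    split_ifs <;> norm_num
  refine (sum_le_card_nsmul _ _ _ h1).trans ?_
  have hc : ((Icc (-Z) Z).card : ℝ) ≤ 3 * Z := by
    have : ((Icc (-Z) Z).card : ℤ) ≤ 3 * Z := by
      rw [Int.card_Icc, Int.toNat_of_nonneg (by omega)]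
      omega
    exact_mod_cast this
  rw [nsmul_eq_mul]
  refine (mul_le_mul_of_nonneg_right hc (by positivity)).trans (le_of_eq ?_)
  ring

theorem mult (P g : ℤ) (hg : 1 ≤ g) (hP : g ≤ P) :
    (∑ x ∈ Icc 1 P, if g ∣ x then (1 : ℝ) else 0) ≤ 3 * P / g := by
  rw [sum_boole]
  refine le_trans ?_ (cls P g 0 hg hP)
  refine Nat.cast_le.mpr (card_le_card fun x hx => ?_)
  simp only [mem_filter, mem_Icc, sub_zero] at hx ⊢
  exact ⟨⟨by omega, hx.1.2⟩, hx.2⟩

theorem zeta2 (P : ℕ) (hP : 1 ≤ P) : ∑ g ∈ Icc (1 : ℤ) P, 1 / (g : ℝ) ^ 2 ≤ 2 - 1 / (P : ℝ) := by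
  induction P, hP using Nat.le_induction with
  | base => norm_num
  | succ P hP ih =>
    have hP' : (0 : ℝ) < P := by exact_mod_cast hP
    have e : Icc (1 : ℤ) ((P + 1 : ℕ) : ℤ) = insert ((P : ℤ) + 1) (Icc (1 : ℤ) P) := by
      ext x
      simp only [mem_Icc, mem_insert]
      omega
    rw [e, sum_insert (by simp)]
    push_cast
    have h1 : 1 / ((P : ℝ) + 1) ^ 2 ≤ 1 / (P * (P + 1)) :=
      one_div_le_one_div_of_le (by positivity) (by linarith only [hP'])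
    have h2 : 1 / ((P : ℝ) * (P + 1)) = 1 / P - 1 / (P + 1) := by
      field_simp
      ring
    linarith only [ih, h1, h2]

theorem gcds (P : ℕ) (hP : 1 ≤ P) :
    (∑ a ∈ Icc (1 : ℤ) P, ∑ b1 ∈ Icc (1 : ℤ) P, ∑ b2 ∈ Icc (1 : ℤ) P,
      ((Int.gcd (Int.gcd a b1 : ℤ) b2 : ℤ) : ℝ)) ≤ 54 * (P : ℝ) ^ 3 := by
  have h1 : (∑ a ∈ Icc (1 : ℤ) P, ∑ b1 ∈ Icc (1 : ℤ) P, ∑ b2 ∈ Icc (1 : ℤ) P,
      ((Int.gcd (Int.gcd a b1 : ℤ) b2 : ℤ) : ℝ)) ≤
      ∑ a ∈ Icc (1 : ℤ) P, ∑ b1 ∈ Icc (1 : ℤ) P, ∑ b2 ∈ Icc (1 : ℤ) P, ∑ g ∈ Icc (1 : ℤ) P,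
        (g : ℝ) * ((if g ∣ a then 1 else 0) * ((if g ∣ b1 then 1 else 0) *
          (if g ∣ b2 then 1 else 0))) := by
    refine sum_le_sum fun a ha => sum_le_sum fun b1 _ => sum_le_sum fun b2 hb2 => ?_
    rw [mem_Icc] at ha hb2
    set g : ℤ := (Int.gcd (Int.gcd a b1 : ℤ) b2 : ℤ) with hgdef
    have hg : 0 < Int.gcd (Int.gcd a b1 : ℤ) b2 := Int.gcd_pos_of_ne_zero_right _ (by omega)
    have d1 : g ∣ a := (Int.gcd_dvd_left _ _).trans (Int.gcd_dvd_left _ _)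
    have d2 : g ∣ b1 := (Int.gcd_dvd_left _ _).trans (Int.gcd_dvd_right _ _)
    have d3 : g ∣ b2 := Int.gcd_dvd_right _ _
    have hm : g ∈ Icc (1 : ℤ) P :=
      mem_Icc.mpr ⟨Int.natCast_pos.mpr hg, (Int.le_of_dvd (by omega) d1).trans ha.2⟩
    refine le_trans ?_ (single_le_sum (f := fun g : ℤ => (g : ℝ) * ((if g ∣ a then 1 else 0) *
      ((if g ∣ b1 then 1 else 0) * (if g ∣ b2 then 1 else 0)))) (fun x hx => ?_) hm)
    · simp [d1, d2, d3]
    · have : (0 : ℝ) ≤ x := by exact_mod_cast (by have := (mem_Icc.mp hx).1; omega : (0 : ℤ) ≤ x)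
      positivity
  refine h1.trans ?_
  have e : (∑ a ∈ Icc (1 : ℤ) P, ∑ b1 ∈ Icc (1 : ℤ) P, ∑ b2 ∈ Icc (1 : ℤ) P, ∑ g ∈ Icc (1 : ℤ) P,
        (g : ℝ) * ((if g ∣ a then 1 else 0) * ((if g ∣ b1 then 1 else 0) *
          (if g ∣ b2 then 1 else 0)))) = ∑ g ∈ Icc (1 : ℤ) P,
        (g : ℝ) * (∑ x ∈ Icc (1 : ℤ) P, if g ∣ x then (1 : ℝ) else 0) ^ 3 := by
    have e1 : ∀ g : ℤ, (g : ℝ) * (∑ x ∈ Icc (1 : ℤ) P, if g ∣ x then (1 : ℝ) else 0) ^ 3 =
        ∑ a ∈ Icc (1 : ℤ) P, ∑ b1 ∈ Icc (1 : ℤ) P, ∑ b2 ∈ Icc (1 : ℤ) P,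
        (g : ℝ) * ((if g ∣ a then 1 else 0) * ((if g ∣ b1 then 1 else 0) *
          (if g ∣ b2 then 1 else 0))) := fun g => by
      simp only [← mul_sum, ← sum_mul]
      ring
    simp only [e1]
    conv_rhs => rw [sum_comm]
    refine sum_congr rfl fun a _ => ?_
    conv_rhs => rw [sum_comm]
    exact sum_congr rfl fun b _ => sum_comm
  rw [e]
  have hP' : (0 : ℝ) < P := by exact_mod_cast hP
  have h2 : ∀ g ∈ Icc (1 : ℤ) P, (g : ℝ) * (∑ x ∈ Icc (1 : ℤ) P, if g ∣ x then (1 : ℝ) else 0) ^ 3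
      ≤ 27 * (P : ℝ) ^ 3 * (1 / (g : ℝ) ^ 2) := by
    intro g hg
    rw [mem_Icc] at hg
    have hgr : (0 : ℝ) < g := by exact_mod_cast (by omega : (0 : ℤ) < g)
    have h3 := mult P g hg.1 hg.2
    refine (mul_le_mul_of_nonneg_left (pow_le_pow_left₀ (sum_nonneg fun x _ => by positivity) h3 3)
      hgr.le).trans (le_of_eq ?_)
    push_cast
    field_simp
    norm_num
  refine (sum_le_sum h2).trans ?_
  rw [← mul_sum]
  have h4 := zeta2 P hP
  have h5 : (0 : ℝ) ≤ 1 / (P : ℝ) := by positivity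
  have h6 : (0 : ℝ) ≤ 27 * (P : ℝ) ^ 3 := by positivity
  linarith only [h4, h6, h5, mul_nonneg_of_nonpos_of_nonpos (Mathlib.Tactic.Linarith.sub_nonpos_of_le h4) (Mathlib.Tactic.Linarith.sub_nonpos_of_le h6), mul_nonneg_of_nonpos_of_nonpos (Mathlib.Tactic.Linarith.sub_nonpos_of_le h5) (Mathlib.Tactic.Linarith.sub_nonpos_of_le h6)]

/-- The target set. -/
noncomputable def T (P Z : ℕ) : Finset ((ℤ × ℤ × ℤ × ℤ) × ℤ × ℤ × ℤ) :=
  ((Icc (1 : ℤ) P ×ˢ Icc (1 : ℤ) P ×ˢ Icc (1 : ℤ) P ×ˢ Icc (1 : ℤ) P) ×ˢ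
    Icc (-(Z : ℤ)) Z ×ˢ Icc (-(Z : ℤ)) Z ×ˢ Icc (-(Z : ℤ)) Z).filter fun t =>
      t.1.2.2.2 ≤ t.1.1 ∧ t.1.1 ∣ t.1.2.1 * t.2.2.2 + (t.1.2.2.1 * t.2.2.1 + t.1.2.2.2 * t.2.1)

theorem card_T (P Z : ℕ) (hP : 1 ≤ P) (hZ : P ≤ Z) :
    ((T P Z).card : ℝ) ≤ 27 * 54 * ((P : ℝ) * Z) ^ 3 := by
  have hPZ : (P : ℤ) ≤ Z := by exact_mod_cast hZ
  rw [T, ← sum_boole]
  simp only [sum_product]
  have h1 : ∀ a ∈ Icc (1 : ℤ) P, ∀ b1 b2 : ℤ, (∑ b3 ∈ Icc (1 : ℤ) P, ∑ n3 ∈ Icc (-(Z : ℤ)) Z,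
      ∑ n2 ∈ Icc (-(Z : ℤ)) Z, ∑ n1 ∈ Icc (-(Z : ℤ)) Z,
      if b3 ≤ a ∧ a ∣ b1 * n1 + (b2 * n2 + b3 * n3) then (1 : ℝ) else 0) ≤
      27 * (Z : ℝ) ^ 3 * (Int.gcd (Int.gcd a b1 : ℤ) b2 : ℤ) := by
    intro a ha b1 b2
    rw [mem_Icc] at ha
    have ha' : (0 : ℝ) < a := by exact_mod_cast (by omega : (0 : ℤ) < a)
    have h2 : ∀ b3 ∈ Icc (1 : ℤ) P, (∑ n3 ∈ Icc (-(Z : ℤ)) Z,
        ∑ n2 ∈ Icc (-(Z : ℤ)) Z, ∑ n1 ∈ Icc (-(Z : ℤ)) Z,
        if b3 ≤ a ∧ a ∣ b1 * n1 + (b2 * n2 + b3 * n3) then (1 : ℝ) else 0) ≤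
        (if b3 ≤ a then 1 else 0) *
          (27 * (Z : ℝ) ^ 3 * (Int.gcd (Int.gcd a b1 : ℤ) b2 : ℤ) / a) := by
      intro b3 _
      by_cases h : b3 ≤ a
      · simp only [h, true_and, if_true, one_mul]
        exact_mod_cast three Z a b1 b2 b3 ha.1 (ha.2.trans hPZ)
      · simp [h]
    refine (sum_le_sum h2).trans ?_
    rw [← sum_mul, sum_boole]
    have h3 : (((Icc (1 : ℤ) P).filter fun b3 => b3 ≤ a).card : ℝ) ≤ a := by
      have h4 : ((Icc (1 : ℤ) P).filter fun b3 => b3 ≤ a).card ≤ (Icc (1 : ℤ) a).card :=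
        card_le_card fun x hx => by
          simp only [mem_filter, mem_Icc] at hx ⊢
          exact ⟨hx.1.1, hx.2⟩
      have h5 : ((Icc (1 : ℤ) a).card : ℤ) = a := by
        rw [Int.card_Icc, Int.toNat_of_nonneg (by omega)]
        ring
      have : (((Icc (1 : ℤ) P).filter fun b3 => b3 ≤ a).card : ℤ) ≤ a := by
        omega
      exact_mod_cast this
    refine (mul_le_mul_of_nonneg_right h3 (by positivity)).trans (le_of_eq ?_)
    field_simp
  refine (sum_le_sum fun a ha => sum_le_sum fun b1 _ => sum_le_sum fun b2 _ =>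
    h1 a ha b1 b2).trans ?_
  simp only [← mul_sum]
  refine (mul_le_mul_of_nonneg_left (gcds P hP) (by positivity)).trans (le_of_eq ?_)
  ring

theorem inj (P Z : ℕ) (p q : Fin 4) (hs : ∀ x : Fin 4 → ℤ, ∑ i, x i = x p + (x 1 + (x 2 + x q)))
    (hc : ∀ i, i = p ∨ i = 1 ∨ i = 2 ∨ i = q) :
    ((((Fintype.piFinset fun _ : Fin 4 => Icc (1 : ℤ) P) ×ˢ
        (Fintype.piFinset fun _ : Fin 4 => Icc (-(Z : ℤ)) Z)).filter
      fun e => ∑ i, e.1 i * e.2 i = 0).filter fun e => e.1 q ≤ e.1 p).card ≤ (T P Z).card := by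
  refine card_le_card_of_injOn
    (fun e => ((e.1 p, e.1 1, e.1 2, e.1 q), e.2 q, e.2 2, e.2 1)) ?_ ?_
  · intro e he
    simp only [coe_filter, mem_filter, mem_product, Fintype.mem_piFinset, Set.mem_ofPred_eq,
      hs] at he
    obtain ⟨⟨⟨h1, h2⟩, h3⟩, h4⟩ := he
    simp only [T, coe_filter, mem_product, Set.mem_ofPred_eq]
    refine ⟨⟨⟨h1 _, h1 _, h1 _, h1 _⟩, h2 _, h2 _, h2 _⟩, h4, -e.2 p, ?_⟩
    linear_combination h3
  · intro e he e' he' h
    simp only [coe_filter, mem_filter, mem_product, Fintype.mem_piFinset, Set.mem_ofPred_eq,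
      hs] at he he'
    simp only [Prod.mk.injEq] at h
    obtain ⟨⟨a1, a2, a3, a4⟩, b4, b3, b2⟩ := h
    have h0 : e.1 p ≠ 0 := by
      have := (mem_Icc.mp (he.1.1.1 p)).1
      omega
    have b1 : e.2 p = e'.2 p := by
      refine mul_left_cancel₀ h0 ?_
      have h3 := he.1.2
      have h3' := he'.1.2
      rw [← a1, ← a2, ← a3, ← a4, ← b4, ← b3, ← b2] at h3'
      linear_combination h3 - h3'
    refine Prod.ext (funext fun i => ?_) (funext fun i => ?_) <;>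
      rcases hc i with rfl | rfl | rfl | rfl <;> assumption

end LinAAux

theorem count_lin4 : ∃ C : ℝ, 0 < C ∧ ∀ P Z : ℕ, 1 ≤ P → P ≤ Z →
    ((((Fintype.piFinset fun _ : Fin 4 => Icc (1 : ℤ) P) ×ˢ
        (Fintype.piFinset fun _ : Fin 4 => Icc (-(Z : ℤ)) Z)).filter
      fun e => ∑ i, e.1 i * e.2 i = 0).card : ℝ) ≤ C * ((P : ℝ) * Z) ^ 3 := by
  refine ⟨2 * (27 * 54), by norm_num, fun P Z hP hZ => ?_⟩
  have h1 := LinAAux.inj P Z 0 3 (fun x => by rw [Fin.sum_univ_four]; ring) (by decide)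
  have h2 := LinAAux.inj P Z 3 0 (fun x => by rw [Fin.sum_univ_four]; ring) (by decide)
  have h3 := LinAAux.card_T P Z hP hZ
  set S := ((Fintype.piFinset fun _ : Fin 4 => Icc (1 : ℤ) P) ×ˢ
        (Fintype.piFinset fun _ : Fin 4 => Icc (-(Z : ℤ)) Z)).filter
      fun e => ∑ i, e.1 i * e.2 i = 0
  have h4 : S.card ≤ (S.filter fun e => e.1 3 ≤ e.1 0).card +
      (S.filter fun e => e.1 0 ≤ e.1 3).card := by
    refine le_trans (card_le_card fun e he => ?_) (card_union_le _ _)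
    rcases le_total (e.1 3) (e.1 0) with h | h
    · exact mem_union_left _ (mem_filter.mpr ⟨he, h⟩)
    · exact mem_union_right _ (mem_filter.mpr ⟨he, h⟩)
  have h5 : (S.card : ℝ) ≤ (LinAAux.T P Z).card + (LinAAux.T P Z).card := by
    exact_mod_cast h4.trans (add_le_add h1 h2)
  linarith only [h3, h5]

end Pool.Agent.Work.MP_89ab3c_nt
end

-- merged part: Pool.Agent.Work.MP_89ab3c_nt.LinB
section
/-!
# Linnik's elementary bound for the number of representations by `k`-th powers (no `ε` loss)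

Induction on the degree `j ≥ 1`, with `t 1 = 2`, `t (j+1) = 8 t j`: for every `c ≥ 1` there is `C` such that
for all `P ≥ 1`, all `f ∈ ℤ[X]` of degree exactly `j` with `|coeff i| ≤ c P^(j-i)` and all intervals
`I = Ico a b ⊆ [0, P]`: `∫₀¹ |∑_{x ∈ I} e(α f x)|^(t j) ≤ C P^(t j - j)` (`ES`, `rep`, `normSq_ES`,
`ES_pow`, `pd_ES`, `PD.le_zero` in `Work/MP_45c923_nt/Basic`).  Degree 1: `f` is injective.
Step: `|S|^2 ≤ (P+1) + 2 ∑_{1 ≤ h ≤ P} |G h (h α)|`, `G h` the sum for `g h = (f (x+h) - f x)/h` over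
`Ico a (b-h)`; `g h` has degree `j`, coefficients `≤ (j+1) 2^(j+1) c P^(j-i)` (`Polynomial.taylor`,
`hasseDeriv`).  With `t = t j = 2u`: `|S|^(8t) ≤ C (P^(4t) + P^(4t-4) Ψ^4)`, `Ψ = ∑_h |G h (h α)|^t`
(power mean), `|G h β|^t = ∑_n r h n e(β n)` with `0 ≤ r h n ≤ r h 0 ≤ C P^(t-j)`, supported on
`|n| ≤ Z = C' P^j`; so `∫ Ψ^4 ≤ (C P^(t-j))^4 * #{∑ h_i n_i = 0} ≤ C'' P^(4t-4j) (P Z)^3` by `count_lin4`.
Finally the number of representations of `n` is `∫ S^s e(-nα) ≤ ∫ |S|^s`.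
-/

set_option autoImplicit false

namespace Pool.Agent.Work.MP_89ab3c_nt

open Finset

namespace LinBAux

open Pool.Agent.Work.MP_45c923_nt Pool.Agent.Lib.LargeSieve

/-- functions that behave like polynomials of degree `j` with positive coefficients -/
def Good : ℕ → ℕ → ℕ → (ℕ → ℕ) → Prop
  | 0, c, _, f => (∀ x, f x = f 0) ∧ 1 ≤ f 0 ∧ f 0 ≤ c
  | j + 1, c, P, f => (∀ x, f x ≤ c * (x + P) ^ (j + 1)) ∧
      ∀ h, 1 ≤ h → h ≤ P → ∃ g : ℕ → ℕ, (∀ x, f (x + h) = f x + h * g x) ∧ Good j c P g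

theorem Good.le {j c P : ℕ} {f : ℕ → ℕ} (h : Good j c P f) (x : ℕ) : f x ≤ c * (x + P) ^ j := by
  cases j with
  | zero => rw [h.1 x]; simpa using h.2.2
  | succ j => exact h.1 x

theorem Good.mono {j c c' P : ℕ} {f : ℕ → ℕ} (h : Good j c P f) (hc : c ≤ c') : Good j c' P f := by
  induction j generalizing f with
  | zero => exact ⟨h.1, h.2.1, h.2.2.trans hc⟩
  | succ j ih =>
    refine ⟨fun x => (h.1 x).trans (Nat.mul_le_mul_right _ hc), fun a h1 h2 => ?_⟩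
    obtain ⟨g, e, hg⟩ := h.2 a h1 h2
    exact ⟨g, e, ih hg⟩

theorem Good.add {j c c' P : ℕ} {f f' : ℕ → ℕ} (h : Good j c P f) (h' : Good j c' P f') :
    Good j (c + c') P fun x => f x + f' x := by
  induction j generalizing f f' with
  | zero =>
    exact ⟨fun x => by beta_reduce; rw [h.1 x, h'.1 x], h.2.1.trans (Nat.le_add_right _ _),
      Nat.add_le_add h.2.2 h'.2.2⟩
  | succ j ih =>
    refine ⟨fun x => by rw [add_mul]; exact Nat.add_le_add (h.1 x) (h'.1 x), fun a h1 h2 => ?_⟩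
    obtain ⟨g, e, hg⟩ := h.2 a h1 h2
    obtain ⟨g', e', hg'⟩ := h'.2 a h1 h2
    exact ⟨_, fun x => by beta_reduce; rw [e, e']; ring, ih hg hg'⟩

theorem Good.shift {j c P a : ℕ} {f : ℕ → ℕ} (h : Good j c P f) (ha : a ≤ P) :
    Good j (2 ^ j * c) P fun x => f (x + a) := by
  induction j generalizing f with
  | zero =>
    refine ⟨fun x => by beta_reduce; rw [h.1 (x + a), h.1 (0 + a)], ?_, ?_⟩
    · show 1 ≤ f (0 + a)
      rw [h.1]; exact h.2.1
    · show f (0 + a) ≤ _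
      rw [h.1]; simpa using h.2.2
  | succ j ih =>
    refine ⟨fun x => (h.1 _).trans ?_, fun b h1 h2 => ?_⟩
    · calc c * (x + a + P) ^ (j + 1) ≤ c * (2 * (x + P)) ^ (j + 1) := by gcongr; omega
        _ = _ := by rw [mul_pow]; ring
    · obtain ⟨g, e, hg⟩ := h.2 b h1 h2
      refine ⟨_, fun x => ?_, (ih hg).mono ?_⟩
      · show f (x + b + a) = _
        rw [add_right_comm, e]
      · gcongr <;> omega

theorem mulX (j : ℕ) : ∃ K : ℕ, 1 ≤ K ∧ ∀ (c P : ℕ) (f : ℕ → ℕ), Good j c P f →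
    Good (j + 1) (K * c) P fun x => x * f x := by
  have b : ∀ {j K c P : ℕ} {f : ℕ → ℕ}, 1 ≤ K → Good j c P f → ∀ x,
      x * f x ≤ K * c * (x + P) ^ (j + 1) := fun {j K c P f} hK h x =>
    calc x * f x ≤ (x + P) * (K * c * (x + P) ^ j) := by
          refine Nat.mul_le_mul (by omega) ((h.le x).trans ?_)
          gcongr; exact Nat.le_mul_of_pos_left _ hK
      _ = _ := by ring
  induction j with
  | zero =>
    refine ⟨1, le_rfl, fun c P f h => ⟨b le_rfl h, fun a _ _ => ⟨f, fun x => ?_, by simpa using h⟩⟩⟩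
    beta_reduce
    rw [h.1 (x + a), h.1 x]; ring
  | succ j ih =>
    obtain ⟨K, hK, ih⟩ := ih
    refine ⟨2 ^ (j + 1) + K, le_add_left hK, fun c P f h =>
      ⟨b (le_add_left hK) h, fun a h1 h2 => ?_⟩⟩
    obtain ⟨g, e, hg⟩ := h.2 a h1 h2
    refine ⟨_, fun x => ?_, by rw [add_mul]; exact (h.shift h2).add (ih c P g hg)⟩
    show (x + a) * f (x + a) = x * f x + a * (f (x + a) + x * g x)
    rw [e]; ring

theorem good_pow (k : ℕ) : ∃ c : ℕ, ∀ P, Good k c P fun x => x ^ k := by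
  induction k with
  | zero => exact ⟨1, fun P => ⟨fun x => by simp, by simp, by simp⟩⟩
  | succ k ih =>
    obtain ⟨c, ih⟩ := ih
    obtain ⟨K, -, h⟩ := mulX k
    exact ⟨K * c, fun P => by simpa only [pow_succ'] using h c P _ (ih P)⟩

/-- the exponential sum -/
noncomputable def S (N : ℕ) (f : ℕ → ℕ) (α : ℝ) : ℂ := ES (range N) (fun x => (f x : ℤ)) α

@[fun_prop] theorem continuous_S (N : ℕ) (f : ℕ → ℕ) : Continuous (S N f) := continuous_ES _ _

theorem sq_sum (z : ℕ → ℂ) (hz : ∀ x, ‖z x‖ = 1) (N : ℕ) : ‖∑ x ∈ range N, z x‖ ^ 2 =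
    N + 2 * (∑ a ∈ range N, ∑ b ∈ range a, z a * (starRingEnd ℂ) (z b)).re := by
  induction N with
  | zero => simp
  | succ N ih =>
    rw [sum_range_succ, sum_range_succ, ← mul_sum, ← map_sum, ← Complex.normSq_eq_norm_sq,
      Complex.normSq_add, Complex.normSq_eq_norm_sq, Complex.normSq_eq_norm_sq, ih, hz]
    simp only [Complex.add_re, Complex.mul_re, Complex.conj_re, Complex.conj_im]
    push_cast; ring

theorem tri (F : ℕ → ℕ → ℂ) {N P : ℕ} (hN : N ≤ P + 1) : ∑ a ∈ range N, ∑ b ∈ range a, F a b =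
    ∑ h ∈ Icc 1 P, ∑ x ∈ range (N - h), F (x + h) x := by
  rw [sum_sigma', sum_sigma']
  refine sum_nbij' (fun p => ⟨p.1 - p.2, p.2⟩) (fun p => ⟨p.2 + p.1, p.2⟩) ?_ ?_ ?_ ?_ ?_
  · rintro ⟨a, b⟩ h; simp only [mem_sigma, mem_range, mem_Icc] at h ⊢; omega
  · rintro ⟨a, b⟩ h; simp only [mem_sigma, mem_range, mem_Icc] at h ⊢; omega
  · rintro ⟨a, b⟩ h; simp only [mem_sigma, mem_range] at h
    simp only [Sigma.mk.injEq, heq_eq_eq, and_true]; omega
  · rintro ⟨a, b⟩ h; simp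
  · rintro ⟨a, b⟩ h; simp only [mem_sigma, mem_range] at h
    simp only; rw [show b + (a - b) = a by omega]

theorem weyl {N P : ℕ} (hN : N ≤ P + 1) {f : ℕ → ℕ} {g : ℕ → ℕ → ℕ}
    (e : ∀ h ∈ Icc 1 P, ∀ x, f (x + h) = f x + h * g h x) (α : ℝ) :
    ‖S N f α‖ ^ 2 ≤ N + 2 * ∑ h ∈ Icc 1 P, ‖S (N - h) (g h) (α * h)‖ := by
  unfold S ES
  rw [sq_sum _ (fun _ => norm_ee _), tri _ hN]
  gcongr
  refine (Complex.re_le_norm _).trans ((norm_sum_le _ _).trans (le_of_eq ?_))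
  refine sum_congr rfl fun h hh => congrArg _ (sum_congr rfl fun x _ => ?_)
  beta_reduce
  rw [conj_ee, ← ee_add, e h hh]; congr 1; push_cast; ring

theorem four {ι : Type} [DecidableEq ι] (A : Finset ι) (r : ι → ℝ) (φ : ι → ℤ) {R : ℝ}
    (h0 : ∀ a ∈ A, 0 ≤ r a) (h1 : ∀ a ∈ A, r a ≤ R) {Ψ : ℝ → ℝ}
    (hΨ : ∀ α, (Ψ α : ℂ) = ∑ a ∈ A, r a * ee (α * φ a)) : ∫ α in (0 : ℝ)..1, Ψ α ^ 4 ≤
      R ^ 4 * ((Fintype.piFinset fun _ : Fin 4 => A).filter fun e => ∑ i, φ (e i) = 0).card := by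
  have e1 : ∀ α, ((Ψ α ^ 4 : ℝ) : ℂ) = ∑ e ∈ Fintype.piFinset fun _ : Fin 4 => A,
      ((∏ i, r (e i) : ℝ) : ℂ) * ee (α * ((∑ i, φ (e i) : ℤ) : ℝ)) := fun α => by
    rw [Complex.ofReal_pow, hΨ, sum_pow']
    refine sum_congr rfl fun e _ => ?_
    rw [prod_mul_distrib, ← ee_sum]; push_cast; rw [mul_sum]
  have e2 : ((∫ α in (0 : ℝ)..1, Ψ α ^ 4 : ℝ) : ℂ) = ((∑ e ∈ Fintype.piFinset fun _ : Fin 4 => A,
      if ∑ i, φ (e i) = 0 then ∏ i, r (e i) else 0 : ℝ) : ℂ) := by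
    rw [← intervalIntegral.integral_ofReal]
    simp only [e1]
    rw [int_sum _ _ fun e _ => by fun_prop, Complex.ofReal_sum]
    refine sum_congr rfl fun e _ => ?_
    have := integral_ee (∑ i, φ (e i)) 0
    rw [zero_add] at this
    rw [intervalIntegral.integral_const_mul, this]
    split_ifs <;> simp
  rw [Complex.ofReal_injective e2, ← sum_filter, mul_comm, ← nsmul_eq_mul]
  refine sum_le_card_nsmul _ _ _ fun e he => ?_
  have := Fintype.mem_piFinset.1 (mem_filter.1 he).1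
  exact (prod_le_prod (fun i _ => h0 _ (this i)) fun i _ => h1 _ (this i)).trans (by simp)

theorem sq_rep {κ : Type} (B : Finset κ) (χ : κ → ℤ) {Z : ℤ} (h : ∀ b ∈ B, 0 ≤ χ b ∧ χ b ≤ Z)
    (β : ℝ) : ((‖ES B χ β‖ ^ 2 : ℝ) : ℂ) = ∑ n ∈ Icc (-Z) Z, (rep B χ n : ℂ) * ee (β * n) := by
  rw [normSq_ES, sum_comm]
  simp only [rep, Complex.ofReal_sum, sum_mul]
  rw [sum_comm (s := Icc (-Z) Z)]
  refine sum_congr rfl fun b hb => ?_
  rw [sum_comm (s := Icc (-Z) Z)]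
  refine sum_congr rfl fun a ha => ?_
  rw [sum_eq_single_of_mem (χ a - χ b) (by
    have := h a ha; have := h b hb; rw [mem_Icc]; omega) fun n _ hn => by
      rw [if_neg hn.symm]; simp]
  simp

theorem pow_eq (N u : ℕ) (f : ℕ → ℕ) (α : ℝ) : ‖S N f α‖ ^ (2 * u) =
    ‖ES (Fintype.piFinset fun _ : Fin u => range N) (fun U => ∑ i, (f (U i) : ℤ)) α‖ ^ 2 := by
  rw [← ES_pow (range N) (fun x => (f x : ℤ)), norm_pow, ← pow_mul, mul_comm]; rfl

/-- the mean value estimate -/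
def MV (j u : ℕ) : Prop := ∀ c : ℕ, ∃ C : ℝ, 0 < C ∧ ∀ (P N : ℕ) (f : ℕ → ℕ), 1 ≤ P → N ≤ P + 1 →
  Good j c P f → (∫ α in (0 : ℝ)..1, ‖S N f α‖ ^ (2 * u)) * (P : ℝ) ^ j ≤ C * (P : ℝ) ^ (2 * u)

theorem mv_one : MV 1 1 := fun c => ⟨2, two_pos, fun P N f hP hN h => by
  have inj : ∀ a ∈ range N, ∀ b ∈ range N, a < b → f a < f b := fun a _ b hb hab => by
    obtain ⟨g, e, hg⟩ := h.2 (b - a) (by omega) (by have := mem_range.1 hb; omega)
    have := e a
    rw [show a + (b - a) = b by omega, hg.1] at this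
    have := Nat.mul_pos (show 0 < b - a by omega) hg.2.1
    omega
  have : ∫ α in (0 : ℝ)..1, ‖S N f α‖ ^ (2 * 1) = N := by
    rw [mul_one]
    refine (pd_ES (range N) fun x => (f x : ℤ)).zero_eq.symm.trans ?_
    rw [rep, sum_congr rfl fun a ha => sum_eq_single_of_mem a ha fun b hb hne => if_neg ?_]
    · simp
    · rcases lt_or_gt_of_ne hne with h | h
      · have := inj b hb a ha h; omega
      · have := inj a ha b hb h; omega
  rw [this]
  have h1 : (N : ℝ) ≤ P + 1 := by exact_mod_cast hN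
  have h2 : (1 : ℝ) ≤ P := by exact_mod_cast hP
  rw [pow_one, mul_one]
  linarith only [h1, h2, mul_nonneg_of_nonpos_of_nonpos (Mathlib.Tactic.Linarith.sub_nonpos_of_le (Mathlib.Tactic.Linarith.natCast_nonneg ℝ P)) (Mathlib.Tactic.Linarith.sub_nonpos_of_le h1), mul_nonneg_of_nonpos_of_nonpos (Mathlib.Tactic.Linarith.sub_nonpos_of_le (Mathlib.Tactic.Linarith.natCast_nonneg ℝ P)) (Mathlib.Tactic.Linarith.sub_nonpos_of_le h2)]⟩

theorem mv_step {j u : ℕ} (hj : 1 ≤ j) (hu : j ≤ 2 * u) (h : MV j u) : MV (j + 1) (8 * u) := by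
  intro c
  obtain ⟨C, hC, h⟩ := h c
  obtain ⟨D, hD, h4⟩ := count_lin4
  set K : ℕ := u * c * 2 ^ j + 1 with hK
  refine ⟨2 ^ (8 * u) * 2 ^ (8 * u - 1) * (1 + C ^ 4 * D * K ^ 3), by positivity,
    fun P N f hP hN hf => ?_⟩
  have : ∀ a : ℕ, ∃ g : ℕ → ℕ, a ∈ Icc 1 P →
      (∀ x, f (x + a) = f x + a * g x) ∧ Good j c P g := fun a => by
    by_cases ha : a ∈ Icc 1 P
    · obtain ⟨g, hg⟩ := hf.2 a (mem_Icc.1 ha).1 (mem_Icc.1 ha).2
      exact ⟨g, fun _ => hg⟩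
    · exact ⟨f, fun h => absurd h ha⟩
  choose g hg using this
  have P1 : (1 : ℝ) ≤ P := by exact_mod_cast hP
  have P0 : (0 : ℝ) < P := by linarith only [P1]
  have N1 : (N : ℝ) ≤ 2 * P := by exact_mod_cast (show N ≤ 2 * P by omega)
  obtain ⟨m, hm⟩ : ∃ m, 2 * u = m + 1 := ⟨2 * u - 1, by omega⟩
  set Ψ : ℝ → ℝ := fun α => ∑ a ∈ Icc 1 P, ‖S (N - a) (g a) (α * a)‖ ^ (2 * u) with hΨ
  have pt : ∀ α, ‖S N f α‖ ^ (2 * (8 * u)) ≤ 2 ^ (8 * u) * 2 ^ (8 * u - 1) *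
      ((P : ℝ) ^ (8 * u) + ((P : ℝ) ^ m) ^ 4 * Ψ α ^ 4) := fun α => by
    have w := weyl hN (fun a ha => (hg a ha).1) α
    set T := ∑ a ∈ Icc 1 P, ‖S (N - a) (g a) (α * a)‖
    have T0 : 0 ≤ T := sum_nonneg fun _ _ => norm_nonneg _
    have t1 : T ^ (2 * u) ≤ (P : ℝ) ^ m * Ψ α := by
      have := pow_sum_le_card_mul_sum_pow (s := Icc 1 P)
        (f := fun a : ℕ => ‖S (N - a) (g a) (α * a)‖) (fun _ _ => norm_nonneg _) m
      rw [← hm] at this
      simpa using this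
    calc _ = (‖S N f α‖ ^ 2) ^ (8 * u) := by rw [pow_mul]
      _ ≤ (2 * (P + T)) ^ (8 * u) := by gcongr; linarith only [N1, w]
      _ ≤ 2 ^ (8 * u) * (2 ^ (8 * u - 1) * ((P : ℝ) ^ (8 * u) + T ^ (8 * u))) := by
          rw [mul_pow]; gcongr; exact add_pow_le P0.le T0 _
      _ ≤ _ := by
          rw [mul_assoc, ← mul_pow, show T ^ (8 * u) = (T ^ (2 * u)) ^ 4 by
            rw [← pow_mul]; congr 1; ring]
          gcongr
  set B : ℕ → Finset (Fin u → ℕ) := fun a => Fintype.piFinset fun _ : Fin u => range (N - a)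
  set χ : ℕ → (Fin u → ℕ) → ℤ := fun a U => ∑ i, (g a (U i) : ℤ)
  have hZ : P ≤ K * P ^ j :=
    (Nat.le_self_pow (by omega) P).trans (Nat.le_mul_of_pos_left _ (by omega))
  have I4 := four ((Icc 1 P) ×ˢ Icc (-((K * P ^ j : ℕ) : ℤ)) (K * P ^ j : ℕ))
    (fun e => rep (B e.1) (χ e.1) e.2) (fun e => e.1 * e.2)
    (R := C * (P : ℝ) ^ (2 * u) / (P : ℝ) ^ j) (fun _ _ => rep_nonneg _ _ _) (fun e he => by
      refine ((pd_ES _ _).le_zero _).trans ?_
      rw [(pd_ES _ _).zero_eq, le_div_iff₀ (by positivity)]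
      simp only [B, χ, ← pow_eq]
      exact h P _ _ hP (by omega) (hg _ (mem_product.1 he).1).2) (Ψ := Ψ) fun α => by
      rw [sum_product, hΨ, Complex.ofReal_sum]
      refine sum_congr rfl fun a ha => ?_
      rw [pow_eq, sq_rep (Z := (K * P ^ j : ℕ)) _ _ fun U hU => ⟨by positivity, ?_⟩]
      · refine sum_congr rfl fun n _ => ?_
        congr 2; push_cast; ring
      · have : ∑ i, g a (U i) ≤ K * P ^ j := by
          refine (sum_le_card_nsmul _ _ (c * (2 * P) ^ j) fun i _ =>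
            ((hg a ha).2.le _).trans ?_).trans ?_
          · have := mem_range.1 (Fintype.mem_piFinset.1 hU i)
            have := (mem_Icc.1 ha).1
            gcongr; omega
          · rw [hK, mul_pow]; simp only [card_univ, Fintype.card_fin, smul_eq_mul]
            linarith only [Nat.zero_le (P ^ j)]
        exact_mod_cast this
  have c4 := le_trans (Nat.cast_le.2 (card_le_card_of_injOn
    (s := (Fintype.piFinset fun _ : Fin 4 => (Icc 1 P) ×ˢ
      Icc (-((K * P ^ j : ℕ) : ℤ)) (K * P ^ j : ℕ)).filter fun e => ∑ i, ((e i).1 : ℤ) * (e i).2 = 0)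
    (fun e => (fun i => ((e i).1 : ℤ), fun i => (e i).2)) (fun e he => by
      obtain ⟨h1, h2⟩ := mem_filter.1 he
      have := fun i => mem_product.1 (Fintype.mem_piFinset.1 h1 i)
      refine mem_filter.2 ⟨mem_product.2 ⟨Fintype.mem_piFinset.2 fun i => ?_,
        Fintype.mem_piFinset.2 fun i => (this i).2⟩, h2⟩
      have := mem_Icc.1 (this i).1
      rw [mem_Icc]; dsimp only; omega) fun e _ e' _ h => funext fun i => Prod.ext
        (Nat.cast_injective (R := ℤ) (congrFun (congrArg Prod.fst h) i)) (congrFun (congrArg Prod.snd h) i)))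
    (h4 P (K * P ^ j) hP hZ)
  have I5 := I4.trans (mul_le_mul_of_nonneg_left c4 (by positivity))
  have cΨ : Continuous Ψ := by rw [hΨ]; fun_prop
  have I6 := int_mono zero_le_one (by fun_prop) (by fun_prop) fun α _ => pt α
  rw [intervalIntegral.integral_const_mul, int_add (by fun_prop) (by fun_prop),
    intervalIntegral.integral_const_mul, intervalIntegral.integral_const] at I6
  refine (mul_le_mul_of_nonneg_right I6 (by positivity)).trans ?_
  rw [mul_assoc _ _ ((P : ℝ) ^ (j + 1)), mul_assoc _ _ ((P : ℝ) ^ (2 * (8 * u)))]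
  refine mul_le_mul_of_nonneg_left ?_ (by positivity)
  have a1 : (P : ℝ) ^ (8 * u) * (P : ℝ) ^ (j + 1) ≤ (P : ℝ) ^ (2 * (8 * u)) := by
    rw [← pow_add]; exact pow_le_pow_right₀ P1 (by omega)
  have a2 : ((P : ℝ) ^ m) ^ 4 * ((C * (P : ℝ) ^ (2 * u) / (P : ℝ) ^ j) ^ 4 *
      (D * ((P : ℝ) * (K * P ^ j : ℕ)) ^ 3)) * (P : ℝ) ^ (j + 1) =
      C ^ 4 * D * K ^ 3 * (P : ℝ) ^ (2 * (8 * u)) := by
    rw [show 2 * (8 * u) = (2 * u) * 8 by ring, hm]
    push_cast; field_simp; ring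
  have a3 := mul_le_mul_of_nonneg_right (mul_le_mul_of_nonneg_left I5
    (show 0 ≤ ((P : ℝ) ^ m) ^ 4 by positivity)) (show 0 ≤ (P : ℝ) ^ (j + 1) by positivity)
  rw [sub_zero, one_smul, add_mul, add_mul, one_mul]
  exact add_le_add a1 (a3.trans a2.le)

theorem mv (j : ℕ) : ∃ u, j + 1 ≤ 2 * u ∧ MV (j + 1) u := by
  induction j with
  | zero => exact ⟨1, by omega, mv_one⟩
  | succ j ih =>
    obtain ⟨u, h1, h2⟩ := ih
    exact ⟨8 * u, by omega, mv_step (by omega) h1 h2⟩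

theorem count_le {κ : Type} (B : Finset κ) (χ : κ → ℤ) (n : ℤ) :
    ((B.filter fun b => χ b = n).card : ℝ) ≤ ∫ α in (0 : ℝ)..1, ‖ES B χ α‖ := by
  have := (pd_ES ({()} : Finset Unit) fun _ => 0).sum_le_integral B fun b => χ b - n
  have e : ∀ α, ES B (fun b => χ b - n) α = ES B χ α * ee (-(α * n)) := fun α => by
    unfold ES
    rw [sum_mul]
    refine sum_congr rfl fun b _ => ?_
    rw [← ee_add]; congr 1; push_cast; ring
  simp only [e, norm_mul, norm_ee, mul_one] at this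
  simp only [rep, ES, sum_singleton, norm_ee, one_pow, mul_one, sub_self] at this
  refine le_trans (le_of_eq ?_) this
  rw [card_filter]; push_cast
  exact sum_congr rfl fun b _ => if_congr (by omega) rfl rfl

end LinBAux

open LinBAux Pool.Agent.Work.MP_45c923_nt in
theorem rep_pow_le (k : ℕ) (hk : 1 ≤ k) : ∃ s : ℕ, 1 ≤ s ∧ ∃ C : ℝ, 0 < C ∧ ∀ y : ℕ, 1 ≤ y →
    ∀ n : ℕ, (((Fintype.piFinset fun _ : Fin s => Icc 1 y).filter
      fun x => ∑ i, x i ^ k = n).card : ℝ) * (y : ℝ) ^ k ≤ C * (y : ℝ) ^ s := by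
  obtain ⟨j, rfl⟩ : ∃ j, k = j + 1 := ⟨k - 1, by omega⟩
  obtain ⟨u, h1, h2⟩ := mv j
  obtain ⟨c, hc⟩ := good_pow (j + 1)
  obtain ⟨C, hC, h⟩ := h2 c
  refine ⟨2 * u, by omega, C, hC, fun y hy n => le_trans ?_ (h y (y + 1) _ hy le_rfl (hc y))⟩
  gcongr
  have := count_le (Fintype.piFinset fun _ : Fin (2 * u) => range (y + 1))
    (fun U => ∑ i, ((U i ^ (j + 1) : ℕ) : ℤ)) n
  simp only [← ES_pow (range (y + 1)) fun x => ((x ^ (j + 1) : ℕ) : ℤ), norm_pow] at this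
  refine le_trans (Nat.cast_le.2 (card_le_card fun x hx => ?_)) this
  obtain ⟨a, b⟩ := mem_filter.1 hx
  refine mem_filter.2 ⟨Fintype.mem_piFinset.2 fun i => ?_, by exact_mod_cast b⟩
  have := mem_Icc.1 (Fintype.mem_piFinset.1 a i)
  rw [mem_range]; omega

end Pool.Agent.Work.MP_89ab3c_nt
end

-- merged part: Pool.Agent.Work.MP_89ab3c_nt.SarkA
section
/-!
# The Furstenberg-Sarkozy theorem for `k`-th powers (extremal argument and van der Corput)

1. van der Corput: for vectors `u r` of norm `≤ 1` in a real inner product space and `1 ≤ H ≤ y`,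
`‖mean_{r<y} u r‖^2 ≤ 2/H + 2 max_{1 ≤ h < H} |mean_{r<y} ⟪u (r+h), u r⟫| + O(H/y)`.
2. For a stationary family `v : ℤ → G` (`⟪v s, v t⟫ = ⟪v (s-t), v 0⟫`, norms `≤ 1`), induction on the
degree `d ≥ 1`: for every `η > 0` there is `e > 0` such that for every `P ∈ ℤ[X]` of degree `d` with positive
leading coefficient there are `Q0, y0` with: if `y ≥ y0` and `‖mean_{i<y} v (q i)‖ ≤ e` for all `1 ≤ q ≤ Q0`, then
`‖mean_{r<y} v (P r)‖ ≤ η` (degree 1: shift invariance; step: finitely many differences `P(r+h) - P(r)`).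
3. Call `E` free if it has no difference `r^k`, `r ≥ 1`.  `ρ L` = largest size of a free subset of `range L` is
subadditive; let `δ0 = lim ρ L / L = inf` (`Subadditive.tendsto_lim`, `Subadditive.lim_le_div`).  Suppose
`δ0 > 0`.  A free set has at most `(δ0 + e) L` points on every progression of step `q^k` and length
`L ≥ L1` (dilation: `q^k r^k = (q r)^k`), hence at most `(δ0 + e) y` points on every progression of step `q` and
length `y ≥ q^(k-1) (L1+1)` (split by classes mod `q^(k-1)`).  Take `E ⊆ range N` extremal, `N ≫ y^k`,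
`g = 1_E - δ0 1_[0,N)`, `v t = g(· + t)/√N` (finitely supported functions on `ℤ`, or functions on
`ZMod (3N)`).  The averages `A x = mean_{i<y} g (x + q i)` satisfy `A ≤ e` away from the ends, `|A| ≤ 1`, `∑ A ≥ 0`,
so `∑ A^2 ≤ ∑ |A| ≤ 2 e N + O(q y)`.  Then `0 = ∑_x mean_r 1_E x 1_E (x + (r+1)^k) ≥ δ0 (|E| - y^k) - η N > 0`.
-/

set_option autoImplicit false

namespace Pool.Agent.Work.MP_89ab3c_nt

open Finset

namespace SarkAAux

open Filter

/-- the sequence is eventually small compared with its index -/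
def Sm (a : ℕ → ℝ) : Prop := ∀ ε : ℝ, 0 < ε → ∀ᶠ y : ℕ in atTop, a y ≤ ε * y

section vdc

variable {G : Type} [NormedAddCommGroup G]

theorem norm_sum_range_le {u : ℕ → G} (hu : ∀ r, ‖u r‖ ≤ 1) (h : ℕ) :
    ‖∑ r ∈ range h, u r‖ ≤ h := by
  simpa using norm_sum_le_of_le (range h) fun r _ => hu r

theorem shift_le {u : ℕ → G} (hu : ∀ r, ‖u r‖ ≤ 1) (y h : ℕ) :
    ‖∑ r ∈ range y, u r - ∑ r ∈ range y, u (r + h)‖ ≤ 2 * h := by
  have h1 : ∑ r ∈ range y, u r + ∑ r ∈ range h, u (y + r) =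
      ∑ r ∈ range h, u r + ∑ r ∈ range y, u (h + r) := by
    rw [← sum_range_add, ← sum_range_add, add_comm]
  have h2 : ∑ r ∈ range y, u r - ∑ r ∈ range y, u (r + h) =
      ∑ r ∈ range h, u r - ∑ r ∈ range h, u (y + r) := by
    simp only [add_comm _ h]
    rw [sub_eq_sub_iff_add_eq_add, h1]
  rw [h2]
  linarith only [hu, norm_sub_le (∑ r ∈ range h, u r) (∑ r ∈ range h, u (y + r)), norm_sum_range_le hu h,
    norm_sum_range_le (fun r => hu (y + r)) h]

variable [InnerProductSpace ℝ G]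

theorem norm_sum_sq (s : Finset ℕ) (u : ℕ → G) :
    ‖∑ r ∈ s, u r‖ ^ 2 = ∑ a ∈ s, ∑ b ∈ s, inner ℝ (u a) (u b) := by
  rw [← real_inner_self_eq_norm_sq, sum_inner]
  simp only [inner_sum]

theorem vdc_ineq {u : ℕ → G} (hu : ∀ r, ‖u r‖ ≤ 1) (y H : ℕ) {η : ℝ} (hη : 0 ≤ η)
    (h : ∀ a ∈ range H, ∀ b ∈ range H, a ≠ b →
      ∑ r ∈ range y, inner ℝ (u (r + a)) (u (r + b)) ≤ η * y) :
    ‖∑ a ∈ range H, ∑ r ∈ range y, u (r + a)‖ ^ 2 ≤ y ^ 2 * (H + H ^ 2 * η) := by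
  rw [sum_comm]
  calc _ ≤ (∑ r ∈ range y, ‖∑ a ∈ range H, u (r + a)‖) ^ 2 :=
        pow_le_pow_left₀ (norm_nonneg _) (norm_sum_le _ _) 2
    _ ≤ #(range y) * ∑ r ∈ range y, ‖∑ a ∈ range H, u (r + a)‖ ^ 2 := sq_sum_le_card_mul_sum_sq
    _ = y * ∑ a ∈ range H, ∑ b ∈ range H, ∑ r ∈ range y, inner ℝ (u (r + a)) (u (r + b)) := by
        simp only [norm_sum_sq, card_range]
        rw [sum_comm]
        exact congrArg _ (sum_congr rfl fun a _ => sum_comm)
    _ ≤ y * ∑ a ∈ range H, ∑ b ∈ range H, ((if a = b then (y : ℝ) else 0) + η * y) := by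
        refine mul_le_mul_of_nonneg_left (sum_le_sum fun a ha => sum_le_sum fun b hb => ?_)
          (Nat.cast_nonneg y)
        split_ifs with hab
        · have h1 := sum_le_card_nsmul (range y) (fun r => inner ℝ (u (r + a)) (u (r + b))) 1
            fun r _ => (real_inner_le_norm _ _).trans
              (mul_le_one₀ (hu _) (norm_nonneg _) (hu _))
          rw [card_range, nsmul_eq_mul, mul_one] at h1
          exact h1.trans (le_add_of_nonneg_right (by positivity))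
        · simpa using h a ha b hb hab
    _ = _ := by
        simp only [sum_add_distrib, sum_ite_eq, sum_const, card_range, nsmul_eq_mul]
        rw [sum_congr rfl fun a ha => if_pos ha, sum_const, card_range, nsmul_eq_mul]
        ring

end vdc

section seq

variable {G : ℕ → Type} [∀ y, NormedAddCommGroup (G y)] [∀ y, InnerProductSpace ℝ (G y)]

theorem vdc (u : ∀ y, ℕ → G y) (hu : ∀ y r, ‖u y r‖ ≤ 1)
    (h : ∀ a b, a ≠ b → Sm fun y => ∑ r ∈ range y, inner ℝ (u y (r + a)) (u y (r + b))) :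
    Sm fun y => ‖∑ r ∈ range y, u y r‖ := by
  intro ε hε
  have hη : 0 < ε ^ 2 / 8 := by positivity
  obtain ⟨H, hH⟩ := exists_nat_gt (8 / ε ^ 2)
  have H0 : (0 : ℝ) < H := lt_trans (by positivity) hH
  rw [div_lt_iff₀ (by positivity)] at hH
  have h1 : ∀ᶠ y : ℕ in atTop, ∀ a ∈ range H, ∀ b ∈ range H, a ≠ b →
      ∑ r ∈ range y, inner ℝ (u y (r + a)) (u y (r + b)) ≤ ε ^ 2 / 8 * y := by
    simp only [eventually_all_finset]
    intro a _ b _
    by_cases hab : a = b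
    · exact Eventually.of_forall fun _ h => absurd hab h
    · exact (h a b hab _ hη).mono fun y hy _ => hy
  filter_upwards [h1, tendsto_natCast_atTop_atTop.eventually_ge_atTop (4 * H / ε)] with y hy hy'
  rw [div_le_iff₀ hε] at hy'
  have h2 : ‖∑ a ∈ range H, ∑ r ∈ range y, u y (r + a)‖ ≤ y * H * ε / 2 := by
    refine (sq_le_sq₀ (norm_nonneg _) (by positivity)).1 ((vdc_ineq (hu y) y H hη.le hy).trans ?_)
    have : (H : ℝ) + H ^ 2 * (ε ^ 2 / 8) ≤ (H * ε / 2) ^ 2 := by linarith only [hH, mul_nonneg_of_nonpos_of_nonpos (Mathlib.Tactic.Linarith.sub_nonpos_of_le (Mathlib.Tactic.Linarith.natCast_nonneg ℝ H)) (le_of_lt (Mathlib.Tactic.Linarith.sub_neg_of_lt hH))]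
    calc _ ≤ (y : ℝ) ^ 2 * (H * ε / 2) ^ 2 := by gcongr
      _ = _ := by ring
  have h3 : ‖∑ a ∈ range H, (∑ r ∈ range y, u y r - ∑ r ∈ range y, u y (r + a))‖ ≤ H * (2 * H) := by
    have := norm_sum_le_of_le (range H) (n := fun _ => 2 * (H : ℝ)) fun a ha =>
      (shift_le (hu y) y a).trans (by gcongr; exact (mem_range.1 ha).le)
    simpa using this
  rw [sum_sub_distrib, sum_const, card_range, ← Nat.cast_smul_eq_nsmul ℝ] at h3
  have h4 := norm_sub_norm_le ((H : ℝ) • ∑ r ∈ range y, u y r)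
    (∑ a ∈ range H, ∑ r ∈ range y, u y (r + a))
  rw [norm_smul, Real.norm_natCast] at h4
  refine le_of_mul_le_mul_left ?_ H0
  linarith only [h2, h3, h4, hy', mul_nonneg_of_nonpos_of_nonpos (Mathlib.Tactic.Linarith.sub_nonpos_of_le (Mathlib.Tactic.Linarith.natCast_nonneg ℝ H)) (Mathlib.Tactic.Linarith.sub_nonpos_of_le hy')]

theorem lin {A : ℤ → ℤ} {c : ℤ} (h : ∀ z, fwdDiff 1 A z = c) (z : ℤ) (n : ℕ) :
    A (z + n) = A z + c * n := by
  induction n with
  | zero => simp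
  | succ n ih =>
    have := h (z + n)
    rw [fwdDiff] at this
    push_cast
    rw [← add_assoc]
    linarith only [ih, this]

theorem poly (v : ∀ y, ℤ → G y) (hn : ∀ y t, ‖v y t‖ ≤ 1)
    (hs : ∀ y s t, inner ℝ (v y s) (v y t) = inner ℝ (v y (s - t)) (v y 0))
    (hq : ∀ q : ℕ, 1 ≤ q → Sm fun y => ‖∑ r ∈ range y, v y (q * r)‖) (d : ℕ) :
    ∀ (a : ℤ → ℤ) (c : ℤ), c ≠ 0 → (∀ z, (fwdDiff 1)^[d + 1] a z = c) →
      Sm fun y => ‖∑ r ∈ range y, v y (a r)‖ := by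
  induction d with
  | zero =>
    intro a c hc h
    have h1 : ∀ r : ℕ, a r = a 0 + c * r := fun r => by simpa using lin h 0 r
    convert hq c.natAbs (Int.natAbs_pos.2 hc) using 2 with y
    rw [← sq_eq_sq₀ (norm_nonneg _) (norm_nonneg _), norm_sum_sq, norm_sum_sq]
    refine sum_congr rfl fun r _ => sum_congr rfl fun r' _ => ?_
    rw [Int.natCast_natAbs, h1, h1]
    rcases abs_choice c with h2 | h2
    · rw [h2, hs, hs y (c * r), add_sub_add_left_eq_sub]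
    · rw [h2, hs, real_inner_comm (v y (-c * r')), hs y (-c * r')]
      congr 2
      ring
  | succ d ih =>
    intro a c hc h
    refine vdc (fun y r => v y (a r)) (fun y r => hn y _) fun i j hij ε hε => ?_
    simp only [Function.iterate_succ_apply' _ (d + 1)] at h
    refine (ih (fun z => a (z + i) - a (z + j)) (c * (i - j))
      (mul_ne_zero hc (sub_ne_zero.2 (Nat.cast_injective.ne hij))) (fun z => ?_) ε hε).mono
      fun y hy => le_trans ?_ hy
    · have h1 : (fwdDiff 1)^[d + 1] (fun z => a (z + i) - a (z + j)) z =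
          (fwdDiff 1)^[d + 1] a (z + i) - (fwdDiff 1)^[d + 1] a (z + j) := by
        simp only [fwdDiff_iter_eq_sum_shift, smul_sub, sum_sub_distrib, add_right_comm]
      rw [h1, lin h, lin h]
      ring
    · simp only [hs y (a _), Nat.cast_add]
      rw [← sum_inner]
      exact (real_inner_le_norm _ _).trans (mul_le_of_le_one_right (norm_nonneg _) (hn y 0))

end seq

/-- no difference is a `k`-th power -/
def Free (k : ℕ) (E : Finset ℕ) : Prop := ∀ x ∈ E, ∀ r : ℕ, 1 ≤ r → x + r ^ k ∉ E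

/-- an upper bound for the density of the free sets -/
def Up (k : ℕ) (δ : ℝ) : Prop :=
  ∀ᶠ L : ℕ in atTop, ∀ E : Finset ℕ, E ⊆ range L → Free k E → (E.card : ℝ) ≤ δ * L

theorem Up.prog {k : ℕ} {δ e : ℝ} (h : Up (k + 1) δ) (hδ : 0 ≤ δ) (he : 0 < e) {q : ℕ}
    (hq : 1 ≤ q) : ∀ᶠ y : ℕ in atTop, ∀ E : Finset ℕ, Free (k + 1) E → ∀ x : ℕ,
      (#{r ∈ range y | x + q * r ∈ E} : ℝ) ≤ (δ + e) * y := by
  obtain ⟨L₁, hL⟩ := eventually_atTop.1 h
  have hQ : 0 < q ^ k := pow_pos hq k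
  filter_upwards [eventually_ge_atTop (L₁ * q ^ k),
    tendsto_natCast_atTop_atTop.eventually_ge_atTop (δ * (q ^ k : ℕ) / e)] with y hy hy' E hE x
  rw [div_le_iff₀ he] at hy'
  have h1 : #{r ∈ range y | x + q * r ∈ E} ≤ ∑ j ∈ range (q ^ k),
      #{s ∈ range (y / q ^ k + 1) | x + q * j + q ^ (k + 1) * s ∈ E} := by
    rw [← card_sigma]
    refine card_le_card_of_injOn (fun r => ⟨r % q ^ k, r / q ^ k⟩) (fun r hr => ?_)
      fun r _ r' _ hr => ?_
    · simp only [coe_filter, mem_range, Set.mem_ofPred_eq] at hr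
      simp only [mem_coe, mem_sigma, mem_range, mem_filter]
      refine ⟨Nat.mod_lt _ hQ, Nat.lt_succ_of_le (Nat.div_le_div_right hr.1.le), ?_⟩
      rw [pow_succ', mul_assoc, add_assoc, ← mul_add, Nat.mod_add_div]
      exact hr.2
    · simp only [Sigma.mk.injEq, heq_eq_eq] at hr
      rw [← Nat.mod_add_div r (q ^ k), hr.1, hr.2, Nat.mod_add_div]
  have h2 : ∀ j ∈ range (q ^ k), (#{s ∈ range (y / q ^ k + 1) |
      x + q * j + q ^ (k + 1) * s ∈ E} : ℝ) ≤ δ * (y / q ^ k + 1 : ℕ) := fun j _ => by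
    refine hL _ (((Nat.le_div_iff_mul_le hQ).2 hy).trans (Nat.le_succ _)) _ (filter_subset _ _)
      fun s hs r hr hr' => hE _ (mem_filter.1 hs).2 (q * r) (Nat.mul_pos hq hr) ?_
    have := (mem_filter.1 hr').2
    rwa [mul_add, ← add_assoc, ← mul_pow] at this
  have h3 := sum_le_card_nsmul _ _ _ h2
  rw [card_range, nsmul_eq_mul, ← Nat.cast_sum] at h3
  have h4 : ((q ^ k : ℕ) : ℝ) * (y / q ^ k + 1 : ℕ) ≤ y + (q ^ k : ℕ) := by
    have := Nat.mul_div_le y (q ^ k)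
    exact_mod_cast (by rw [mul_add, mul_one]; omega)
  have h5 := mul_le_mul_of_nonneg_left h4 hδ
  have h6 := (Nat.cast_le (α := ℝ)).2 h1
  linarith only [hy', h3, h5, h6]

section cyc

variable {n : ℕ}

theorem sum_val (F : ℕ → ℝ) : ∑ x : ZMod (n + 1), F x.val = ∑ i ∈ range (n + 1), F i :=
  Fin.sum_univ_eq_sum_range F (n + 1)

theorem val_add (x : ZMod (n + 1)) {m : ℕ} (h : x.val + m < n + 1) :
    (x + (m : ZMod (n + 1))).val = x.val + m := by
  have h1 : (m : ZMod (n + 1)).val = m := ZMod.val_cast_of_lt (by omega)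
  rw [ZMod.val_add_of_lt (by rwa [h1]), h1]

theorem sum_wrap (m : ℕ) :
    ∑ x : ZMod (n + 1), (if x.val + m < n + 1 then (0 : ℝ) else 1) ≤ m := by
  rw [sum_val fun i => if i + m < n + 1 then (0 : ℝ) else 1]
  simp only [← ite_not (_ + m < n + 1), sum_boole]
  refine Nat.cast_le.2 ((card_le_card (t := Ico (n + 1 - m) (n + 1)) fun i hi => ?_).trans ?_)
  · simp only [mem_filter, mem_range, mem_Ico] at hi ⊢
    omega
  · rw [Nat.card_Ico]
    omega

/-- the indicator function -/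
noncomputable def ind (E : Finset ℕ) (x : ZMod (n + 1)) : ℝ := if x.val ∈ E then 1 else 0

theorem ind_nonneg (E : Finset ℕ) (x : ZMod (n + 1)) : 0 ≤ ind E x := by
  unfold ind
  split_ifs <;> norm_num

theorem ind_le (E : Finset ℕ) (x : ZMod (n + 1)) : ind E x ≤ 1 := by
  unfold ind
  split_ifs <;> norm_num

theorem sum_ind {E : Finset ℕ} (hE : E ⊆ range (n + 1)) (t : ZMod (n + 1)) :
    ∑ x : ZMod (n + 1), ind E (x + t) = E.card := by
  refine (Equiv.sum_comp (Equiv.addRight t) (ind E)).trans ?_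
  unfold ind
  rw [sum_val fun i => if i ∈ E then (1 : ℝ) else 0, sum_boole, filter_mem_eq_inter,
    inter_eq_right.2 hE]

/-- the normalised vector of a function -/
noncomputable def vec (g : ZMod (n + 1) → ℝ) : EuclideanSpace ℝ (ZMod (n + 1)) :=
  WithLp.toLp 2 fun x => g x / √(n + 1)

theorem inner_vec (f g : ZMod (n + 1) → ℝ) :
    inner ℝ (vec f) (vec g) = (∑ x, f x * g x) / (n + 1) := by
  rw [PiLp.inner_apply, sum_div]
  refine sum_congr rfl fun x _ => ?_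
  simp only [vec, RCLike.inner_apply, conj_trivial]
  rw [div_mul_div_comm, Real.mul_self_sqrt (by positivity), mul_comm]

theorem sum_vec (s : Finset ℕ) (g : ℕ → ZMod (n + 1) → ℝ) :
    ∑ r ∈ s, vec (g r) = vec fun x => ∑ r ∈ s, g r x := by
  ext x
  simp [vec, sum_div]

theorem norm_vec_le {g : ZMod (n + 1) → ℝ} {c : ℝ} (hc : 0 ≤ c)
    (h : ∑ x, g x * g x ≤ c ^ 2 * (n + 1)) : ‖vec g‖ ≤ c := by
  refine (sq_le_sq₀ (norm_nonneg _) hc).1 ?_
  rwa [← real_inner_self_eq_norm_sq, inner_vec, div_le_iff₀ (by positivity)]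

theorem norm_vec_le_one {g : ZMod (n + 1) → ℝ} (h : ∀ x, |g x| ≤ 1) : ‖vec g‖ ≤ 1 := by
  refine norm_vec_le zero_le_one ?_
  have := sum_le_card_nsmul univ (fun x => g x * g x) 1 fun x _ => abs_le_one_iff_mul_self_le_one.1 (h x)
  simpa using this

theorem abs_sub_le {δ : ℝ} (h0 : 0 ≤ δ) (h1 : δ ≤ 1) (E : Finset ℕ) (x : ZMod (n + 1)) :
    |ind E x - δ| ≤ 1 :=
  abs_le.2 ⟨by linarith [ind_nonneg E x], by linarith [ind_le E x]⟩

theorem prog_le {δ e : ℝ} (h0 : 0 ≤ δ) (h1 : δ ≤ 1) (he : 0 ≤ e) {E : Finset ℕ}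
    (hE : E ⊆ range (n + 1)) {y q : ℕ} (hd : (δ * y - 1) * (n + 1) ≤ y * E.card)
    (hp : ∀ x : ℕ, (#{r ∈ range y | x + q * r ∈ E} : ℝ) ≤ (δ + e) * y) :
    ∑ x : ZMod (n + 1), (∑ r ∈ range y, (ind E (x + ((q * r : ℕ) : ZMod (n + 1))) - δ)) *
      (∑ r ∈ range y, (ind E (x + ((q * r : ℕ) : ZMod (n + 1))) - δ)) ≤
      y * (2 * (e * y * (n + 1) + y * (q * y : ℕ)) + (n + 1)) := by
  set B : ZMod (n + 1) → ℝ := fun x => ∑ r ∈ range y, (ind E (x + ((q * r : ℕ) : ZMod (n + 1))) - δ) with hB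
  have y0 : (0 : ℝ) ≤ y := Nat.cast_nonneg y
  have b1 : ∀ x, |B x| ≤ y := fun x => norm_sum_range_le (G := ℝ) (fun r => abs_sub_le h0 h1 E _) y
  have b2 : ∀ x, |B x| ≤ 2 * (e * y + y * if x.val + q * y < n + 1 then (0 : ℝ) else 1) - B x := by
    intro x
    have h2 : 0 ≤ e * y := by positivity
    have h3 := abs_le.1 (b1 x)
    split_ifs with hx
    · have h4 : B x = #{r ∈ range y | x.val + q * r ∈ E} - δ * y := by
        rw [hB]
        simp only [sum_sub_distrib, sum_const, card_range, nsmul_eq_mul, ← sum_boole, mul_comm δ]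
        refine congrArg (· - _) (sum_congr rfl fun r hr => ?_)
        have := Nat.mul_le_mul_left q (mem_range.1 hr).le
        rw [ind, val_add x (by omega)]
      have h5 := hp x.val
      rw [abs_le]
      constructor <;> linarith only [h2, h4, h5]
    · rw [abs_le]
      constructor <;> linarith only [h2, h3]
  have b3 : ∑ x, B x = y * (E.card - δ * (n + 1)) := by
    rw [hB, sum_comm]
    simp [sum_ind hE, ZMod.card, mul_comm δ, mul_sub]
  have b4 := sum_le_sum fun x (_ : x ∈ univ) => b2 x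
  simp only [sum_sub_distrib, ← mul_sum, sum_add_distrib, sum_const, card_univ, ZMod.card,
    nsmul_eq_mul, b3] at b4
  have b5 := mul_le_mul_of_nonneg_left (sum_wrap (n := n) (q * y)) y0
  calc _ ≤ ∑ x, y * |B x| := sum_le_sum fun x _ => by
        rw [← abs_mul_abs_self]
        exact mul_le_mul_of_nonneg_right (b1 x) (abs_nonneg _)
    _ ≤ _ := by
        rw [← mul_sum]
        refine mul_le_mul_of_nonneg_left (b4.trans ?_) y0
        push_cast at b5 ⊢
        linarith only [hd, b5]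

theorem pair_le {k : ℕ} {E : Finset ℕ} (hE : Free k E) (y : ℕ) :
    ∑ x : ZMod (n + 1), ind E x * ∑ r ∈ range y, ind E (x + (((r + 1) ^ k : ℕ) : ZMod (n + 1))) ≤
      y * (y ^ k : ℕ) := by
  refine le_trans ?_ (mul_le_mul_of_nonneg_left (sum_wrap (n := n) (y ^ k)) (Nat.cast_nonneg y))
  rw [mul_sum]
  refine sum_le_sum fun x _ => ?_
  split_ifs with hx
  · rw [mul_zero, mul_sum]
    refine (sum_eq_zero fun r hr => ?_).le
    have := Nat.pow_le_pow_left (show r + 1 ≤ y from mem_range.1 hr) k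
    rw [ind, ind, val_add x (by omega)]
    split_ifs with h1 h2
    · exact absurd h2 (hE _ h1 _ (Nat.succ_pos r))
    · exact mul_zero _
    · exact zero_mul _
    · exact zero_mul _
  · have h1 := sum_le_card_nsmul (range y) (fun r => ind E (x + (((r + 1) ^ k : ℕ) : ZMod (n + 1)))) 1
      fun r _ => ind_le E _
    rw [card_range, nsmul_eq_mul] at h1
    exact (mul_le_of_le_one_left (sum_nonneg fun r _ => ind_nonneg E _) (ind_le E x)).trans h1

end cyc

theorem extremal {k : ℕ} {δ : ℝ} (h0 : 0 < δ) (h1 : δ ≤ 1) (hu : ∀ e, 0 < e → Up (k + 1) (δ + e))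
    (hl : ∀ e, 0 < e → ¬ Up (k + 1) (δ - e)) : False := by
  have key : ∀ y : ℕ, ∃ (n : ℕ) (E : Finset ℕ), y ^ (k + 2) ≤ n + 1 ∧ E ⊆ range (n + 1) ∧
      Free (k + 1) E ∧ (δ * y - 1) * (n + 1) ≤ y * E.card := fun y => by
    have h2 := hl (1 / (y + 1)) (by positivity)
    rw [Up, not_eventually] at h2
    obtain ⟨L, hL, hL'⟩ := (h2.and_eventually (eventually_ge_atTop (y ^ (k + 2) + 1))).exists
    obtain ⟨n, rfl⟩ : ∃ n, L = n + 1 := ⟨L - 1, by omega⟩
    push Not at hL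
    obtain ⟨E, a1, a2, a3⟩ := hL
    refine ⟨n, E, by omega, a1, a2,
      le_trans ?_ (mul_le_mul_of_nonneg_left a3.le (Nat.cast_nonneg y))⟩
    have a4 : (y : ℝ) * (1 / (y + 1)) ≤ 1 := by
      rw [mul_one_div, div_le_one (by positivity)]
      linarith only []
    push_cast
    rw [← mul_assoc]
    exact mul_le_mul_of_nonneg_right (by linarith only [a4]) (by positivity)
  choose n E hn hE hf hd using key
  have h2 := poly (G := fun y => EuclideanSpace ℝ (ZMod (n y + 1)))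
    (fun y t => vec fun x => ind (E y) (x + (t : ZMod (n y + 1))) - δ)
    (fun y t => norm_vec_le_one fun x => abs_sub_le h0.le h1 _ _)
    (fun y s t => by
      rw [inner_vec, inner_vec, ← Equiv.sum_comp (Equiv.subRight (t : ZMod (n y + 1)))]
      simp [sub_add_eq_add_sub, add_sub_assoc])
    (fun q hq ε hε => by
      have e0 : 0 < ε ^ 2 / 8 := by positivity
      filter_upwards [(hu _ e0).prog (by positivity) e0 hq,
        tendsto_natCast_atTop_atTop.eventually_ge_atTop ((2 * q + 1) / (ε ^ 2 / 2)),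
        eventually_ge_atTop 1] with y a1 a2 a3
      rw [div_le_iff₀ (by positivity)] at a2
      rw [sum_vec]
      refine norm_vec_le (by positivity) ?_
      have a4 := prog_le (e := ε ^ 2 / 4) (q := q) h0.le h1 (by positivity) (hE y) (hd y)
        fun x => (a1 _ (hf y) x).trans (le_of_eq (by ring))
      have a5 : (y : ℝ) ^ 2 ≤ n y + 1 := by
        exact_mod_cast (Nat.pow_le_pow_right a3 (by omega)).trans (hn y)
      have a6 : (q : ℝ) * y ^ 2 ≤ q * (n y + 1) := by gcongr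
      have a7 := mul_le_mul_of_nonneg_right a2 (by positivity : (0 : ℝ) ≤ n y + 1)
      push_cast at a4 ⊢
      refine a4.trans (le_trans (b := y * (y * ε ^ 2 * (n y + 1))) ?_ (le_of_eq (by ring)))
      exact mul_le_mul_of_nonneg_left (by linarith only [a6, a7]) (Nat.cast_nonneg y))
    k (fun z => (z + 1) ^ (k + 1)) (k + 1).factorial (by positivity)
    (fun z => (fwdDiff_iter_comp_add 1 (fun z : ℤ => z ^ (k + 1)) 1 (k + 1) z).trans
      (by rw [fwdDiff_iter_eq_factorial]; rfl))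
  obtain ⟨y, a1, a2⟩ := ((h2 (δ ^ 2 / 2) (by positivity)).and
    (tendsto_natCast_atTop_atTop.eventually_gt_atTop (2 / (δ ^ 2 / 2)))).exists
  rw [div_lt_iff₀ (by positivity)] at a2
  have a3 := (neg_le_of_abs_le (abs_real_inner_le_norm (vec (ind (E y))) _)).trans'
    (neg_le_neg (mul_le_mul (norm_vec_le_one fun x => by
      rw [abs_of_nonneg (ind_nonneg _ x)]; exact ind_le _ x) a1 (norm_nonneg _) zero_le_one))
  rw [sum_vec, inner_vec, le_div_iff₀ (by positivity)] at a3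
  have a4 := pair_le (n := n y) (hf y) y
  have a5 := sum_ind (hE y) 0
  simp only [add_zero] at a5
  simp only [sum_sub_distrib, mul_sub, sum_const, card_range, nsmul_eq_mul, ← sum_mul, a5] at a3
  have a6 : (y : ℝ) * y ^ (k + 1) ≤ n y + 1 := by
    rw [← pow_succ']
    exact_mod_cast hn y
  have a7 := mul_le_mul_of_nonneg_left (hd y) h0.le
  have a8 : (0 : ℝ) < n y + 1 := by positivity
  have a9 := mul_lt_mul_of_pos_right a2 a8
  have a10 := mul_le_mul_of_nonneg_right h1 a8.le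
  push_cast at a3 a4
  linarith only [a6, a7, a9, a10, a3, a4]

end SarkAAux

open SarkAAux Filter in
theorem sarkozy (k : ℕ) (hk : 1 ≤ k) {δ : ℝ} (hδ : 0 < δ) : ∃ L₀ : ℕ, ∀ L : ℕ, L₀ ≤ L →
    ∀ E : Finset ℕ, E ⊆ range L → δ * L ≤ E.card → ∃ x ∈ E, ∃ r : ℕ, 1 ≤ r ∧ x + r ^ k ∈ E := by
  obtain ⟨k, rfl⟩ := Nat.exists_eq_add_of_le' hk
  by_contra hc
  have h1 : ∀ d ∈ {d | Up (k + 1) d}, δ ≤ d := fun d hd => by
    obtain ⟨L₀, hL⟩ := eventually_atTop.1 hd
    push Not at hc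
    obtain ⟨L, a1, E, a2, a3, a4⟩ := hc (L₀ + 1)
    exact le_of_mul_le_mul_right (a3.trans (hL L (by omega) E a2 a4))
      (Nat.cast_pos.2 (by omega))
  have h2 : Up (k + 1) 1 := Eventually.of_forall fun L E hE _ => by
    simpa using card_le_card hE
  refine extremal (k := k) (hδ.trans_le (le_csInf ⟨1, h2⟩ h1)) (csInf_le ⟨δ, h1⟩ h2)
    (fun e he => ?_) fun e he h => ?_
  · obtain ⟨d, hd, hd'⟩ := exists_lt_of_csInf_lt (s := {d | Up (k + 1) d}) ⟨1, h2⟩
      (lt_add_of_pos_right _ he)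
    exact Eventually.mono hd fun L hL E a1 a2 =>
      (hL E a1 a2).trans (mul_le_mul_of_nonneg_right hd'.le (Nat.cast_nonneg L))
  · linarith only [he, h1, h, csInf_le ⟨δ, h1⟩ h]

end Pool.Agent.Work.MP_89ab3c_nt
end

-- merged part: Pool.Agent.Work.MP_89ab3c_nt.SarkB
section
/-!
# Supersaturation (Varnavides argument over dilates)

Let `L = max L₀ 1` for `δ/4`, `M = y^k`.  For `1 ≤ q ≤ y / L` and `x ∈ range (2 M)` consider
`E x q = {i < L : x + q^k i - M ∈ E}` (that is, shifted by `M ≥ q^k L`).  `∑_x |E x q| = L |E| ≥ δ L M`, so at least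
`δ M / 2` values `x` have `|E x q| ≥ δ L / 4`; each gives `i, r < L`, `r ≥ 1`, with `i, i + r^k ∈ E x q`, that is the
pair `(x + q^k i - M, q r)`, `q r ≤ y`.  The pair together with `(i, r)` determines `(x, q)`.
So the count is at least `(δ M / 2) (y / L) / L^2`, and `y / L ≥ y / (2 L)` for `y ≥ L`.
-/

set_option autoImplicit false

namespace Pool.Agent.Work.MP_89ab3c_nt

open Finset

namespace SarkBAux

/-- many starting points have a dense progression -/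
theorem good {δ : ℝ} (hδ : 0 < δ) {L M d : ℕ} (hL : 1 ≤ L) (hd : d * L ≤ M) {E : Finset ℕ}
    (hE : E ⊆ range M) (hc : δ * M ≤ E.card) :
    δ * M / 2 ≤ (((range (2 * M)).filter fun x => δ / 4 * L ≤
      (((range L).filter fun i => x + d * i ∈ E.image (· + M)).card : ℝ)).card : ℝ) := by
  classical
  set F : ℕ → ℕ := fun x => ((range L).filter fun i => x + d * i ∈ E.image (· + M)).card with hF
  have h1 : L * E.card ≤ ∑ x ∈ range (2 * M), F x := by
    simp only [hF, card_filter]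
    rw [sum_comm]
    calc L * E.card = ∑ _i ∈ range L, E.card := by simp
      _ ≤ _ := sum_le_sum fun i hi => ?_
    rw [← card_filter]
    have hi' : d * i ≤ M := (Nat.mul_le_mul_left d (mem_range.1 hi).le).trans hd
    refine card_le_card_of_injOn (fun e => e + M - d * i) (fun e he => ?_) fun a _ b _ h => ?_
    · have := mem_range.1 (hE he)
      simp only [coe_filter, mem_range, Set.mem_ofPred_eq, mem_image]
      exact ⟨by omega, e, he, by omega⟩
    · simp only at h; omega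
  have h2 : ∑ x ∈ range (2 * M), (F x : ℝ) ≤ ∑ x ∈ range (2 * M),
      ((if δ / 4 * L ≤ (F x : ℝ) then (L : ℝ) else 0) + δ / 4 * L) := sum_le_sum fun x _ => by
    have : (F x : ℝ) ≤ L := by exact_mod_cast (card_filter_le _ _).trans (card_range L).le
    have h0 : 0 ≤ δ / 4 * L := by positivity
    split_ifs with h
    · linarith only [this, h0]
    · linarith only [h]
  rw [sum_add_distrib, ← sum_filter, sum_const, sum_const, card_range, nsmul_eq_mul,
    nsmul_eq_mul] at h2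
  have h3 : (L : ℝ) * E.card ≤ ∑ x ∈ range (2 * M), (F x : ℝ) := by exact_mod_cast h1
  have hL' : (0 : ℝ) < L := by exact_mod_cast hL
  push_cast at h2
  refine le_of_mul_le_mul_right ?_ hL'
  linarith only [h3, h2, hc, hL', mul_le_mul_of_nonneg_left hc hL'.le]

end SarkBAux

theorem sarkozy_super (k : ℕ) (hk : 1 ≤ k) {δ : ℝ} (hδ : 0 < δ) : ∃ c : ℝ, 0 < c ∧ ∃ y₀ : ℕ,
    ∀ y : ℕ, y₀ ≤ y → ∀ E : Finset ℕ, E ⊆ range (y ^ k) → δ * (y : ℝ) ^ k ≤ E.card →
      c * (y : ℝ) ^ k * y ≤ (((E ×ˢ Icc 1 y).filter fun e => e.1 + e.2 ^ k ∈ E).card : ℝ) := by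
  classical
  obtain ⟨L₀, hL₀⟩ := sarkozy k hk (δ := δ / 4) (by positivity)
  set L := max L₀ 1 with hLdef
  have hL : 1 ≤ L := le_max_right _ _
  have hL' : (0 : ℝ) < L := by exact_mod_cast hL
  refine ⟨δ / (4 * L ^ 3), by positivity, L, fun y hy E hE hc => ?_⟩
  set M := y ^ k with hM
  have hMc : (y : ℝ) ^ k = M := by rw [hM]; push_cast; rfl
  rw [hMc] at hc ⊢
  set T := (E ×ˢ Icc 1 y).filter fun e => e.1 + e.2 ^ k ∈ E with hT
  set S := (Icc 1 (y / L) ×ˢ range (2 * M)).filter fun z => δ / 4 * L ≤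
    (((range L).filter fun i => z.2 + z.1 ^ k * i ∈ E.image (· + M)).card : ℝ) with hS
  have hq : ∀ q ∈ Icc 1 (y / L), q * L ≤ y := fun q hq =>
    (Nat.le_div_iff_mul_le (by omega)).1 (mem_Icc.1 hq).2
  have hd : ∀ q ∈ Icc 1 (y / L), q ^ k * L ≤ M := fun q h => by
    calc q ^ k * L ≤ q ^ k * L ^ k := Nat.mul_le_mul_left _ (Nat.le_self_pow (by omega) L)
      _ = (q * L) ^ k := (mul_pow _ _ _).symm
      _ ≤ M := Nat.pow_le_pow_left (hq q h) k
  have h1 : ((y / L : ℕ) : ℝ) * (δ * M / 2) ≤ S.card := by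
    rw [hS, card_filter, sum_product]
    push_cast
    calc ((y / L : ℕ) : ℝ) * (δ * M / 2) = ∑ _q ∈ Icc 1 (y / L), δ * M / 2 := by simp
      _ ≤ _ := sum_le_sum fun q h => ?_
    have := SarkBAux.good hδ hL (hd q h) hE hc
    rw [card_filter] at this
    push_cast at this
    exact this
  have h2 : S ⊆ (T ×ˢ range L ×ˢ range L).image fun w =>
      (w.1.2 / w.2.2, w.1.1 + M - (w.1.2 / w.2.2) ^ k * w.2.1) := by
    rintro ⟨q, x⟩ hz
    rw [hS, mem_filter, mem_product] at hz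
    obtain ⟨⟨hq1, -⟩, hz⟩ := hz
    obtain ⟨i, hi, r, hr, hir⟩ := hL₀ L (le_max_left _ _) _ (filter_subset _ _) hz
    simp only [mem_filter, mem_range, mem_image] at hi hir
    obtain ⟨hi, e, he, ee⟩ := hi
    obtain ⟨hir, e', he', ee'⟩ := hir
    have hrL : r < L := by have := Nat.le_self_pow (n := k) (by omega) r; omega
    have hq0 := (mem_Icc.1 hq1).1
    have hdiv : q * r / r = q := Nat.mul_div_cancel q (by omega)
    refine mem_image.2 ⟨((e, q * r), i, r), ?_, ?_⟩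
    · simp only [hT, mem_product, mem_filter, mem_Icc, mem_range]
      refine ⟨⟨⟨he, Nat.mul_pos hq0 hr, (Nat.mul_le_mul_left q hrL.le).trans (hq q hq1)⟩, ?_⟩,
        hi, hrL⟩
      have : e + (q * r) ^ k = e' := by rw [mul_pow]; rw [mul_add] at ee'; omega
      rwa [this]
    · simp only [hdiv, Prod.mk.injEq, true_and]
      omega
  have h3 : (S.card : ℝ) ≤ T.card * (L * L) := by
    have := (card_le_card h2).trans card_image_le
    rw [card_product, card_product, card_range] at this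
    exact_mod_cast this
  have h4 : (y : ℝ) ≤ 2 * L * ((y / L : ℕ) : ℝ) := by
    have a1 : 1 ≤ y / L := (Nat.le_div_iff_mul_le (by omega)).2 (by omega)
    have a2 := Nat.lt_mul_div_succ y (show 0 < L by omega)
    have : y ≤ 2 * L * (y / L) := by nlinarith only [a2, a1]
    exact_mod_cast this
  rw [div_mul_eq_mul_div, div_mul_eq_mul_div, div_le_iff₀ (by positivity)]
  have h5 : 0 ≤ δ * M := by positivity
  have h6 := mul_le_mul_of_nonneg_left h4 h5
  have h7 := mul_le_mul_of_nonneg_left (h1.trans h3) hL'.le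
  linarith only [h6, h7]

end Pool.Agent.Work.MP_89ab3c_nt
end

-- merged part: Pool.Agent.Work.MP_89ab3c_nt.Powers
section
/-!
# Dilated `k`-th powers as differences of primes
-/

set_option autoImplicit false

namespace Pool.Agent.Work.MP_89ab3c_nt

open Finset Filter Real

theorem narrow_powers (k : ℕ) (hk : 1 ≤ k) {ε α : ℝ} (hε : 0 < ε) (hα : 0 < α) :
    ∀ᶠ N : ℕ in atTop, ∀ (W : ℕ) (A : Finset ℕ), 1 ≤ W → W * (log N ^ (1 + ε)) ^ k ≤ N →
      (∀ p ∈ A, p.Prime ∧ p ≤ N) → α * N / log N ≤ A.card →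
      ∃ a ∈ A, ∃ a' ∈ A, ∃ r : ℕ, 1 ≤ r ∧ (r : ℝ) ≤ log N ^ (1 + ε) ∧ a = a' + W * r ^ k := by
  obtain ⟨s, hs, C, -, hC⟩ := rep_pow_le k hk
  obtain ⟨δ, hδ, H⟩ := narrow s hs C ((1 + ε) * k) (half_pos hε) hα
  obtain ⟨c, hc, y₀, hy₀⟩ := sarkozy_super k hk hδ
  obtain ⟨w, H⟩ := H c hc
  have hlog : Tendsto (fun N : ℕ => log N) atTop atTop :=
    tendsto_log_atTop.comp tendsto_natCast_atTop_atTop
  filter_upwards [H, hlog.eventually ((tendsto_rpow_atTop (half_pos hε)).eventually_ge_atTop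
    (2 * w.factorial)), hlog.eventually ((tendsto_rpow_atTop
      (show 0 < 1 + ε / 2 by positivity)).eventually_ge_atTop (max y₀ 1)),
    hlog.eventually (eventually_gt_atTop 0)] with N e1 e2 e3 l0 W A hW hWN hA hAc
  set l := log N with hl
  set y := ⌈l ^ (1 + ε / 2)⌉₊ with hy
  have y1 : l ^ (1 + ε / 2) ≤ y := Nat.le_ceil _
  have y2 : (y : ℝ) ≤ 2 * l ^ (1 + ε / 2) := by
    have := Nat.ceil_lt_add_one (show 0 ≤ l ^ (1 + ε / 2) by positivity)
    linarith only [this, e3, (le_max_right _ _).trans e3]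
  have y3 : y₀ ≤ y := by exact_mod_cast ((le_max_left _ _).trans e3).trans y1
  have y4 : 1 ≤ y := by exact_mod_cast ((le_max_right _ _).trans e3).trans y1
  have y5 : ((w.factorial * y : ℕ) : ℝ) ≤ l ^ (1 + ε) := by
    push_cast
    calc _ ≤ (w.factorial : ℝ) * (2 * l ^ (1 + ε / 2)) := by gcongr
      _ = 2 * w.factorial * l ^ (1 + ε / 2) := by ring
      _ ≤ l ^ (ε / 2) * l ^ (1 + ε / 2) := by gcongr
      _ = _ := by rw [← rpow_add l0]; congr 1; ring
  have f0 := w.factorial_pos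
  have inj : Function.Injective (· ^ k : ℕ → ℕ) := Nat.pow_left_injective (by omega)
  have hc' : ((Icc 1 y).image (· ^ k)).card = y := by
    rw [card_image_of_injective _ inj]; simp
  obtain ⟨a, ha, a', ha', t, ht, e⟩ := e1 (y ^ k) (W * w.factorial ^ k) ((Icc 1 y).image (· ^ k)) A
    (Nat.mul_pos hW (by positivity))
    (fun p hp hpw => Dvd.dvd.mul_left (dvd_pow (hp.dvd_factorial.2 hpw) (by omega)) _)
    (by
      rw [mul_assoc, ← mul_pow]
      refine Nat.cast_le (α := ℝ) |>.1 (le_trans ?_ hWN)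
      rw [Nat.cast_mul, Nat.cast_pow]
      gcongr)
    (by
      rw [rpow_mul_natCast l0.le, Nat.cast_pow]
      exact pow_le_pow_left₀ (by positivity)
        ((Nat.cast_le.2 (Nat.le_mul_of_pos_left y f0)).trans y5) _)
    (fun t ht => by
      obtain ⟨r, hr, rfl⟩ := mem_image.1 ht
      rw [mem_Icc] at hr ⊢
      exact ⟨Nat.one_le_pow _ _ hr.1, Nat.pow_le_pow_left hr.2 _⟩)
    (by rwa [hc'])
    (fun n => by
      rw [hc', Nat.cast_pow]
      refine le_trans (mul_le_mul_of_nonneg_right (Nat.cast_le.2 ?_) (by positivity)) (hC y y4 n)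
      refine card_le_card_of_surjOn (fun x i => x i ^ k) fun x hx => ?_
      simp only [coe_filter, Fintype.mem_piFinset, mem_image, Set.mem_ofPred_eq] at hx
      choose r hr hr' using hx.1
      refine ⟨r, ?_, funext hr'⟩
      simp only [coe_filter, Fintype.mem_piFinset, Set.mem_ofPred_eq, hr']
      exact ⟨hr, hx.2⟩)
    (fun E hE hE' => by
      rw [hc', Nat.cast_pow] at *
      refine (hy₀ y y3 E hE hE').trans (Nat.cast_le.2 ?_)
      refine card_le_card_of_injOn (fun e => (e.1, e.2 ^ k)) (fun e he => ?_) fun e _ e' _ h => ?_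
      · simp only [coe_filter, mem_product, Set.mem_ofPred_eq] at he ⊢
        exact ⟨⟨he.1.1, mem_image_of_mem _ he.1.2⟩, he.2⟩
      · exact Prod.ext (Prod.mk.inj h).1 (inj (Prod.mk.inj h).2))
    hA hAc
  obtain ⟨r, hr, rfl⟩ := mem_image.1 ht
  rw [mem_Icc] at hr
  exact ⟨a, ha, a', ha', w.factorial * r, Nat.mul_pos f0 hr.1,
    (Nat.cast_le.2 (Nat.mul_le_mul_left _ hr.2)).trans y5, by rw [e, mul_pow, mul_assoc]⟩

end Pool.Agent.Work.MP_89ab3c_nt
end
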